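import Mathlib

/-!
The dual of the Tsirelson space with constant `49 / 50` is distortable and of bounded distortion.
Parts: the Tsirelson norm `N`; the blocking principle for `N` and for the dual norm `nx`; the game
giving bounded distortion (`core`); the distorting norm `p2`; the completion.
-/

set_option autoImplicit false
open Finset Filter Topology

namespace Pool.Agent.Lib.MP_740c08_an.Dual

abbrev V (𝕜 : Type) [RCLike 𝕜] := ℕ →₀ 𝕜

variable {𝕜 : Type} [RCLike 𝕜]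

noncomputable def th : ℝ := 49 / 50

lemma th_pos : 0 < th := by norm_num [th]
lemma th_le : th ≤ 1 := by norm_num [th]

/-- restriction to the interval `[a, b)` -/
noncomputable def res (a b : ℕ) (y : V 𝕜) : V 𝕜 := y.filter fun i => a ≤ i ∧ i < b

lemma res_apply (a b : ℕ) (y : V 𝕜) (i : ℕ) : res a b y i = if a ≤ i ∧ i < b then y i else 0 :=
  Finsupp.filter_apply _ _ _

lemma res_add (a b : ℕ) (y z : V 𝕜) : res a b (y + z) = res a b y + res a b z :=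
  Finsupp.filter_add

/-- support inside `[a, b)` -/
def In (a b : ℕ) (y : V 𝕜) : Prop := ∀ i, y i ≠ 0 → a ≤ i ∧ i < b

lemma in_res (a b : ℕ) (y : V 𝕜) : In a b (res a b y) := fun i hi => by
  rw [res_apply] at hi
  by_contra h
  exact hi (if_neg h)

lemma In.res_eq {a b c d : ℕ} {y : V 𝕜} (h : In a b y) (h1 : c ≤ a) (h2 : b ≤ d) :
    res c d y = y := by
  ext i
  rw [res_apply]
  split_ifs with e
  · rfl
  · by_contra e'
    have := h i (Ne.symm e')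
    omega

lemma In.res_zero {a b c d : ℕ} {y : V 𝕜} (h : In a b y) (h1 : b ≤ c ∨ d ≤ a) :
    res c d y = 0 := by
  ext i
  rw [res_apply]
  split_ifs with e
  · by_contra e'
    have := h i e'
    omega
  · rfl

lemma In.mono {a b c d : ℕ} {y : V 𝕜} (h : In a b y) (h1 : c ≤ a) (h2 : b ≤ d) : In c d y :=
  fun i hi => by have := h i hi; omega

lemma In.add {a b : ℕ} {y z : V 𝕜} (h : In a b y) (h' : In a b z) : In a b (y + z) := fun i hi => by
  by_cases e : y i = 0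
  · exact h' i (by simpa [e] using hi)
  · exact h i e

lemma In.smul {a b : ℕ} {y : V 𝕜} (h : In a b y) (c : 𝕜) : In a b (c • y) := fun i hi =>
  h i fun e => hi (by simp [e])

lemma in_zero (a b : ℕ) : In a b (0 : V 𝕜) := fun _ hi => (hi rfl).elim

lemma exists_in (y : V 𝕜) : ∃ b, In 0 b y :=
  ⟨y.support.sup id + 1, fun _ hi =>
    ⟨Nat.zero_le _, Nat.lt_succ_of_le (le_sup (f := id) (Finsupp.mem_support_iff.2 hi))⟩⟩

lemma exists_in' {a : ℕ} {y : V 𝕜} (h : ∀ i < a, y i = 0) : ∃ b, a ≤ b ∧ In a b y := by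
  obtain ⟨b, hb⟩ := exists_in y
  exact ⟨max a b, le_max_left _ _, fun i hi =>
    ⟨not_lt.1 fun e => hi (h i e), lt_max_of_lt_right (hb i hi).2⟩⟩

/-- weighted sum of absolute values -/
noncomputable def ev (w : ℕ → ℝ) (y : V 𝕜) : ℝ := ∑ i ∈ y.support, w i * ‖y i‖

lemma ev_eq (w : ℕ → ℝ) {y : V 𝕜} {s : Finset ℕ} (h : y.support ⊆ s) :
    ev w y = ∑ i ∈ s, w i * ‖y i‖ :=
  sum_subset h fun i _ hi => by simp [Finsupp.notMem_support_iff.1 hi]

lemma ev_le {w w' : ℕ → ℝ} {y y' : V 𝕜} (h : ∀ i, w i * ‖y i‖ ≤ w' i * ‖y' i‖) :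
    ev w y ≤ ev w' y' := by
  rw [ev_eq w (s := y.support ∪ y'.support) subset_union_left,
    ev_eq w' (s := y.support ∪ y'.support) subset_union_right]
  exact sum_le_sum fun i _ => h i

lemma ev_le_add {w w₁ w₂ : ℕ → ℝ} {y y₁ y₂ : V 𝕜}
    (h : ∀ i, w i * ‖y i‖ ≤ w₁ i * ‖y₁ i‖ + w₂ i * ‖y₂ i‖) : ev w y ≤ ev w₁ y₁ + ev w₂ y₂ := by
  rw [ev_eq w (s := y.support ∪ (y₁.support ∪ y₂.support)) subset_union_left,
    ev_eq w₁ (s := y.support ∪ (y₁.support ∪ y₂.support))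
      (subset_union_left.trans subset_union_right),
    ev_eq w₂ (s := y.support ∪ (y₁.support ∪ y₂.support))
      (subset_union_right.trans subset_union_right), ← sum_add_distrib]
  exact sum_le_sum fun i _ => h i

lemma add_le_ev {w w₁ w₂ : ℕ → ℝ} {y y₁ y₂ : V 𝕜}
    (h : ∀ i, w₁ i * ‖y₁ i‖ + w₂ i * ‖y₂ i‖ ≤ w i * ‖y i‖) : ev w₁ y₁ + ev w₂ y₂ ≤ ev w y := by
  rw [ev_eq w (s := y.support ∪ (y₁.support ∪ y₂.support)) subset_union_left,
    ev_eq w₁ (s := y.support ∪ (y₁.support ∪ y₂.support))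
      (subset_union_left.trans subset_union_right),
    ev_eq w₂ (s := y.support ∪ (y₁.support ∪ y₂.support))
      (subset_union_right.trans subset_union_right), ← sum_add_distrib]
  exact sum_le_sum fun i _ => h i

lemma ev_zero (w : ℕ → ℝ) : ev w (0 : V 𝕜) = 0 := by simp [ev]

lemma ev_nonpos {w : ℕ → ℝ} {y : V 𝕜} (h : ∀ i, w i * ‖y i‖ ≤ 0) : ev w y ≤ 0 :=
  sum_nonpos fun i _ => h i

lemma ev_nonneg {w : ℕ → ℝ} (h : ∀ i, 0 ≤ w i) (y : V 𝕜) : 0 ≤ ev w y :=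
  sum_nonneg fun i _ => mul_nonneg (h i) (norm_nonneg _)

lemma ev_mul (c : ℝ) (w : ℕ → ℝ) (y : V 𝕜) : ev (fun i => c * w i) y = c * ev w y := by
  simp only [ev, mul_sum, mul_assoc]

lemma ev_smul (c : 𝕜) (w : ℕ → ℝ) (y : V 𝕜) : ev w (c • y) = ‖c‖ * ev w y := by
  rw [ev_eq w (s := y.support) Finsupp.support_smul, ev, mul_sum]
  exact sum_congr rfl fun i _ => by simp [norm_mul]; ring

lemma ev_single (y : V 𝕜) (i : ℕ) : ev (fun j => if j = i then 1 else 0) y = ‖y i‖ := by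
  rw [ev_eq _ (s := insert i y.support) (subset_insert _ _)]
  simp

/-- weight functions of forests of `m` successive trees starting at `lo` -/
inductive F : ℕ → ℕ → (ℕ → ℝ) → Prop
  | nil (lo : ℕ) : F 0 lo fun _ => 0
  | leaf {m mid : ℕ} {w : ℕ → ℝ} (lo i : ℕ) : F m mid w →
      F (m + 1) lo fun j => if j < mid then (if j = i then 1 else 0) else w j
  | node {k s m mid : ℕ} {u w : ℕ → ℝ} (lo : ℕ) : F k s u → k ≤ s → F m mid w →
      F (m + 1) lo fun j => if j < mid then (if s ≤ j then th * u j else 0) else w j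

lemma F.bound {m lo : ℕ} {w : ℕ → ℝ} (h : F m lo w) (j : ℕ) : 0 ≤ w j ∧ w j ≤ 1 := by
  induction h with
  | nil => simp
  | leaf lo i _ ih =>
    dsimp only
    split_ifs <;> simp [ih]
  | node lo _ _ _ ih1 ih2 =>
    dsimp only
    split_ifs
    · exact ⟨mul_nonneg th_pos.le ih1.1, mul_le_one₀ th_le ih1.1 ih1.2⟩
    · simp
    · exact ih2

/-- the Tsirelson norm -/
noncomputable def N (y : V 𝕜) : ℝ := sSup {v | ∃ w, F 1 0 w ∧ v = ev w y}

lemma bdd_N (y : V 𝕜) : BddAbove {v | ∃ w, F 1 0 w ∧ v = ev w y} :=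
  ⟨ev (fun _ => 1) y, by
    rintro _ ⟨w, hw, rfl⟩
    exact ev_le fun i => mul_le_mul_of_nonneg_right (hw.bound i).2 (norm_nonneg _)⟩

lemma ne_N (y : V 𝕜) : {v | ∃ w, F 1 0 w ∧ v = ev w y}.Nonempty :=
  ⟨_, _, F.leaf 0 0 (F.nil 0), rfl⟩

lemma ev_le_N {w : ℕ → ℝ} (h : F 1 0 w) (y : V 𝕜) : ev w y ≤ N y := le_csSup (bdd_N y) ⟨w, h, rfl⟩

lemma N_le {y : V 𝕜} {K : ℝ} (h : ∀ w, F 1 0 w → ev w y ≤ K) : N y ≤ K :=
  csSup_le (ne_N y) (by rintro _ ⟨w, hw, rfl⟩; exact h w hw)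

lemma N_nonneg (y : V 𝕜) : 0 ≤ N y :=
  (ev_nonneg (fun j => ((F.leaf 0 0 (F.nil 0)).bound j).1) y).trans
    (ev_le_N (F.leaf 0 0 (F.nil 0)) y)

lemma N_mono {y y' : V 𝕜} (h : ∀ i, ‖y i‖ ≤ ‖y' i‖) : N y ≤ N y' :=
  N_le fun _ hw => (ev_le fun i => mul_le_mul_of_nonneg_left (h i) (hw.bound i).1).trans
    (ev_le_N hw y')

lemma N_add (y z : V 𝕜) : N (y + z) ≤ N y + N z :=
  N_le fun w hw => (ev_le_add (w₁ := w) (w₂ := w) fun i => by
    rw [← mul_add]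
    exact mul_le_mul_of_nonneg_left (norm_add_le _ _) (hw.bound i).1).trans
    (add_le_add (ev_le_N hw y) (ev_le_N hw z))

lemma N_smul (c : 𝕜) (y : V 𝕜) : N (c • y) ≤ ‖c‖ * N y :=
  N_le fun w hw => by
    rw [ev_smul]
    exact mul_le_mul_of_nonneg_left (ev_le_N hw y) (norm_nonneg _)

lemma N_zero : N (0 : V 𝕜) = 0 := le_antisymm (N_le fun w _ => (ev_zero w).le) (N_nonneg _)

lemma abs_le_N (y : V 𝕜) (i : ℕ) : ‖y i‖ ≤ N y := by
  refine le_trans ?_ (ev_le_N (F.leaf 0 i (F.nil (i + 1))) y)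
  rw [← ev_single]
  refine ev_le fun j => mul_le_mul_of_nonneg_right ?_ (norm_nonneg _)
  split_ifs <;> first | omega | simp

lemma N_single (i : ℕ) : N (Finsupp.single i (1 : 𝕜)) ≤ 1 :=
  N_le fun w hw => by
    rw [ev_eq w (s := {i}) Finsupp.support_single_subset]
    simpa using (hw.bound i).2

/-- norm of the restriction to an interval -/
noncomputable def n (y : V 𝕜) (a b : ℕ) : ℝ := N (res a b y)

lemma n_nonneg (y : V 𝕜) (a b : ℕ) : 0 ≤ n y a b := N_nonneg _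

lemma abs_res_le (a b : ℕ) (y : V 𝕜) (i : ℕ) : ‖res a b y i‖ ≤ ‖y i‖ := by
  rw [res_apply]
  split_ifs <;> simp

lemma n_le (y : V 𝕜) (a b : ℕ) : n y a b ≤ N y := N_mono (abs_res_le a b y)

lemma n_mono (y : V 𝕜) {a b c d : ℕ} (h1 : c ≤ a) (h2 : b ≤ d) : n y a b ≤ n y c d :=
  N_mono fun i => by
    rw [res_apply, res_apply]
    split_ifs <;> first | omega | simp

lemma n_self (y : V 𝕜) (a : ℕ) : n y a a = 0 := by
  have : res a a y = 0 := by
    ext i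
    rw [res_apply, if_neg (by omega)]
    rfl
  rw [n, this, N_zero]

/-- `v` is at most a sum of norms of `m` successive restrictions inside `[a, b)` -/
inductive Sp (y : V 𝕜) : ℕ → ℕ → ℕ → ℝ → Prop
  | nil {a b : ℕ} {v : ℝ} : a ≤ b → v ≤ 0 → Sp y 0 a b v
  | cons {m a c b : ℕ} {v v' : ℝ} : a ≤ c → Sp y m c b v → v' ≤ n y a c + v → Sp y (m + 1) a b v'

namespace Sp

variable {y : V 𝕜} {m a b : ℕ} {v : ℝ}

lemma le (h : Sp y m a b v) : a ≤ b := by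
  induction h with
  | nil h _ => exact h
  | cons h _ _ ih => exact h.trans ih

lemma down (h : Sp y m a b v) {v' : ℝ} (e : v' ≤ v) : Sp y m a b v' := by
  cases h with
  | nil h1 h2 => exact nil h1 (e.trans h2)
  | cons h1 h2 h3 => exact cons h1 h2 (e.trans h3)

lemma left (h : Sp y m a b v) {a' : ℕ} (e : a' ≤ a) : Sp y m a' b v := by
  cases h with
  | nil h1 h2 => exact nil (e.trans h1) h2
  | cons h1 h2 h3 =>
    exact cons (e.trans h1) h2 (h3.trans (add_le_add_left (n_mono y e le_rfl) _))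

lemma succ (h : Sp y m a b v) : Sp y (m + 1) a b v :=
  cons le_rfl h (le_add_of_nonneg_left (n_nonneg _ _ _))

lemma pad (h : Sp y m a b v) {m' : ℕ} (e : m ≤ m') : Sp y m' a b v := by
  induction e with
  | refl => exact h
  | step _ ih => exact ih.succ

lemma one (h : a ≤ b) (e : v ≤ n y a b) : Sp y 1 a b v :=
  cons h (nil le_rfl le_rfl) (by simpa using e)

lemma zero (m : ℕ) (h : a ≤ b) (e : v ≤ 0) : Sp y m a b v := (nil h e).pad (Nat.zero_le _)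

lemma append (h : Sp y m a b v) {m' c : ℕ} {v' : ℝ} (h' : Sp y m' b c v') :
    Sp y (m + m') a c (v + v') := by
  induction h with
  | nil h1 h2 =>
    rw [Nat.zero_add]
    exact (h'.left h1).down (by linarith)
  | cons h1 _ h3 ih =>
    rw [Nat.add_right_comm]
    exact cons h1 (ih h') (by linarith)

lemma split (h : Sp y m a b v) (j : ℕ) : ∃ c v₁ v₂, Sp y j a c v₁ ∧ Sp y (m - j) c b v₂ ∧
    v ≤ v₁ + v₂ ∧ (a + j ≤ c ∨ v₂ ≤ 0) := by
  induction h generalizing j with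
  | @nil a b v h1 h2 =>
    exact ⟨a, 0, 0, zero _ le_rfl le_rfl, zero _ h1 le_rfl, by linarith, Or.inr le_rfl⟩
  | @cons m a c b v v' h1 h2 h3 ih =>
    rcases h1.eq_or_lt with rfl | h4
    · obtain ⟨d, v₁, v₂, e1, e2, e3, e4⟩ := ih j
      rw [n_self] at h3
      exact ⟨d, v₁, v₂, e1, e2.pad (by omega), by linarith, e4⟩
    · rcases j with _ | j
      · exact ⟨a, 0, v', nil le_rfl le_rfl, cons h1 h2 h3, by linarith, Or.inl le_rfl⟩
      · obtain ⟨d, v₁, v₂, e1, e2, e3, e4⟩ := ih j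
        exact ⟨d, n y a c + v₁, v₂, cons h1 e1 le_rfl, e2.pad (by omega), by linarith,
          e4.imp_left fun _ => by omega⟩

end Sp

lemma graft {t w : ℕ → ℝ} (ht : F 1 0 t) {m c : ℕ} (hw : F m c w) (a : ℕ) :
    ∃ u, F (m + 1) a u ∧ (∀ j < c, t j ≤ u j) ∧ ∀ j, c ≤ j → u j = w j := by
  generalize e1 : 1 = o at ht
  cases ht with
  | nil => omega
  | @leaf m' mid w' _ i h1 =>
    obtain rfl : m' = 0 := by omega
    cases h1
    refine ⟨_, F.leaf a i hw, fun j hj => ?_, fun j hj => if_neg (by omega)⟩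
    dsimp only
    rw [if_pos hj]
    split_ifs <;> simp
  | @node k s m' mid u w' _ h1 h2 h3 =>
    obtain rfl : m' = 0 := by omega
    cases h3
    refine ⟨_, F.node a h1 h2 hw, fun j hj => ?_, fun j hj => if_neg (by omega)⟩
    dsimp only
    rw [if_pos hj]
    have := mul_nonneg th_pos.le (h1.bound j).1
    split_ifs <;> simp [this]

lemma Sp.approx {y : V 𝕜} {m a b : ℕ} {v : ℝ} (h : Sp y m a b v) {ε : ℝ} (hε : 0 < ε) :
    ∃ w, F m a w ∧ v - ε ≤ ev w (res a b y) := by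
  induction h generalizing ε with
  | @nil a b v h1 h2 =>
    exact ⟨_, F.nil a, le_trans (by linarith) (ev_nonneg (fun _ => le_rfl) _)⟩
  | @cons m a c b v v' h1 h2 h3 ih =>
    obtain ⟨w, e1, e2⟩ := ih (half_pos hε)
    obtain ⟨_, ⟨t, e3, rfl⟩, e4⟩ := exists_lt_of_lt_csSup (ne_N (res a c y))
      (sub_lt_self (n y a c) (half_pos hε))
    obtain ⟨u, e5, e6, e7⟩ := graft e3 e1 a
    refine ⟨u, e5, le_trans (by linarith) (add_le_ev (w₁ := t) (w₂ := w) (y₁ := res a c y)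
      (y₂ := res c b y) fun i => ?_)⟩
    have e8 := h2.le
    simp only [res_apply]
    by_cases hi : i < c
    · rw [if_neg (by omega : ¬ (c ≤ i ∧ i < b)), norm_zero, mul_zero, add_zero]
      by_cases hi' : a ≤ i
      · rw [if_pos ⟨hi', hi⟩, if_pos ⟨hi', by omega⟩]
        exact mul_le_mul_of_nonneg_right (e6 i hi) (norm_nonneg _)
      · rw [if_neg (by omega), if_neg (by omega)]
        simp
    · rw [if_neg (by omega : ¬ (a ≤ i ∧ i < c)), norm_zero, mul_zero, zero_add, e7 i (by omega)]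
      by_cases hi' : i < b
      · rw [if_pos ⟨by omega, hi'⟩, if_pos ⟨by omega, hi'⟩]
      · rw [if_neg (by omega), if_neg (by omega)]

/-- the lower estimate of the Tsirelson norm -/
lemma Sp.adm {y : V 𝕜} {m a b : ℕ} {v : ℝ} (h : Sp y m a b v) (hm : m ≤ a) : th * v ≤ n y a b := by
  refine le_of_forall_pos_le_add fun ε hε => ?_
  obtain ⟨w, e1, e2⟩ := h.approx hε
  have e3 := ev_le_N (F.node 0 e1 hm (F.nil b)) (res a b y)
  have e4 : ev (fun i => th * w i) (res a b y) ≤ ev (fun j => if j < b then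
      (if a ≤ j then th * w j else 0) else 0) (res a b y) := ev_le fun i => by
    rw [res_apply]
    split_ifs <;> first | omega | simp
  rw [ev_mul] at e4
  have e5 := mul_le_mul_of_nonneg_left e2 th_pos.le
  have e6 := mul_le_mul_of_nonneg_right th_le hε.le
  unfold n
  linarith

lemma ev_split (w : ℕ → ℝ) (y : V 𝕜) {a c b : ℕ} (h1 : a ≤ c) (h2 : c ≤ b) :
    ev w (res a b y) ≤ ev w (res a c y) + ev w (res c b y) :=
  ev_le_add fun i => by
    simp only [res_apply]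
    split_ifs <;> first | omega | simp

lemma ev_res_le {w w' : ℕ → ℝ} (y : V 𝕜) {a b : ℕ} (h : ∀ j, a ≤ j → j < b → w j ≤ w' j) :
    ev w (res a b y) ≤ ev w' (res a b y) :=
  ev_le fun i => by
    rw [res_apply]
    split_ifs with e
    · exact mul_le_mul_of_nonneg_right (h i e.1 e.2) (norm_nonneg _)
    · simp

lemma sp_step {y : V 𝕜} {t w u : ℕ → ℝ} {m mid : ℕ} (ht : F 1 0 t) (h1 : ∀ j < mid, u j ≤ t j)
    (h2 : ∀ j, mid ≤ j → u j ≤ w j) (ih : ∀ a b, a ≤ b → Sp y m a b (ev w (res a b y)))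
    {a b : ℕ} (hab : a ≤ b) : Sp y (m + 1) a b (ev u (res a b y)) := by
  refine Sp.cons (c := min (max mid a) b) (by omega) (ih _ _ (by omega))
    ((ev_split u y (c := min (max mid a) b) (by omega) (by omega)).trans (add_le_add ?_ ?_))
  · exact (ev_res_le y fun j _ _ => h1 j (by omega)).trans (ev_le_N ht _)
  · exact ev_res_le y fun j _ _ => h2 j (by omega)

lemma F.sp {m lo : ℕ} {w : ℕ → ℝ} (h : F m lo w) (y : V 𝕜) :
    ∀ a b, a ≤ b → Sp y m a b (ev w (res a b y)) := by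
  induction h with
  | nil => exact fun a b hab => Sp.nil hab (ev_nonpos fun i => by simp)
  | @leaf m mid w lo i _ ih =>
    exact fun a b hab => sp_step (F.leaf 0 i (F.nil mid)) (mid := mid)
      (fun j hj => by simp [hj]) (fun j hj => by rw [if_neg (by omega)]) ih hab
  | @node k s m mid u w lo h1 h2 _ _ ih =>
    exact fun a b hab => sp_step (F.node 0 h1 h2 (F.nil mid)) (mid := mid)
      (fun j hj => by simp [hj]) (fun j hj => by rw [if_neg (by omega)]) ih hab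

/-- the upper estimate of the Tsirelson norm -/
lemma N_le_of {y : V 𝕜} {K : ℝ} (h1 : ∀ i, ‖y i‖ ≤ K)
    (h2 : ∀ k s b v, k ≤ s → Sp y k s b v → th * v ≤ K) : N y ≤ K := by
  refine N_le fun t ht => ?_
  generalize e1 : 1 = o at ht
  cases ht with
  | nil => omega
  | @leaf m' mid w' _ i h3 =>
    obtain rfl : m' = 0 := by omega
    cases h3
    refine le_trans ?_ (h1 i)
    rw [← ev_single]
    refine ev_le fun j => mul_le_mul_of_nonneg_right ?_ (norm_nonneg _)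
    split_ifs <;> simp
  | @node k s m' mid u w' _ h3 h4 h5 =>
    obtain rfl : m' = 0 := by omega
    cases h5
    obtain ⟨b, hb⟩ := exists_in y
    refine le_trans ?_ (h2 k s (max s b) _ h4 (h3.sp y _ _ (le_max_left _ _)))
    rw [← ev_mul]
    refine ev_le fun j => ?_
    have e2 := mul_nonneg (mul_nonneg th_pos.le (h3.bound j).1) (norm_nonneg (y j))
    rw [res_apply]
    by_cases e : y j = 0
    · simp [e]
    have := (hb j e).2
    split_ifs <;> first | omega | simp [e2]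


lemma Sp.group {y : V 𝕜} (r : ℕ) : ∀ {m a b k : ℕ} {v : ℝ}, Sp y m a b v → k ≤ a →
    m + k ≤ 2 ^ r * k → Sp y r a b (th * v) := by
  induction r with
  | zero =>
    intro m a b k v h _ h2
    obtain rfl : m = 0 := by omega
    cases h with
    | nil h3 h4 => exact Sp.nil h3 (mul_nonpos_of_nonneg_of_nonpos th_pos.le h4)
  | succ r ih =>
    intro m a b k v h h1 h2
    obtain ⟨c, v₁, v₂, e1, e2, e3, e4⟩ := h.split k
    have e5 := e1.adm h1
    have e6 := mul_le_mul_of_nonneg_left e3 th_pos.le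
    refine Sp.cons e1.le (v := th * v₂) ?_ (by linarith)
    rcases e4 with e4 | e4
    · refine ih (k := 2 * k) e2 (by omega) ?_
      have e7 : 2 ^ r * (2 * k) = 2 ^ (r + 1) * k := by ring
      have e8 : 1 * (2 * k) ≤ 2 ^ r * (2 * k) := Nat.mul_le_mul_right _ Nat.one_le_two_pow
      omega
    · exact Sp.zero _ e2.le (mul_nonpos_of_nonneg_of_nonpos th_pos.le e4)

lemma exists_slot (P : ℕ → ℕ) {s t x : ℕ} (hst : s ≤ t) (h1 : P s ≤ x) (h2 : x < P t) :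
    ∃ σ, s ≤ σ ∧ σ + 1 ≤ t ∧ P σ ≤ x ∧ x < P (σ + 1) := by
  induction hst with
  | refl => omega
  | @step t hst ih =>
    by_cases e : x < P t
    · obtain ⟨σ, a, b, c⟩ := ih e
      exact ⟨σ, a, Nat.le_succ_of_le b, c⟩
    · exact ⟨t, hst, le_rfl, by omega, h2⟩

section cjt

variable {P : ℕ → ℕ} {y y' : V 𝕜}

lemma tree_bound (hP : Monotone P)
    (hy : ∀ σ, n y' (P σ) (P (σ + 1)) ≤ n y (P σ) (P (σ + 1))) {τ : ℕ → ℝ} (ht : F 1 0 τ) {s₀ : ℕ}
    (h0 : ∀ j < s₀, τ j ≤ 0)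
    (h1 : ∀ s t, s ≤ t → s₀ < P s → Sp y 3 (P s) (P t) (th * ev τ (res (P s) (P t) y')))
    {s t : ℕ} (hst : s ≤ t) : Sp y 4 (P s) (P t) (th * ev τ (res (P s) (P t) y')) := by
  have key : ∀ a b, b ≤ s₀ → ev τ (res a b y') ≤ 0 := fun a b hb =>
    (ev_res_le (w' := fun _ => 0) y' fun j _ _ => h0 j (by omega)).trans
      (ev_nonpos fun i => by simp)
  by_cases c1 : s₀ < P s
  · exact (h1 s t hst c1).succ
  by_cases c2 : P t ≤ s₀
  · exact Sp.zero _ (hP hst) (mul_nonpos_of_nonneg_of_nonpos th_pos.le (key _ _ c2))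
  obtain ⟨σ, a, b, c, d⟩ := exists_slot P hst (not_lt.1 c1) (not_le.1 c2)
  have e1 := ev_split τ y' (hP (a.trans σ.le_succ)) (hP b)
  have e2 := ev_split τ y' (hP a) (hP σ.le_succ)
  have e3 := key (P s) _ c
  have e4 : ev τ (res (P σ) (P (σ + 1)) y') ≤ n y' (P σ) (P (σ + 1)) := ev_le_N ht _
  have e5 := n_mono y (hP a) (le_refl (P (σ + 1)))
  have e6 := hy σ
  have e7 := n_nonneg y (P s) (P (σ + 1))
  refine Sp.cons (hP (a.trans σ.le_succ)) (h1 _ _ b d) ?_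
  have e8 : th * ev τ (res (P s) (P (σ + 1)) y') ≤ th * n y (P s) (P (σ + 1)) :=
    mul_le_mul_of_nonneg_left (by linarith) th_pos.le
  have e9 := mul_le_mul_of_nonneg_right th_le e7
  have e10 := mul_le_mul_of_nonneg_left e1 th_pos.le
  linarith

lemma forest_step (hP : Monotone P)
    (hy : ∀ σ, n y' (P σ) (P (σ + 1)) ≤ n y (P σ) (P (σ + 1))) {τ w u : ℕ → ℝ} {m lo mid : ℕ}
    (hu : F (m + 1) lo u) (h1 : ∀ j < mid, u j ≤ τ j) (h2 : ∀ j, mid ≤ j → u j ≤ w j)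
    (hτ : ∀ s t, s ≤ t → Sp y 4 (P s) (P t) (th * ev τ (res (P s) (P t) y')))
    (ih : ∀ s t, s ≤ t → m ≤ P s → Sp y (5 * m) (P s) (P t) (th * ev w (res (P s) (P t) y')))
    {s t : ℕ} (hst : s ≤ t) (hm : m + 1 ≤ P s) :
    Sp y (5 * (m + 1)) (P s) (P t) (th * ev u (res (P s) (P t) y')) := by
  have k1 : ∀ a b, b ≤ mid → th * ev u (res a b y') ≤ th * ev τ (res a b y') := fun a b hb =>
    mul_le_mul_of_nonneg_left (ev_res_le y' fun j _ _ => h1 j (by omega)) th_pos.le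
  have k2 : ∀ a b, mid ≤ a → th * ev u (res a b y') ≤ th * ev w (res a b y') := fun a b hb =>
    mul_le_mul_of_nonneg_left (ev_res_le y' fun j _ _ => h2 j (by omega)) th_pos.le
  by_cases c1 : mid < P s
  · exact ((ih s t hst (by omega)).down (k2 _ _ c1.le)).pad (by omega)
  by_cases c2 : P t ≤ mid
  · exact ((hτ s t hst).down (k1 _ _ c2)).pad (by omega)
  obtain ⟨σ, a, b, c, d⟩ := exists_slot P hst (not_lt.1 c1) (not_le.1 c2)
  have e0 := hP a
  have e1 := mul_le_mul_of_nonneg_left (ev_split u y' (hP (a.trans σ.le_succ)) (hP b)) th_pos.le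
  have e2 := mul_le_mul_of_nonneg_left (ev_split u y' e0 (hP σ.le_succ)) th_pos.le
  have e3 := ((hu.sp y' _ _ (hP σ.le_succ)).adm (by omega)).trans (hy σ)
  have e4 := (((hτ s σ a).down (k1 _ _ c)).append (Sp.one (hP σ.le_succ) e3)).append
    ((ih _ t b (by omega)).down (k2 _ _ d.le))
  exact (e4.down (by linarith)).pad (by omega)

lemma F.cjt (hP : Monotone P) (hy : ∀ σ, n y' (P σ) (P (σ + 1)) ≤ n y (P σ) (P (σ + 1)))
    {m lo : ℕ} {w : ℕ → ℝ} (h : F m lo w) :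
    ∀ s t, s ≤ t → m ≤ P s → Sp y (5 * m) (P s) (P t) (th * ev w (res (P s) (P t) y')) := by
  induction h with
  | nil =>
    exact fun s t hst _ => Sp.nil (hP hst)
      (mul_nonpos_of_nonneg_of_nonpos th_pos.le (ev_nonpos fun i => by simp))
  | @leaf m mid w lo i h1 ih =>
    refine fun s t hst hm => forest_step hP hy (F.leaf lo i h1) (mid := mid)
      (τ := fun j => if j < mid then (if j = i then 1 else 0) else 0)
      (fun j hj => by simp [hj]) (fun j hj => by rw [if_neg (by omega)])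
      (fun s t hst => tree_bound hP hy (F.leaf 0 i (F.nil mid)) (s₀ := i) (fun j hj => ?_)
        (fun s t hst h => Sp.zero _ (hP hst) (mul_nonpos_of_nonneg_of_nonpos th_pos.le ?_)) hst)
      ih hst hm
    · split_ifs <;> first | omega | simp
    · refine (ev_res_le (w' := fun _ => 0) y' fun j _ _ => ?_).trans (ev_nonpos fun i => by simp)
      split_ifs <;> first | omega | simp
  | @node k s₀ m mid u w lo h1 h2 h3 ih1 ih =>
    refine fun s t hst hm => forest_step hP hy (F.node lo h1 h2 h3) (mid := mid)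
      (τ := fun j => if j < mid then (if s₀ ≤ j then th * u j else 0) else 0)
      (fun j hj => by simp [hj]) (fun j hj => by rw [if_neg (by omega)])
      (fun s t hst => tree_bound hP hy (F.node 0 h1 h2 (F.nil mid)) (s₀ := s₀) (fun j hj => ?_)
        (fun s t hst h => ?_) hst) ih hst hm
    · split_ifs <;> first | omega | simp
    · refine (Sp.group 3 (ih1 s t hst (by omega)) (k := k) (by omega) (by omega)).down
        (mul_le_mul_of_nonneg_left ?_ th_pos.le)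
      rw [← ev_mul]
      refine ev_res_le y' fun j _ _ => ?_
      have := mul_nonneg th_pos.le (h1.bound j).1
      split_ifs <;> simp [this]

/-- the blocking principle for the Tsirelson norm -/
lemma cjt_T (hP : Monotone P) (h5 : 5 ≤ P 0)
    (hy : ∀ σ, n y' (P σ) (P (σ + 1)) ≤ n y (P σ) (P (σ + 1))) {t : ℕ} (h : In (P 0) (P t) y') :
    th ^ 2 * N y' ≤ N y := by
  have h2 : 0 < th ^ 2 := pow_pos th_pos 2
  rw [mul_comm, ← le_div_iff₀ h2]
  refine N_le fun w hw => ?_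
  have e1 := (hw.cjt hP hy 0 t t.zero_le (by omega)).adm (by omega)
  rw [h.res_eq le_rfl le_rfl] at e1
  rw [le_div_iff₀ h2]
  have := n_le y (P 0) (P t)
  nlinarith

end cjt

/-- the pairing of absolute values -/
noncomputable def pr (x y : V 𝕜) : ℝ := ev (fun i => ‖x i‖) y

/-- the dual norm -/
noncomputable def nx (x : V 𝕜) : ℝ := sSup {v | ∃ y : V 𝕜, N y ≤ 1 ∧ v = pr x y}

lemma pr_nonneg (x y : V 𝕜) : 0 ≤ pr x y := ev_nonneg (fun _ => norm_nonneg _) y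

lemma pr_comm (x y : V 𝕜) : pr x y = pr y x :=
  le_antisymm (ev_le fun _ => (mul_comm _ _).le) (ev_le fun _ => (mul_comm _ _).le)

lemma pr_le_l1 (x : V 𝕜) {y : V 𝕜} (h : N y ≤ 1) : pr x y ≤ ev (fun _ => 1) x := by
  rw [pr_comm]
  exact ev_le fun i => mul_le_mul_of_nonneg_right ((abs_le_N y i).trans h) (norm_nonneg _)

lemma bdd_nx (x : V 𝕜) : BddAbove {v | ∃ y : V 𝕜, N y ≤ 1 ∧ v = pr x y} :=
  ⟨_, by rintro _ ⟨y, hy, rfl⟩; exact pr_le_l1 x hy⟩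

lemma ne_nx (x : V 𝕜) : {v | ∃ y : V 𝕜, N y ≤ 1 ∧ v = pr x y}.Nonempty :=
  ⟨_, 0, by simp [N_zero], rfl⟩

lemma pr_le_nx (x : V 𝕜) {y : V 𝕜} (h : N y ≤ 1) : pr x y ≤ nx x := le_csSup (bdd_nx x) ⟨y, h, rfl⟩

lemma nx_le {x : V 𝕜} {K : ℝ} (h : ∀ y, N y ≤ 1 → pr x y ≤ K) : nx x ≤ K :=
  csSup_le (ne_nx x) (by rintro _ ⟨y, hy, rfl⟩; exact h y hy)

lemma nx_nonneg (x : V 𝕜) : 0 ≤ nx x :=
  (pr_nonneg x 0).trans (pr_le_nx x (by simp [N_zero]))

lemma nx_mono {x x' : V 𝕜} (h : ∀ i, ‖x i‖ ≤ ‖x' i‖) : nx x ≤ nx x' :=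
  nx_le fun _ hy => (ev_le fun i => mul_le_mul_of_nonneg_right (h i) (norm_nonneg _)).trans
    (pr_le_nx x' hy)

lemma pr_add (x x' y : V 𝕜) : pr (x + x') y ≤ pr x y + pr x' y :=
  ev_le_add fun i => by
    rw [← add_mul]
    exact mul_le_mul_of_nonneg_right (norm_add_le _ _) (norm_nonneg _)

lemma pr_smul (c : 𝕜) (x y : V 𝕜) : pr (c • x) y = ‖c‖ * pr x y := by
  rw [pr_comm, pr, ev_smul, pr_comm, pr]

lemma nx_add (x x' : V 𝕜) : nx (x + x') ≤ nx x + nx x' :=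
  nx_le fun y hy => (pr_add x x' y).trans (add_le_add (pr_le_nx x hy) (pr_le_nx x' hy))

lemma nx_smul_le (c : 𝕜) (x : V 𝕜) : nx (c • x) ≤ ‖c‖ * nx x :=
  nx_le fun y hy => by
    rw [pr_smul]
    exact mul_le_mul_of_nonneg_left (pr_le_nx x hy) (norm_nonneg _)

lemma nx_zero : nx (0 : V 𝕜) = 0 :=
  le_antisymm (by simpa using nx_smul_le (0 : 𝕜) 0) (nx_nonneg _)

lemma nx_smul (c : 𝕜) (x : V 𝕜) : nx (c • x) = ‖c‖ * nx x := by
  refine le_antisymm (nx_smul_le c x) ?_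
  by_cases hc : c = 0
  · simp [hc, nx_zero]
  have h := nx_smul_le c⁻¹ (c • x)
  rw [inv_smul_smul₀ hc, norm_inv, ← div_eq_inv_mul, le_div_iff₀ (norm_pos_iff.2 hc)] at h
  linarith

lemma abs_le_nx (x : V 𝕜) (i : ℕ) : ‖x i‖ ≤ nx x := by
  refine le_trans ?_ (pr_le_nx x (N_single i))
  rw [pr, ev_eq _ (s := {i}) Finsupp.support_single_subset]
  simp

lemma nx_pos {x : V 𝕜} (h : x ≠ 0) : 0 < nx x := by
  obtain ⟨i, hi⟩ := Finsupp.ne_iff.1 h
  exact (norm_pos_iff.2 hi).trans_le (abs_le_nx x i)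

lemma nr {r : ℝ} (h : 0 ≤ r) : ‖(r : 𝕜)‖ = r := RCLike.norm_of_nonneg h

lemma pr_le (x y : V 𝕜) : pr x y ≤ nx x * N y := by
  rcases (N_nonneg y).eq_or_lt with e | e
  · refine le_trans (ev_nonpos fun i => ?_) (mul_nonneg (nx_nonneg x) (N_nonneg y))
    have := abs_le_N y i
    exact mul_nonpos_of_nonneg_of_nonpos (norm_nonneg _) (by linarith)
  · have h1 : N ((((N y)⁻¹ : ℝ) : 𝕜) • y) ≤ 1 := by
      refine (N_smul _ _).trans ?_
      rw [nr (inv_pos.2 e).le, inv_mul_cancel₀ e.ne']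
    have h2 := pr_le_nx x h1
    rw [pr, ev_smul, nr (inv_pos.2 e).le, ← div_eq_inv_mul, div_le_iff₀ e] at h2
    exact h2

lemma In.pr_res {a b : ℕ} {x : V 𝕜} (h : In a b x) (y : V 𝕜) : pr x y = pr x (res a b y) := by
  refine le_antisymm (ev_le fun i => ?_)
    (ev_le fun i => mul_le_mul_of_nonneg_left (abs_res_le _ _ _ _) (norm_nonneg _))
  by_cases e : x i = 0
  · simp [e]
  · rw [res_apply, if_pos (h i e)]

/-- nearly norming vectors -/
lemma In.exists_norming {a b : ℕ} {x : V 𝕜} (h : In a b x) {r ε : ℝ} (hr : 0 ≤ r) (hε : 0 < ε) :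
    ∃ y, In a b y ∧ N y ≤ r ∧ nx x * r ≤ pr x y + ε := by
  obtain ⟨_, ⟨y, e1, rfl⟩, e2⟩ := exists_lt_of_lt_csSup (ne_nx x)
    (sub_lt_self (nx x) (div_pos hε (by linarith : 0 < r + 1)))
  refine ⟨(r : 𝕜) • res a b y, (in_res a b y).smul _, (N_smul _ _).trans ?_, ?_⟩
  · rw [nr hr]
    exact mul_le_of_le_one_right hr ((n_le y a b).trans e1)
  · rw [pr, ev_smul, nr hr, ← pr, ← h.pr_res]
    have e3 : r * (ε / (r + 1)) ≤ ε := by
      rw [mul_div_assoc', div_le_iff₀ (by linarith)]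
      nlinarith
    nlinarith

/-- sums of `m` successive vectors of norm at most one -/
def Bd (m a b : ℕ) (x : V 𝕜) : Prop := In a b x ∧ ∀ y, Sp y m a b (pr x y)

lemma bd_zero (a : ℕ) : Bd 0 a a (0 : V 𝕜) :=
  ⟨in_zero _ _, fun y => Sp.nil le_rfl (ev_nonpos fun i => by simp)⟩

lemma bd_one {a b : ℕ} {x : V 𝕜} (hab : a ≤ b) (h : In a b x) (h1 : nx x ≤ 1) : Bd 1 a b x :=
  ⟨h, fun y => Sp.one hab (by
    rw [h.pr_res]
    exact (pr_le _ _).trans (mul_le_of_le_one_left (N_nonneg _) h1))⟩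

lemma Bd.le {m a b : ℕ} {x : V 𝕜} (h : Bd m a b x) : a ≤ b := (h.2 0).le

lemma Bd.append {m m' a b c : ℕ} {x x' : V 𝕜} (h : Bd m a b x) (h' : Bd m' b c x') :
    Bd (m + m') a c (x + x') :=
  ⟨(h.1.mono le_rfl h'.le).add (h'.1.mono h.le le_rfl),
    fun y => ((h.2 y).append (h'.2 y)).down (pr_add _ _ _)⟩

lemma Bd.adm {m a b : ℕ} {x : V 𝕜} (h : Bd m a b x) (hm : m ≤ a) : th * nx x ≤ 1 := by
  rw [mul_comm, ← le_div_iff₀ th_pos]
  refine nx_le fun y hy => ?_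
  rw [le_div_iff₀ th_pos, mul_comm]
  exact ((h.2 y).adm hm).trans ((n_le _ _ _).trans hy)

/-- the blocking principle for the dual norm -/
lemma cjt_X {P : ℕ → ℕ} (hP : Monotone P) (h5 : 5 ≤ P 0) {x x' : V 𝕜} {C : ℝ} (hC : 0 ≤ C)
    (hx : ∀ σ, nx (res (P σ) (P (σ + 1)) x') ≤ C * nx (res (P σ) (P (σ + 1)) x)) {t : ℕ}
    (h : In (P 0) (P t) x') : th ^ 2 * nx x' ≤ C * nx x := by
  have h2 : 0 < th ^ 2 := pow_pos th_pos 2
  have h3 : th ^ 2 ≤ 1 := pow_le_one₀ th_pos.le th_le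
  rw [mul_comm, ← le_div_iff₀ h2]
  refine nx_le fun y hy => ?_
  have key : ∀ t, ∀ ε : ℝ, 0 < ε → ∃ y', In (P 0) (P t) y' ∧
      (∀ σ, n y' (P σ) (P (σ + 1)) ≤ n y (P σ) (P (σ + 1))) ∧
      pr x' (res (P 0) (P t) y) ≤ C * (pr x y' + ε) := by
    intro t
    induction t with
    | zero =>
      intro ε hε
      refine ⟨0, in_zero _ _, fun σ => ?_, le_trans (ev_nonpos fun i => ?_)
        (mul_nonneg hC (add_nonneg (pr_nonneg _ _) hε.le))⟩
      · rw [n, (in_zero 0 0).res_zero (Or.inl (Nat.zero_le _)), N_zero]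
        exact n_nonneg _ _ _
      · rw [res_apply, if_neg (by omega)]
        simp
    | succ t ih =>
      intro ε hε
      obtain ⟨y', e1, e2, e3⟩ := ih _ (half_pos hε)
      obtain ⟨z, f1, f2, f3⟩ := (in_res (P t) (P (t + 1)) x).exists_norming
        (n_nonneg y (P t) (P (t + 1))) (half_pos hε)
      have g1 := hP t.zero_le
      have g2 := hP t.le_succ
      refine ⟨y' + z, (e1.mono le_rfl g2).add (f1.mono g1 le_rfl), fun σ => ?_, ?_⟩
      · rw [n, res_add]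
        rcases lt_trichotomy σ t with c | rfl | c
        · rw [f1.res_zero (Or.inr (hP c)), add_zero]
          exact e2 σ
        · rw [e1.res_zero (Or.inl le_rfl), zero_add, f1.res_eq le_rfl le_rfl]
          exact f2
        · rw [f1.res_zero (Or.inl (hP c)), add_zero]
          exact e2 σ
      · have g3 := ev_split (fun i => ‖x' i‖) y g1 g2
        have g4 : pr x' (res (P t) (P (t + 1)) y) ≤
            nx (res (P t) (P (t + 1)) x') * n y (P t) (P (t + 1)) := by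
          refine le_trans ?_ (pr_le _ _)
          rw [pr_comm, (in_res _ _ _).pr_res, pr_comm]
        have g5 : pr x y' + pr (res (P t) (P (t + 1)) x) z ≤ pr x (y' + z) := by
          refine add_le_ev fun i => ?_
          by_cases c : z i = 0
          · simp [c]
          · have c1 := f1 i c
            have c2 : y' i = 0 := by_contra fun d => by have := e1 i d; omega
            simp [c2, res_apply, c1]
        have g6 := mul_le_mul_of_nonneg_right (hx t) (n_nonneg y (P t) (P (t + 1)))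
        have g7 := mul_le_mul_of_nonneg_left f3 hC
        have g8 := mul_le_mul_of_nonneg_left g5 hC
        unfold pr at *
        linarith
  rw [le_div_iff₀ h2]
  refine le_of_forall_pos_le_add fun ε hε => ?_
  obtain ⟨y', e1, e2, e3⟩ := key t (ε / (C + 1)) (by positivity)
  have e4 := (cjt_T hP h5 e2 e1).trans hy
  have e5 := pr_le x y'
  rw [← h.pr_res] at e3
  have e6 : C * (ε / (C + 1)) ≤ ε := by
    rw [mul_div_assoc', div_le_iff₀ (by linarith)]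
    nlinarith
  have e7 : th ^ 2 * pr x y' ≤ nx x := by
    have := mul_le_mul_of_nonneg_left e4 (nx_nonneg x)
    nlinarith
  have e8 := mul_le_mul_of_nonneg_left e7 hC
  have e9 := mul_le_mul_of_nonneg_left e3 h2.le
  have e10 : th ^ 2 * (C * (ε / (C + 1))) ≤ ε :=
    (mul_le_of_le_one_left (by positivity) h3).trans e6
  nlinarith


/-- vanishing below `q` -/
def Tl (q : ℕ) (v : V 𝕜) : Prop := ∀ i < q, v i = 0

/-- subspaces with nonzero vectors supported arbitrarily far out -/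
def Rich (U : Submodule 𝕜 (V 𝕜)) : Prop := ∀ q, ∃ x ∈ U, x ≠ 0 ∧ Tl q x

lemma In.tl {a b : ℕ} {x : V 𝕜} (h : In a b x) : Tl a x := fun i hi =>
  by_contra fun e => by have := h i e; omega

lemma Tl.mono {q q' : ℕ} {x : V 𝕜} (h : Tl q x) (e : q' ≤ q) : Tl q' x := fun i hi => h i (by omega)

lemma Tl.add {q : ℕ} {x y : V 𝕜} (h : Tl q x) (h' : Tl q y) : Tl q (x + y) := fun i hi => by
  simp [h i hi, h' i hi]

lemma Tl.smul {q : ℕ} {x : V 𝕜} (h : Tl q x) (c : 𝕜) : Tl q (c • x) := fun i hi => by simp [h i hi]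

lemma tl_zero (q : ℕ) : Tl q (0 : V 𝕜) := fun _ _ => rfl

lemma nx_le_left {b : ℕ} {x z : V 𝕜} (h : In 0 b x) (h' : Tl b z) : nx x ≤ nx (x + z) :=
  nx_mono fun i => by
    by_cases e : x i = 0
    · simp [e]
    · simp [h' i (h i e).2]

lemma nx_le_right {b : ℕ} {x z : V 𝕜} (h : In 0 b x) (h' : Tl b z) : nx z ≤ nx (x + z) :=
  nx_mono fun i => by
    by_cases e : x i = 0
    · simp [e]
    · simp [h' i (h i e).2]

lemma Rich.norm {U : Submodule 𝕜 (V 𝕜)} (hU : Rich U) (q : ℕ) {r : ℝ} (hr : 0 < r) :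
    ∃ x ∈ U, Tl q x ∧ nx x = r := by
  obtain ⟨x, h1, h2, h3⟩ := hU q
  have := nx_pos h2
  refine ⟨((r / nx x : ℝ) : 𝕜) • x, U.smul_mem _ h1, h3.smul _, ?_⟩
  rw [nx_smul, nr (div_pos hr this).le, div_mul_cancel₀ _ this.ne']

lemma exists_rec {σ : Type*} (I : ℕ → σ → Prop) (R : ℕ → σ → σ → Prop) {s₀ : σ} (h0 : I 0 s₀)
    (hs : ∀ k s, I k s → ∃ s', I (k + 1) s' ∧ R k s s') :
    ∃ f : ℕ → σ, f 0 = s₀ ∧ ∀ k, I k (f k) ∧ R k (f k) (f (k + 1)) := by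
  choose g h1 h2 using hs
  let f : (k : ℕ) → {s // I k s} := fun k =>
    Nat.rec ⟨s₀, h0⟩ (fun k s => ⟨g k s.1 s.2, h1 k s.1 s.2⟩) k
  exact ⟨fun k => (f k).1, rfl, fun k => ⟨(f k).2, h2 k _ (f k).2⟩⟩

lemma exists_net {η : ℝ} (hη : 0 < η) :
    ∃ T : Finset 𝕜, ∀ a : 𝕜, ‖a‖ ≤ 4 → ∃ α ∈ T, ‖a - α‖ ≤ η := by
  obtain ⟨t, -, h1, h2⟩ := (isCompact_closedBall (0 : 𝕜) 4).finite_cover_balls hη
  refine ⟨h1.toFinset, fun a ha => ?_⟩
  obtain ⟨α, e1, e2⟩ := Set.mem_iUnion₂.1 (h2 (mem_closedBall_zero_iff.2 ha))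
  exact ⟨α, h1.mem_toFinset.2 e1, (mem_ball_iff_norm.1 e2).le⟩

/-- construction of a block subspace along a finitely branching family of states -/
lemma blocks {σ : Type} {U : Submodule 𝕜 (V 𝕜)} (π : σ → V 𝕜) (G : ℕ → σ → Prop) {s₀ : σ} {b₀ : ℕ}
    (h0 : π s₀ = 0) (g0 : G b₀ s₀) {ε : ℝ} (hε : 0 < ε)
    (step : ∀ (S : Finset σ) (T : Finset 𝕜) (b : ℕ), (∀ s ∈ S, G b s) → ∃ w ∈ U, ∃ b', b ≤ b' ∧
      In b b' w ∧ 1 / 2 ≤ nx w ∧ nx w ≤ 2 ∧
      ∀ s ∈ S, ∀ α ∈ T, ∃ s', G b' s' ∧ π s' = π s + α • w) :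
    ∃ U' ≤ U, Rich U' ∧ ∀ x ∈ U', nx x ≤ 2 → ∃ b s, G b s ∧ nx (x - π s) ≤ ε := by
  classical
  obtain ⟨f, -, hf⟩ := exists_rec (σ := Finset σ × ℕ × Submodule 𝕜 (V 𝕜))
    (fun k s => k ≤ s.2.1 ∧ s.2.2 ≤ U ∧ (∀ x ∈ s.2.2, In 0 s.2.1 x) ∧ (∀ t ∈ s.1, G s.2.1 t) ∧
      ∀ x ∈ s.2.2, nx x ≤ 2 → ∃ t ∈ s.1, nx (x - π t) ≤ ε - ε / 2 ^ k)
    (fun k s s' => s.2.2 ≤ s'.2.2 ∧ ∃ w ∈ s'.2.2, w ≠ 0 ∧ Tl k w) (s₀ := ({s₀}, b₀, ⊥))
    ⟨Nat.zero_le _, bot_le, fun x hx => by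
      rw [(Submodule.mem_bot 𝕜).1 hx]; exact in_zero _ _, by simpa using g0, fun x hx _ => by
      simp [(Submodule.mem_bot 𝕜).1 hx, h0, nx_zero]⟩ (by
    rintro k ⟨S, b, W⟩ ⟨e1, e2, e3, e4, e5⟩
    obtain ⟨T, hT⟩ := exists_net (𝕜 := 𝕜) (η := ε / 2 ^ (k + 2)) (by positivity)
    obtain ⟨w, f1, b', f2, f3, f4, f5, f6⟩ := step S T b e4
    have : Nonempty σ := ⟨s₀⟩
    choose! φ f7 f8 using f6
    have w0 : w ≠ 0 := fun e => by rw [e, nx_zero] at f4; norm_num at f4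
    obtain ⟨i, hi⟩ := Finsupp.ne_iff.1 w0
    have f9 := f3 i hi
    have mem : ∀ x ∈ W ⊔ 𝕜 ∙ w, ∃ y ∈ W, ∃ a : 𝕜, x = y + a • w := fun x hx => by
      obtain ⟨y, hy, z, hz, rfl⟩ := Submodule.mem_sup.1 hx
      obtain ⟨a, rfl⟩ := Submodule.mem_span_singleton.1 hz
      exact ⟨y, hy, a, rfl⟩
    refine ⟨((S ×ˢ T).image fun p => φ p.1 p.2, b', W ⊔ 𝕜 ∙ w), ⟨by dsimp only at *; omega,
      sup_le e2 ((Submodule.span_singleton_le_iff_mem _ _).2 f1), fun x hx => ?_, fun t ht => ?_,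
      fun x hx h2 => ?_⟩, le_sup_left, w,
      Submodule.mem_sup_right (Submodule.mem_span_singleton_self w), w0, f3.tl.mono e1⟩
    · obtain ⟨y, hy, a, rfl⟩ := mem x hx
      exact ((e3 y hy).mono le_rfl f2).add ((f3.mono (Nat.zero_le _) le_rfl).smul a)
    · obtain ⟨p, hp, rfl⟩ := mem_image.1 ht
      exact f7 _ (mem_product.1 hp).1 _ (mem_product.1 hp).2
    · obtain ⟨y, hy, a, rfl⟩ := mem x hx
      obtain ⟨t, g1, g2⟩ := e5 y hy ((nx_le_left (e3 y hy) (f3.tl.smul a)).trans h2)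
      have g3 := (nx_le_right (e3 y hy) (f3.tl.smul a)).trans h2
      rw [nx_smul] at g3
      obtain ⟨α, g4, g5⟩ := hT a (by nlinarith [norm_nonneg a])
      refine ⟨φ t α, mem_image.2 ⟨(t, α), mem_product.2 ⟨g1, g4⟩, rfl⟩, ?_⟩
      have g6 : y + a • w - π (φ t α) = (y - π t) + (a - α) • w := by
        rw [f8 t g1 α g4, sub_smul]; abel
      rw [g6]
      refine (nx_add _ _).trans ?_
      rw [nx_smul]
      have g7 : ‖a - α‖ * nx w ≤ ε / 2 ^ (k + 2) * 2 :=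
        mul_le_mul g5 f5 (nx_nonneg _) (by positivity)
      have g8 : ε / 2 ^ (k + 2) * 2 = ε / 2 ^ k - ε / 2 ^ (k + 1) := by
        field_simp; ring
      linarith)
  let c : ℕ →o Submodule 𝕜 (V 𝕜) := ⟨fun k => (f k).2.2, monotone_nat_of_le_succ fun k => (hf k).2.1⟩
  refine ⟨⨆ k, c k, iSup_le fun k => (hf k).1.2.1, fun q => ?_, fun x hx h2 => ?_⟩
  · obtain ⟨w, e1, e2⟩ := (hf q).2.2
    exact ⟨w, (Submodule.mem_iSup_of_chain c w).2 ⟨q + 1, e1⟩, e2⟩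
  · obtain ⟨k, hk⟩ := (Submodule.mem_iSup_of_chain c x).1 hx
    obtain ⟨t, e1, e2⟩ := (hf k).1.2.2.2.2 x hk h2
    exact ⟨_, t, (hf k).1.2.2.2.1 t e1, e2.trans (sub_le_self _ (by positivity))⟩

section game

variable (U : Submodule 𝕜 (V 𝕜)) (ψ : Seminorm 𝕜 (V 𝕜)) (c : ℝ)

/-- winning positions, with their rank, of the player choosing tails and sizes -/
inductive Win : Ordinal.{0} → V 𝕜 → Prop
  | stop (o : Ordinal.{0}) {u : V 𝕜} : 1 < nx u → Win o u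
  | move {o : Ordinal.{0}} {u : V 𝕜} (q : ℕ) (β : ℝ) (o' : V 𝕜 → Ordinal.{0}) : 0 < β →
      (∀ v ∈ U, Tl q v → nx v ≤ β → ψ (u + v) < c) → (∀ v, o' v < o) →
      (∀ v ∈ U, Tl q v → th * β ≤ nx v → nx v ≤ β → Win (o' v) (u + v)) → Win o u

/-- positions in the middle of a move -/
def Ok (o : Ordinal.{0}) (x : V 𝕜) : Prop :=
  1 < nx x ∨ ∃ (u v₀ : V 𝕜) (q : ℕ) (β : ℝ) (o' : V 𝕜 → Ordinal.{0}), x = u + v₀ ∧ v₀ ∈ U ∧ Tl q v₀ ∧
    nx v₀ < th * β ∧ 0 < β ∧ (∀ v ∈ U, Tl q v → nx v ≤ β → ψ (u + v) < c) ∧ (∀ v, o' v < o) ∧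
    ∀ v ∈ U, Tl q v → th * β ≤ nx v → nx v ≤ β → Win U ψ c (o' v) (u + v)

variable {U ψ c}

lemma Win.ok {o : Ordinal.{0}} {u : V 𝕜} (h : Win U ψ c o u) : Ok U ψ c o u := by
  cases h with
  | stop _ h => exact Or.inl h
  | move q β o' h1 h2 h3 h4 =>
    exact Or.inr ⟨u, 0, q, β, o', (add_zero u).symm, U.zero_mem, tl_zero q,
      by rw [nx_zero]; exact mul_pos th_pos h1, h1, h2, h3, h4⟩

lemma Ok.lt {o : Ordinal.{0}} {x : V 𝕜} (h : Ok U ψ c o x) (h1 : nx x ≤ 1) : ψ x < c := by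
  rcases h with h | ⟨u, v, q, β, o', rfl, e1, e2, e3, e4, e5, -⟩
  · linarith
  · exact e5 v e1 e2 (e3.le.trans (mul_le_of_le_one_left e4.le th_le))

lemma Ok.step {o : Ordinal.{0}} {x : V 𝕜} (h : Ok U ψ c o x) : ∃ (q : ℕ) (δ τ : ℝ) (ρ : V 𝕜 → ℝ),
    0 < δ ∧ ρ 0 < τ ∧ (∀ z z', ρ (z + z') ≤ ρ z + nx z') ∧ ∀ z ∈ U, Tl q z → ρ z ≤ τ + δ →
      ∃ o' ≤ o, Ok U ψ c o' (x + z) ∧ (τ ≤ ρ z → o' < o) := by
  rcases h with h | ⟨u, v, q, β, o', rfl, e1, e2, e3, e4, e5, e6, e7⟩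
  · obtain ⟨b, hb⟩ := exists_in x
    exact ⟨b, 1, 1, fun _ => 0, one_pos, one_pos, fun z z' => by simpa using nx_nonneg z',
      fun z _ hz _ => ⟨o, le_rfl, Or.inl (h.trans_le (nx_le_left hb hz)), fun e => by linarith⟩⟩
  · refine ⟨q, β / 50, th * β, fun z => nx (v + z), by positivity, by simpa using e3,
      fun z z' => by dsimp only; rw [← add_assoc]; exact nx_add _ _, fun z hz h1 h2 => ?_⟩
    rw [add_assoc]
    by_cases e : th * β ≤ nx (v + z)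
    · exact ⟨o' (v + z), (e6 _).le, (e7 _ (U.add_mem e1 hz) (e2.add h1) e
        (h2.trans (by rw [th]; linarith))).ok, fun _ => e6 _⟩
    · exact ⟨o, le_rfl, Or.inr ⟨u, v + z, q, β, o', rfl, U.add_mem e1 hz, e2.add h1, not_le.1 e,
        e4, e5, e6, e7⟩, fun e' => (e e').elim⟩

/-- one block serving finitely many games at once -/
lemma ext_ok (hU : Rich U) {J : Type} [Finite J] (a : J → 𝕜) (Q : ℕ) (o : J → Ordinal.{0}) :
    ∀ (x : J → V 𝕜) (w₀ : V 𝕜), (∀ j, Ok U ψ c (o j) (x j)) → nx w₀ < th → ∃ w ∈ U, Tl Q w ∧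
      th ≤ nx (w₀ + w) ∧ nx (w₀ + w) ≤ 1 ∧ ∀ j, ∃ o', Ok U ψ c o' (x j + a j • w) := by
  classical
  induction o using WellFoundedLT.induction with
  | ind o ih =>
  intro x w₀ hx h0
  choose q δ τ ρ h1 h2 h3 h4 using fun j => (hx j).step
  obtain ⟨q₀, hq⟩ := Finite.exists_le q
  obtain ⟨M, hM⟩ := Finite.exists_le fun j => ‖a j‖ / δ j
  have hM' : 0 < max M 50 := lt_max_of_lt_right (by norm_num)
  obtain ⟨g, g1, g2, g3⟩ := hU.norm (max q₀ Q) (inv_pos.2 hM')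
  have ex : ∃ m : ℕ, (∃ j, τ j ≤ ρ j (a j • (m : 𝕜) • g)) ∨ th ≤ nx (w₀ + (m : 𝕜) • g) := by
    obtain ⟨m, hm⟩ := exists_nat_ge (2 * max M 50)
    refine ⟨m, Or.inr ?_⟩
    have e1 := nx_add (w₀ + (m : 𝕜) • g) ((-1 : 𝕜) • w₀)
    have e2 : w₀ + (m : 𝕜) • g + (-1 : 𝕜) • w₀ = (m : 𝕜) • g := by simp
    rw [e2, nx_smul, nx_smul, g3, RCLike.norm_natCast, norm_neg, norm_one, ← div_eq_mul_inv] at e1
    have e3 := (le_div_iff₀ hM').2 hm
    have := th_le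
    linarith
  have s1 := Nat.find_spec ex
  have s0 : Nat.find ex ≠ 0 := fun e => by
    rw [e] at s1
    rcases s1 with ⟨j, s⟩ | s
    · exact (h2 j).not_ge (by simpa using s)
    · exact h0.not_ge (by simpa using s)
  obtain ⟨m, hm⟩ := Nat.exists_eq_succ_of_ne_zero s0
  have s2 := Nat.find_min ex (m := m) (by omega)
  rw [hm] at s1
  push Not at s2
  have s3 : ((m.succ : ℕ) : 𝕜) • g = (m : 𝕜) • g + g := by simp [add_smul]
  generalize ((m.succ : ℕ) : 𝕜) • g = z at s1 s3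
  have z1 : z ∈ U := s3 ▸ U.add_mem (U.smul_mem _ g1) g1
  have z2 : Tl (max q₀ Q) z := s3 ▸ (g2.smul _).add g2
  have z3 : ∀ j, ρ j (a j • z) ≤ τ j + δ j := fun j => by
    rw [s3, smul_add]
    refine (h3 j _ _).trans (add_le_add (s2.1 j).le ?_)
    rw [nx_smul, g3, ← div_eq_mul_inv, div_le_iff₀ hM', mul_comm, ← div_le_iff₀ (h1 j)]
    exact (hM j).trans (le_max_left _ _)
  have z4 : nx (w₀ + z) ≤ 1 := by
    rw [s3, ← add_assoc]
    refine (nx_add _ _).trans ?_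
    have e1 : (max M 50)⁻¹ ≤ 50⁻¹ := inv_anti₀ (by norm_num) (le_max_right _ _)
    have e2 := s2.2
    rw [th] at e2
    linarith
  choose o' e1 e2 e3 using fun j => h4 j (a j • z) (U.smul_mem _ z1)
    ((z2.mono ((hq j).trans (le_max_left _ _))).smul _) (z3 j)
  by_cases e : th ≤ nx (w₀ + z)
  · exact ⟨z, z1, z2.mono (le_max_right _ _), e, z4, fun j => ⟨_, e2 j⟩⟩
  obtain ⟨j, hj⟩ := s1.resolve_right e
  obtain ⟨w, f1, f2, f3, f4, f5⟩ := ih o' (Pi.lt_def.2 ⟨e1, j, e3 j hj⟩) _ _ e2 (not_le.1 e)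
  refine ⟨z + w, U.add_mem z1 f1, (z2.mono (le_max_right _ _)).add f2, by rwa [← add_assoc],
    by rwa [← add_assoc], fun j => ?_⟩
  rw [smul_add, ← add_assoc]
  exact f5 j

/-- a win gives a block subspace on which the seminorm is small -/
lemma Win.small (hU : Rich U) {o : Ordinal.{0}} (h : Win U ψ c o 0) {L : ℝ} (hL0 : 0 ≤ L)
    (hL : ∀ x ∈ U, ψ x ≤ L * nx x) :
    ∃ U' ≤ U, Rich U' ∧ ∀ x ∈ U', nx x = 99 / 100 → ψ x ≤ c + L / 100 := by
  obtain ⟨U', h1, h2, h3⟩ := blocks (U := U) (σ := V 𝕜) id (fun _ x => x ∈ U ∧ ∃ o, Ok U ψ c o x)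
    (b₀ := 0) rfl ⟨U.zero_mem, o, h.ok⟩ (ε := 1 / 100) (by norm_num) (by
    intro S T b hS
    choose o ho using fun p : ↥(S ×ˢ T) => (hS _ (mem_product.1 p.2).1).2
    obtain ⟨w, e1, e2, e3, e4, e5⟩ := ext_ok hU (fun p : ↥(S ×ˢ T) => p.1.2) b o _ 0 ho
      (by rw [nx_zero]; exact th_pos)
    obtain ⟨b', f1, f2⟩ := exists_in' e2
    rw [zero_add] at e3 e4
    refine ⟨w, e1, b', f1, f2, le_trans (by norm_num [th]) e3, by linarith, fun s hs α hα =>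
      ⟨_, ⟨U.add_mem (hS s hs).1 (U.smul_mem α e1), e5 ⟨(s, α), mem_product.2 ⟨hs, hα⟩⟩⟩, rfl⟩⟩)
  refine ⟨U', h1, h2, fun x hx e => ?_⟩
  obtain ⟨-, s, ⟨e1, o, e2⟩, e3⟩ := h3 x hx (by linarith)
  have e4 := nx_add x ((-1 : 𝕜) • (x - s))
  have e5 := map_add_le_add ψ s (x - s)
  have e6 := hL _ (U.sub_mem (h1 hx) e1)
  have e7 := mul_le_mul_of_nonneg_left e3 hL0
  rw [nx_smul, norm_neg, norm_one] at e4
  simp only [neg_smul, one_smul, neg_sub, add_sub_cancel, id] at e3 e4 e5 e7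
  have := e2.lt (by linarith)
  linarith

lemma resp {u : V 𝕜} (h : ∀ o, ¬ Win U ψ c o u) (q : ℕ) {β : ℝ} (hβ : 0 < β) :
    ∃ v ∈ U, Tl q v ∧ nx v ≤ β ∧
      (c ≤ ψ (u + v) ∨ (th * β ≤ nx v ∧ ∀ o, ¬ Win U ψ c o (u + v))) := by
  by_contra e
  push Not at e
  have : ∀ v, ∃ o, v ∈ U → Tl q v → th * β ≤ nx v → nx v ≤ β → Win U ψ c o (u + v) := fun v => by
    by_cases e' : v ∈ U ∧ Tl q v ∧ th * β ≤ nx v ∧ nx v ≤ β
    · obtain ⟨o, ho⟩ := (e v e'.1 e'.2.1 e'.2.2.2).2 e'.2.2.1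
      exact ⟨o, fun _ _ _ _ => ho⟩
    · exact ⟨0, fun a b c d => (e' ⟨a, b, c, d⟩).elim⟩
  choose o' ho using this
  exact h _ (Win.move q β o' hβ (fun v a b d => (e v a b d).1) (Ordinal.lt_iSup_add_one o') ho)

end game

/-- `v` is a restriction of `z` -/
def Sub (v z : V 𝕜) : Prop := ∀ i, v i = 0 ∨ v i = z i

lemma Sub.in {a b : ℕ} {v z : V 𝕜} (h : Sub v z) (h' : In a b z) : In a b v := fun i hi =>
  h' i ((h i).resolve_left hi ▸ hi)

lemma Sub.add {b : ℕ} {u x v z : V 𝕜} (h : Sub u x) (h' : Sub v z) (hx : In 0 b x) (hz : Tl b z) :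
    Sub (u + v) (x + z) := fun i => by
  simp only [Finsupp.add_apply]
  by_cases e : x i = 0
  · have : u i = 0 := (h i).elim id fun e' => e'.trans e
    simpa [e, this] using h' i
  · have e1 := hz i (hx i e).2
    have : v i = 0 := (h' i).elim id fun e' => e'.trans e1
    simpa [e1, this] using h i

lemma Sub.smul {v z : V 𝕜} (h : Sub v z) (α : 𝕜) : Sub (α • v) (α • z) := fun i => by
  rcases h i with e | e <;> simp [e]

lemma sub_zero' (z : V 𝕜) : Sub 0 z := fun _ => Or.inl rfl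

lemma sub_refl (z : V 𝕜) : Sub z z := fun _ => Or.inr rfl

/-- a sum of successive responses -/
lemma parts {U : Submodule 𝕜 (V 𝕜)} (hU : Rich U) {ι : Type} (I : Finset ι) (R : ι → V 𝕜 → Prop)
    (h : ∀ i ∈ I, ∀ q, ∃ v ∈ U, Tl q v ∧ nx v ≤ 1 ∧ R i v) (a : ℕ) :
    ∃ b, ∃ z ∈ U, Bd (#I + 1) a b z ∧ 1 ≤ nx z ∧ ∀ i ∈ I, ∃ v ∈ U, Sub v z ∧ R i v := by
  classical
  induction I using Finset.induction_on with
  | empty =>
    obtain ⟨z, e1, e2, e3⟩ := hU.norm a one_pos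
    obtain ⟨b, e4, e5⟩ := exists_in' e2
    exact ⟨b, z, e1, bd_one e4 e5 e3.le, e3.ge, by simp⟩
  | insert j I hj ih =>
    obtain ⟨b, z, e1, e2, e3, e4⟩ := ih fun i hi => h i (mem_insert_of_mem hi)
    obtain ⟨v, f1, f2, f3, f4⟩ := h j (mem_insert_self _ _) b
    obtain ⟨b', f5, f6⟩ := exists_in' f2
    have e5 := e2.1.mono (Nat.zero_le _) le_rfl
    refine ⟨b', z + v, U.add_mem e1 f1, ?_, e3.trans (nx_le_left e5 f2), fun i hi => ?_⟩
    · rw [card_insert_of_notMem hj]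
      exact e2.append (bd_one f5 f6 f3)
    · rcases mem_insert.1 hi with rfl | hi
      · exact ⟨v, f1, by simpa using (sub_zero' z).add (sub_refl v) e5 f2, f4⟩
      · obtain ⟨v', g1, g2, g3⟩ := e4 i hi
        exact ⟨v', g1, by simpa using g2.add (sub_zero' v) e5 f2, g3⟩

/-- slotwise domination -/
def Cmp (C : ℝ) (b : ℕ) (x u : V 𝕜) : Prop := ∃ (P : ℕ → ℕ) (t : ℕ), Monotone P ∧ P 0 = 5 ∧ P t = b ∧
  In 5 b x ∧ In 5 b u ∧ ∀ σ < t, nx (res (P σ) (P (σ + 1)) x) ≤ C * nx (res (P σ) (P (σ + 1)) u)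

lemma cmp_zero (C : ℝ) : Cmp C 5 (0 : V 𝕜) 0 :=
  ⟨fun _ => 5, 0, monotone_const, rfl, rfl, in_zero _ _, in_zero _ _, fun _ h => by omega⟩

lemma Cmp.snoc {C : ℝ} {b c : ℕ} {x u z v : V 𝕜} (h : Cmp C b x u) (hb : b ≤ c) (hz : In b c z)
    (hv : In b c v) (e : nx z ≤ C * nx v) : Cmp C c (x + z) (u + v) := by
  obtain ⟨P, t, h1, h2, rfl, h4, h5, h6⟩ := h
  have h7 : 5 ≤ P t := h2 ▸ h1 t.zero_le
  refine ⟨fun σ => if σ ≤ t then P σ else c, t + 1, fun i j hij => ?_, by simpa, by simp,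
    (h4.mono le_rfl hb).add (hz.mono h7 le_rfl), (h5.mono le_rfl hb).add (hv.mono h7 le_rfl),
    fun σ hσ => ?_⟩
  · dsimp only
    split_ifs with a b
    · exact h1 hij
    · exact (h1 a).trans hb
    · omega
    · exact le_rfl
  · dsimp only
    rw [if_pos (by omega), res_add, res_add]
    split_ifs with a
    · rw [hz.res_zero (Or.inr (h1 a)), hv.res_zero (Or.inr (h1 a)), add_zero, add_zero]
      exact h6 σ a
    · obtain rfl : σ = t := by omega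
      rwa [h4.res_zero (Or.inl le_rfl), h5.res_zero (Or.inl le_rfl), zero_add, zero_add,
        hz.res_eq le_rfl le_rfl, hv.res_eq le_rfl le_rfl]

lemma Cmp.le {C : ℝ} {b : ℕ} {x u : V 𝕜} (h : Cmp C b x u) (hC : 0 ≤ C) :
    th ^ 2 * nx x ≤ C * nx u := by
  obtain ⟨P, t, h1, h2, rfl, h4, -, h6⟩ := h
  refine cjt_X h1 h2.ge hC (fun σ => ?_) (t := t) (h2 ▸ h4)
  by_cases e : σ < t
  · exact h6 σ e
  · rw [h4.res_zero (Or.inl (h1 (not_lt.1 e))), nx_zero]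
    exact mul_nonneg hC (nx_nonneg _)

/-- without a win there is a block subspace on which the seminorm is large -/
lemma large {U : Submodule 𝕜 (V 𝕜)} {ψ : Seminorm 𝕜 (V 𝕜)} {c : ℝ} (hU : Rich U)
    (h : ∀ o, ¬ Win U ψ c o 0) {L : ℝ} (hL0 : 0 ≤ L) (hL : ∀ x ∈ U, ψ x ≤ L * nx x) :
    ∃ U' ≤ U, Rich U' ∧ ∀ x ∈ U', nx x = 111 / 100 → 2 * c ≤ ψ x + L * (113 / 100) := by
  classical
  have t0 := th_pos
  obtain ⟨U', h1, h2, h3⟩ := blocks (U := U) (σ := V 𝕜 × V 𝕜) Prod.fst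
    (fun b s => s.1 ∈ U ∧ s.2 ∈ U ∧ Sub s.2 s.1 ∧ In 0 b s.1 ∧
      (c ≤ ψ s.2 ∨ ((∀ o, ¬ Win U ψ c o s.2) ∧ Cmp (1 / th ^ 2) b s.1 s.2))) (s₀ := (0, 0))
    (b₀ := 5) rfl ⟨U.zero_mem, U.zero_mem, sub_refl _, in_zero _ _, Or.inr ⟨h, cmp_zero _⟩⟩
    (ε := 1 / 100) (by norm_num) (by
    intro S T b hS
    obtain ⟨b', z, e1, e2, e3, e4⟩ := parts hU (S ×ˢ T) (fun p v => c ≤ ψ (p.1.2 + p.2 • v) ∨
      ((∀ o, ¬ Win U ψ c o (p.1.2 + p.2 • v)) ∧ (p.2 = 0 ∨ th ≤ nx v) ∧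
        Cmp (1 / th ^ 2) b p.1.1 p.1.2)) (by
      rintro ⟨s, α⟩ hp q
      rcases (hS s (mem_product.1 hp).1).2.2.2.2 with e | ⟨e, e'⟩
      · exact ⟨0, U.zero_mem, tl_zero q, by simp [nx_zero], Or.inl (by simpa using e)⟩
      by_cases hα : α = 0
      · exact ⟨0, U.zero_mem, tl_zero q, by simp [nx_zero],
          Or.inr ⟨by simpa using e, Or.inl hα, e'⟩⟩
      have a0 := norm_pos_iff.2 hα
      obtain ⟨v, f1, f2, f3, f4⟩ := resp e q a0
      refine ⟨α⁻¹ • v, U.smul_mem _ f1, f2.smul _, ?_, ?_⟩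
      · rwa [nx_smul, norm_inv, ← div_eq_inv_mul, div_le_one a0]
      · dsimp only
        rw [smul_inv_smul₀ hα]
        refine f4.imp_right fun f => ⟨f.2, Or.inr ?_, e'⟩
        rw [nx_smul, norm_inv, ← div_eq_inv_mul, le_div_iff₀ a0]
        exact f.1) (max b (#(S ×ˢ T) + 1))
    have e5 := e2.adm (le_max_right _ _)
    have e6 := e2.1.mono (le_max_left _ _) le_rfl
    have e7 := (le_max_left _ _).trans e2.le
    refine ⟨z, e1, b', e7, e6, by linarith, by rw [th] at e5; linarith, fun s hs α hα => ?_⟩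
    obtain ⟨v, f1, f2, f3⟩ := e4 (s, α) (mem_product.2 ⟨hs, hα⟩)
    obtain ⟨g1, g2, g3, g4, -⟩ := hS s hs
    refine ⟨(s.1 + α • z, s.2 + α • v), ⟨U.add_mem g1 (U.smul_mem _ e1),
      U.add_mem g2 (U.smul_mem _ f1), g3.add (f2.smul α) g4 (e6.tl.smul α),
      (g4.mono le_rfl e7).add ((e6.mono (Nat.zero_le _) le_rfl).smul α),
      f3.imp_right fun f => ⟨f.1, f.2.2.snoc e7 (e6.smul α) ((f2.in e6).smul α) ?_⟩⟩, rfl⟩
    rw [nx_smul, nx_smul]
    rcases f.2.1 with e | e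
    · simp [show α = 0 from e]
    · rw [mul_left_comm]
      refine mul_le_mul_of_nonneg_left ?_ (norm_nonneg _)
      rw [one_div, ← div_eq_inv_mul, le_div_iff₀ (by positivity)]
      nlinarith)
  refine ⟨U', h1, h2, fun x hx e => ?_⟩
  obtain ⟨b, ⟨s, u⟩, ⟨e1, e2, e3, -, e4⟩, e5⟩ := h3 x hx (by linarith)
  dsimp only at e1 e2 e3 e4 e5
  have f1 := nx_add x ((-1 : 𝕜) • (x - s))
  have f2 := nx_add s (x - s)
  have f3 := map_add_le_add ψ x ((-1 : 𝕜) • (x - s))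
  have f4 := (hL _ (U.sub_mem (h1 hx) e1)).trans (mul_le_mul_of_nonneg_left e5 hL0)
  rw [nx_smul, norm_neg, norm_one] at f1
  rw [map_smul_eq_mul, norm_neg, norm_one] at f3
  simp only [neg_smul, one_smul, neg_sub, add_sub_cancel] at f1 f2 f3
  rcases e4 with e4 | ⟨e4, e6⟩
  · have f5 := map_add_le_add ψ s ((2 : 𝕜) • u - s)
    rw [add_sub_cancel, map_smul_eq_mul, RCLike.norm_two] at f5
    have f6 : nx ((2 : 𝕜) • u - s) ≤ nx s := nx_mono fun i => by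
      rcases e3 i with e | e
      · simp [e]
      · simp [e, two_mul]
    have f7 := (hL _ (U.sub_mem (U.smul_mem 2 e2) e1)).trans
      (mul_le_mul_of_nonneg_left (f6.trans (show nx s ≤ 112 / 100 by linarith)) hL0)
    linarith
  · have f5 := e6.le (by positivity)
    have f6 : nx u ≤ 1 := not_lt.1 fun f => e4 0 (Win.stop 0 f)
    rw [th] at f5
    linarith

/-- bounded distortion -/
theorem core {U : Submodule 𝕜 (V 𝕜)} (hU : Rich U) (ψ : Seminorm 𝕜 (V 𝕜)) {C μ : ℝ} (hμ : 0 < μ)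
    (hC : ∀ x ∈ U, ψ x ≤ C * nx x) (h : ∀ U' ≤ U, Rich U' → ∃ x ∈ U', μ * nx x < ψ x) :
    ∃ U' ≤ U, Rich U' ∧ ∀ x ∈ U', μ / 2 * nx x ≤ ψ x := by
  classical
  have ex : ∃ j : ℕ, ∃ U' ≤ U, Rich U' ∧ ∀ x ∈ U', ψ x ≤ μ * (11 / 10) ^ j * nx x := by
    obtain ⟨j, hj⟩ := pow_unbounded_of_one_lt (C / μ) (by norm_num : (1 : ℝ) < 11 / 10)
    rw [div_lt_iff₀ hμ, mul_comm] at hj
    exact ⟨j, U, le_rfl, hU, fun x hx =>
      (hC x hx).trans (mul_le_mul_of_nonneg_right hj.le (nx_nonneg x))⟩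
  obtain ⟨U₁, h1, h2, h3⟩ := Nat.find_spec ex
  have s0 : Nat.find ex ≠ 0 := fun e => by
    obtain ⟨x, e1, e2⟩ := h U₁ h1 h2
    have := h3 x e1
    rw [e, pow_zero, mul_one] at this
    linarith
  obtain ⟨m, hm⟩ := Nat.exists_eq_succ_of_ne_zero s0
  have h4 := Nat.find_min ex (m := m) (by omega)
  rw [hm, pow_succ, ← mul_assoc] at h3
  have h5 : μ ≤ μ * (11 / 10) ^ m := le_mul_of_one_le_right hμ.le (one_le_pow₀ (by norm_num))
  generalize μ * (11 / 10) ^ m = l at h3 h4 h5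
  have sc : ∀ (W : Submodule 𝕜 (V 𝕜)) (r : ℝ), 0 < r → ∀ x ∈ W, x ≠ 0 → ∃ y ∈ W, nx y = r ∧
      ψ y * nx x = ψ x * r := fun W r hr x hx x0 => by
    have := nx_pos x0
    refine ⟨((r / nx x : ℝ) : 𝕜) • x, W.smul_mem _ hx, ?_, ?_⟩
    · rw [nx_smul, nr (div_pos hr this).le, div_mul_cancel₀ _ this.ne']
    · rw [map_smul_eq_mul, nr (div_pos hr this).le]
      field_simp
  by_cases w : ∃ o, Win U₁ ψ (l * (979 / 1000)) o 0
  · obtain ⟨o, w⟩ := w
    obtain ⟨U', e1, e2, e3⟩ := w.small h2 (by linarith) h3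
    refine (h4 ⟨U', e1.trans h1, e2, fun x hx => ?_⟩).elim
    by_cases x0 : x = 0
    · simp [x0, nx_zero]
    obtain ⟨y, f1, f2, f3⟩ := sc U' (99 / 100) (by norm_num) x hx x0
    have := mul_le_mul_of_nonneg_right (e3 y f1 f2) (nx_nonneg x)
    linarith
  · obtain ⟨U', e1, e2, e3⟩ := large h2 (not_exists.1 w) (by linarith) h3
    refine ⟨U', e1.trans h1, e2, fun x hx => ?_⟩
    by_cases x0 : x = 0
    · simp [x0, nx_zero]
    obtain ⟨y, f1, f2, f3⟩ := sc U' (111 / 100) (by norm_num) x hx x0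
    have f4 : μ / 2 * (111 / 100) ≤ ψ y := by linarith [e3 y f1 f2]
    have := mul_le_mul_of_nonneg_right f4 (nx_nonneg x)
    linarith


lemma res_smul (a b : ℕ) (c : 𝕜) (y : V 𝕜) : res a b (c • y) = c • res a b y := Finsupp.filter_smul

lemma Sp.add_smul {y z : V 𝕜} {c : ℝ} (hc : 0 ≤ c) {m a b : ℕ} {v : ℝ} 
    (h : Sp (y + (c : 𝕜) • z) m a b v) :
    ∃ v₁ v₂, Sp y m a b v₁ ∧ Sp z m a b v₂ ∧ v ≤ v₁ + c * v₂ := by
  induction h with
  | nil h1 h2 => exact ⟨0, 0, Sp.nil h1 le_rfl, Sp.nil h1 le_rfl, by simpa using h2⟩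
  | @cons m a d b v v' h1 _ h3 ih =>
    obtain ⟨v₁, v₂, e1, e2, e3⟩ := ih
    refine ⟨_, _, Sp.cons h1 e1 le_rfl, Sp.cons h1 e2 le_rfl, ?_⟩
    have e4 := N_add (res a d y) ((c : 𝕜) • res a d z)
    have e5 := N_smul (c : 𝕜) (res a d z)
    rw [nr hc] at e5
    rw [n, res_add, res_smul] at h3
    unfold n
    linarith

lemma Sp.le_card {y : V 𝕜} {K : ℝ} {q m a b : ℕ} {v : ℝ} (h : Sp y m a b v)
    (hy : ∀ c d, q ≤ c → n y c d ≤ K) (ha : q ≤ a) : v ≤ m * K := by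
  induction h with
  | nil _ h2 => simpa using h2
  | @cons m a c b v v' h1 _ h3 ih =>
    have := ih (ha.trans h1)
    have := hy a c ha
    push_cast
    linarith

lemma n_zero (a b : ℕ) : n (0 : V 𝕜) a b = 0 := by
  rw [n, (in_zero 0 0).res_zero (Or.inl (Nat.zero_le _)), N_zero]

lemma Sp.smul {z : V 𝕜} {c : ℝ} (hc : 0 ≤ c) {m a b : ℕ} {v : ℝ} (h : Sp ((c : 𝕜) • z) m a b v) :
    ∃ v', Sp z m a b v' ∧ v ≤ c * v' := by
  rw [← zero_add ((c : 𝕜) • z)] at h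
  obtain ⟨v₁, v₂, e1, e2, e3⟩ := h.add_smul hc
  have := e1.le_card (K := 0) (q := 0) (fun c d _ => (n_zero c d).le) (Nat.zero_le _)
  exact ⟨v₂, e2, by linarith⟩

/-- splitting estimate of a sum of `r` blocks of norm at most one -/
def D (r : ℝ) (y : V 𝕜) : Prop := ∀ k a b v, Sp y k a b v → v ≤ r + k

lemma d_zero : D 0 (0 : V 𝕜) := fun k a b v h => by
  have := h.le_card (K := 1) (q := 0) (fun c d _ => (n_zero c d).le.trans zero_le_one)
    (Nat.zero_le _)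
  linarith

lemma D.append {r : ℝ} {y z : V 𝕜} {a₀ b₀ b₁ : ℕ} (h : D r y) (hy : In a₀ b₀ y) (hz : In b₀ b₁ z)
    (h1 : N z ≤ 1) : D (r + 1) (y + z) := by
  have key : ∀ k a b v, Sp (y + z) k a b v → ∃ (j : ℕ) (v₁ : ℝ), Sp y j a b v₁ ∧
      v + j ≤ v₁ + k + 1 := by
    intro k a b v hs
    induction hs with
    | nil e1 e2 => exact ⟨0, 0, Sp.nil e1 le_rfl, by simp; linarith⟩
    | @cons m a c b v v' e1 e2 e3 ih =>
      rw [n, res_add] at e3
      by_cases e : c ≤ b₀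
      · obtain ⟨j, v₁, f1, f2⟩ := ih
        rw [hz.res_zero (Or.inr e), add_zero] at e3
        refine ⟨j + 1, _, Sp.cons e1 f1 le_rfl, ?_⟩
        unfold n
        push_cast
        linarith
      · have f1 := e2.le_card (K := 1) (q := b₀) (fun c d hc => by
          rw [n, res_add, hy.res_zero (Or.inl hc), zero_add]
          exact (n_le z c d).trans h1) (not_le.1 e).le
        have f2 := N_add (res a c y) (res a c z)
        have f3 := (n_le z a c).trans h1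
        refine ⟨1, _, Sp.one (e1.trans e2.le) (n_mono y le_rfl e2.le), ?_⟩
        unfold n at *
        push_cast
        linarith
  intro k a b v hs
  obtain ⟨j, v₁, e1, e2⟩ := key k a b v hs
  have := h j a b v₁ e1
  linarith

lemma pr_append {a b c : ℕ} {x y z w : V 𝕜} (hx : In a b x) (hy : In a b y) (hz : In b c z)
    (hw : In b c w) : pr x y + pr z w ≤ pr (x + z) (y + w) :=
  add_le_ev fun i => by
    by_cases e : i < b
    · simp [hz.tl i e, hw.tl i e]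
    · have e1 : x i = 0 := by_contra fun f => e (hx i f).2
      have e2 : y i = 0 := by_contra fun f => e (hy i f).2
      simp [e1, e2]

/-- almost isometric finite sections of `c₀` in every rich subspace -/
lemma exists_c0 {U : Submodule 𝕜 (V 𝕜)} (hU : Rich U) (M Q : ℕ) : ∃ b, ∃ x ∈ U, ∃ y, Q ≤ b ∧
    In Q b x ∧ In Q b y ∧ nx x ≤ 1 ∧ M * (999 / 1000) ≤ pr x y ∧ D M y := by
  by_contra H
  push Not at H
  have key : ∀ k : ℕ, ∀ q, Q ≤ q → ∃ b, ∃ x ∈ U, Bd (M ^ k) q b x ∧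
      (2001 / 2000 : ℝ) ^ k ≤ nx x := by
    intro k
    induction k with
    | zero =>
      intro q _
      obtain ⟨x, e1, e2, e3⟩ := hU.norm q one_pos
      obtain ⟨b, e4, e5⟩ := exists_in' e2
      exact ⟨b, x, e1, by simpa using bd_one e4 e5 e3.le, by simp [e3]⟩
    | succ k ih =>
      intro q hq
      have r1 : (1 : ℝ) ≤ (2001 / 2000) ^ k := one_le_pow₀ (by norm_num)
      have inner : ∀ j : ℕ, ∃ b, ∃ x ∈ U, ∃ y, Bd (M ^ k * j) q b x ∧ In q b y ∧ D j y ∧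
          j * ((2001 / 2000) ^ k * (2499 / 2500)) ≤ pr x y := by
        intro j
        induction j with
        | zero =>
          exact ⟨q, 0, U.zero_mem, 0, bd_zero q, in_zero _ _, by simpa using d_zero,
            by simpa using pr_nonneg 0 0⟩
        | succ j ihj =>
          obtain ⟨b, x, e1, y, e2, e3, e4, e5⟩ := ihj
          obtain ⟨b', z, f1, f2, f3⟩ := ih b (hq.trans e2.le)
          obtain ⟨w, f4, f5, f6⟩ := f2.1.exists_norming zero_le_one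
            (by norm_num : (0 : ℝ) < 1 / 2500)
          refine ⟨b', x + z, U.add_mem e1 f1, y + w, e2.append f2,
            (e3.mono le_rfl f2.le).add (f4.mono e2.le le_rfl), ?_, ?_⟩
          · push_cast
            exact e4.append e3 f4 f5
          · have := pr_append e2.1 e3 f2.1 f4
            push_cast
            linarith
      obtain ⟨b, x, e1, y, e2, e3, e4, e5⟩ := inner M
      refine ⟨b, x, e1, e2, not_lt.1 fun e => ?_⟩
      have r0 : (0 : ℝ) < (2001 / 2000) ^ (k + 1) := by positivity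
      refine H b (((((2001 / 2000 : ℝ) ^ (k + 1))⁻¹ : ℝ) : 𝕜) • x) (U.smul_mem _ e1) y (hq.trans e2.le)
        ((e2.1.mono hq le_rfl).smul _) (e3.mono hq le_rfl) ?_ ?_ e4
      · rw [nx_smul, nr (inv_pos.2 r0).le, ← div_eq_inv_mul, div_le_one r0]
        exact e.le
      · rw [pr_smul, nr (inv_pos.2 r0).le, ← div_eq_inv_mul, le_div_iff₀ r0, pow_succ]
        have : (0 : ℝ) ≤ M * (2001 / 2000) ^ k := by positivity
        linarith
  obtain ⟨k, hk⟩ := pow_unbounded_of_one_lt (2 : ℝ) (by norm_num : (1 : ℝ) < 2001 / 2000)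
  obtain ⟨b, x, -, e1, e2⟩ := key k _ (le_max_left Q (M ^ k))
  have := e1.adm (le_max_right _ _)
  rw [th] at this
  linarith

lemma D.N_le {r : ℝ} {y : V 𝕜} (h : D r y) : N y ≤ r + 1 := by
  obtain ⟨b, hb⟩ := exists_in y
  have := h 1 0 b _ (Sp.one (Nat.zero_le _) le_rfl)
  rwa [n, hb.res_eq le_rfl le_rfl, Nat.cast_one] at this

lemma N_pair {y z : V 𝕜} {a Q b M : ℕ} (hy : In a Q y) (hz : In Q b z) (h1 : N y ≤ 1) (h2 : D M z)
    (hM : 1000 * Q + 2 ≤ M) : N (y + (((M : ℝ)⁻¹ : ℝ) : 𝕜) • z) ≤ 198098 / 100000 := by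
  have m1 : (1000 * Q + 2 : ℝ) ≤ M := by exact_mod_cast hM
  have m2 : (0 : ℝ) ≤ Q := Q.cast_nonneg
  have m3 : (0 : ℝ) < M := by linarith
  have m4 := inv_pos.2 m3
  have m5 := inv_mul_cancel₀ m3.ne'
  have m6 := mul_le_mul_of_nonneg_left m1 m4.le
  have m7 := mul_nonneg m4.le m2
  generalize (M : ℝ)⁻¹ = t at *
  have e1 := h2.N_le
  refine N_le_of (fun i => ?_) fun k s c v hk h => ?_
  · by_cases e : i < Q
    · have := abs_le_N y i
      simp only [Finsupp.add_apply, Finsupp.smul_apply, hz.tl i e, smul_zero, add_zero]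
      linarith
    · have e2 : y i = 0 := by_contra fun f => e (hy i f).2
      have := mul_le_mul_of_nonneg_left ((abs_le_N z i).trans e1) m4.le
      simp only [Finsupp.add_apply, Finsupp.smul_apply, e2, smul_eq_mul, zero_add, norm_mul,
        nr m4.le]
      linarith
  · obtain ⟨v₁, v₂, f1, f2, f3⟩ := h.add_smul m4.le
    have f4 := f1.adm hk
    have f5 := mul_le_mul_of_nonneg_left f3 th_pos.le
    by_cases e : s < Q
    · have f6 := h2 _ _ _ _ f2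
      have f7 : (k : ℝ) ≤ Q := by exact_mod_cast hk.trans e.le
      have f8 := mul_le_mul_of_nonneg_left (show v₂ ≤ M + Q by linarith) m4.le
      have f9 := n_le y s c
      rw [th] at *
      linarith
    · rw [n, hy.res_zero (Or.inl (not_lt.1 e)), N_zero] at f4
      have f6 := mul_le_mul_of_nonneg_left (((f2.adm hk).trans (n_le _ _ _)).trans e1) m4.le
      linarith

/-- the unit ball of the splitting norm -/
def B2 (y : V 𝕜) : Prop := ∀ a b v, Sp y 2 a b v → v ≤ 1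

lemma B2.N_le {y : V 𝕜} (h : B2 y) : N y ≤ 1 := by
  obtain ⟨b, hb⟩ := exists_in y
  have := h 0 b _ (Sp.one (Nat.zero_le _) le_rfl).succ
  rwa [n, hb.res_eq le_rfl le_rfl] at this

lemma b2_of {y : V 𝕜} {r : ℝ} (hr : 0 < r) (h : ∀ a b v, Sp y 2 a b v → v ≤ r) : 
    B2 (((r⁻¹ : ℝ) : 𝕜) • y) :=
  fun a b v hv => by
    obtain ⟨v', e1, e2⟩ := hv.smul (inv_pos.2 hr).le
    rw [← div_eq_inv_mul] at e2
    exact e2.trans ((div_le_one hr).2 (h _ _ _ e1))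

/-- the dual of the splitting norm -/
noncomputable def nx2 (x : V 𝕜) : ℝ := sSup {v | ∃ y : V 𝕜, B2 y ∧ v = pr x y}

lemma b2_zero : B2 (0 : V 𝕜) := fun a b v h => by
  have := h.le_card (K := 0) (q := 0) (fun c d _ => (n_zero c d).le) (Nat.zero_le _)
  linarith

lemma pr_le_nx2 (x : V 𝕜) {y : V 𝕜} (h : B2 y) : pr x y ≤ nx2 x :=
  le_csSup ⟨_, by rintro _ ⟨y, hy, rfl⟩; exact pr_le_nx x hy.N_le⟩ ⟨y, h, rfl⟩

lemma nx2_le {x : V 𝕜} {K : ℝ} (h : ∀ y, B2 y → pr x y ≤ K) : nx2 x ≤ K :=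
  csSup_le ⟨_, 0, b2_zero, rfl⟩ (by rintro _ ⟨y, hy, rfl⟩; exact h y hy)

lemma le_nx2 (x : V 𝕜) {y : V 𝕜} {r : ℝ} (hr : 0 < r) (h : ∀ a b v, Sp y 2 a b v → v ≤ r) :
    pr x y ≤ r * nx2 x := by
  have := pr_le_nx2 x (b2_of hr h)
  rwa [pr, ev_smul, nr (inv_pos.2 hr).le, ← div_eq_inv_mul, div_le_iff₀' hr] at this

/-- the distorting norm -/
noncomputable def p2 : Seminorm 𝕜 (V 𝕜) := Seminorm.ofSMulLE nx2
  (le_antisymm (nx2_le fun y hy => (pr_le_nx 0 hy.N_le).trans nx_zero.le)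
    ((pr_nonneg 0 0).trans (pr_le_nx2 0 b2_zero)))
  (fun x x' => nx2_le fun y hy =>
    (pr_add x x' y).trans (add_le_add (pr_le_nx2 x hy) (pr_le_nx2 x' hy)))
  (fun c x => nx2_le fun y hy => by
    rw [pr_smul]
    exact mul_le_mul_of_nonneg_left (pr_le_nx2 x hy) (norm_nonneg _))

lemma p2_le (x : V 𝕜) : p2 x ≤ nx x := nx2_le fun _ hy => pr_le_nx x hy.N_le

lemma le_p2 (x : V 𝕜) : nx x ≤ 2 * p2 x :=
  nx_le fun y hy => le_nx2 x two_pos fun a b v h => by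
    have := h.le_card (q := 0) (fun c d _ => (n_le y c d).trans hy) (Nat.zero_le _)
    simpa using this

lemma exists_large {U : Submodule 𝕜 (V 𝕜)} (hU : Rich U) :
    ∃ x ∈ U, 0 < nx x ∧ 998 / 1000 * nx x ≤ p2 x := by
  obtain ⟨b, x, e1, y, -, -, -, e2, e3, e4⟩ := exists_c0 hU 2000 0
  have e5 : pr x y ≤ 2002 * p2 x := le_nx2 x (by norm_num) fun a b v h => by
    have := e4 _ _ _ _ h
    push_cast at this
    linarith
  have e6 := p2_le x
  push_cast at e3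
  exact ⟨x, e1, by linarith, by linarith⟩

lemma exists_small {U : Submodule 𝕜 (V 𝕜)} (hU : Rich U) :
    ∃ x ∈ U, 0 < nx x ∧ p2 x ≤ 9915 / 10000 * nx x := by
  obtain ⟨x, e1, e2, e3⟩ := hU.norm 0 one_pos
  obtain ⟨Q, e4⟩ := exists_in x
  obtain ⟨y, e5, e6, e7⟩ := e4.exists_norming zero_le_one (by norm_num : (0 : ℝ) < 1 / 1000)
  obtain ⟨b, z, f1, w, f2, f3, f4, f5, f6, f7⟩ := exists_c0 hU (1000 * Q + 2) Q
  have g1 := N_pair e5 f4 e6 f7 le_rfl
  have hM : 0 < 1000 * Q + 2 := by omega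
  generalize 1000 * Q + 2 = M at *
  have m3 : (0 : ℝ) < M := by exact_mod_cast hM
  have g2 := pr_append e4 e5 f3 (f4.smul (((M : ℝ)⁻¹ : ℝ) : 𝕜))
  have g3 : 999 / 1000 ≤ pr z ((((M : ℝ)⁻¹ : ℝ) : 𝕜) • w) := by
    rwa [pr, ev_smul, nr (inv_pos.2 m3).le, ← div_eq_inv_mul, le_div_iff₀' m3]
  have g4 := (pr_le _ _).trans (mul_le_mul_of_nonneg_left g1 (nx_nonneg (x + z)))
  have g5 : p2 (x + z) ≤ 1 := nx2_le fun y hy =>
    hy _ _ _ (((bd_one Q.zero_le e4 e3.le).append (bd_one f2 f3 f5)).2 y)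
  exact ⟨x + z, U.add_mem e1 f1, by linarith, by linarith⟩


lemma exists_compl {E : Type} [AddCommGroup E] [Module 𝕜 E] (q : Seminorm 𝕜 E) :
    ∃ (X : Type) (_ : NormedAddCommGroup X) (_ : NormedSpace 𝕜 X) (_ : CompleteSpace X)
      (ι : E →ₗ[𝕜] X), DenseRange ι ∧ ∀ x, ‖ι x‖ = q x := by
  let _ : SeminormedAddCommGroup E := q.toAddGroupSeminorm.toSeminormedAddCommGroup
  let _ : NormedSpace 𝕜 E := ⟨fun c x => (map_smul_eq_mul q c x).le⟩
  exact ⟨UniformSpace.Completion E, inferInstance, inferInstance, inferInstance,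
    UniformSpace.Completion.toComplₗᵢ.toLinearMap, UniformSpace.Completion.denseRange_coe,
    fun x => UniformSpace.Completion.norm_coe x⟩

lemma Rich.inf {U : Submodule 𝕜 (V 𝕜)} (hU : Rich U) : ¬ FiniteDimensional 𝕜 U := fun h => by
  obtain ⟨s, rfl⟩ := (Submodule.fg_iff_finiteDimensional U).2 h
  choose b hb using fun x : s => exists_in x.1
  obtain ⟨q, hq⟩ := Finite.exists_le b
  obtain ⟨x, h1, h2, h3⟩ := hU q
  have : In 0 q x := Submodule.span_induction (fun y hy => (hb ⟨y, hy⟩).mono le_rfl (hq _))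
    (in_zero _ _) (fun _ _ _ _ => In.add) (fun a _ _ e => e.smul a) h1
  obtain ⟨i, hi⟩ := Finsupp.ne_iff.1 h2
  exact hi (h3 i (this i hi).2)

section ban

variable {X : Type} [NormedAddCommGroup X] [NormedSpace 𝕜 X] {ι : V 𝕜 →ₗ[𝕜] X}

lemma exists_tail (hd : DenseRange ι) (hn : ∀ x, ‖ι x‖ = nx x) {Y : Submodule 𝕜 X}
    (hY : ¬ FiniteDimensional 𝕜 Y) (q : ℕ) {δ : ℝ} (hδ : 0 < δ) (hδ' : δ ≤ 1 / 2) :
    ∃ (y : Y) (g : V 𝕜), Tl q g ∧ 1 / 2 ≤ nx g ∧ ‖y.1 - ι g‖ ≤ δ := by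
  let π : V 𝕜 →ₗ[𝕜] (Fin q → 𝕜) := LinearMap.pi fun i => Finsupp.lapply i.1
  have hπ : ∀ x, ‖π x‖ ≤ 1 * ‖ι x‖ := fun x => by
    rw [one_mul, hn]
    exact (pi_norm_le_iff_of_nonneg (nx_nonneg x)).2 fun i => abs_le_nx x i
  obtain ⟨y, h1, h2⟩ : ∃ y : Y, ‖y‖ = 1 ∧ π.extendOfNorm ι y.1 = 0 := by
    by_contra e
    push Not at e
    refine hY (FiniteDimensional.of_injective ((π.extendOfNorm ι).toLinearMap ∘ₗ Y.subtype)
      ((injective_iff_map_eq_zero _).2 fun y hy => by_contra fun y0 => ?_))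
    refine e (((‖y‖⁻¹ : ℝ) : 𝕜) • y) ?_ ?_
    · rw [norm_smul, nr (by positivity), inv_mul_cancel₀ (norm_ne_zero_iff.2 y0)]
    · rw [Submodule.coe_smul, map_smul, show π.extendOfNorm ι y.1 = 0 from hy, smul_zero]
  have hη : 0 < δ / (q + 1) := by positivity
  obtain ⟨x, hx⟩ := hd.exists_dist_lt y.1 hη
  rw [dist_eq_norm] at hx
  have h3 := LinearMap.norm_extendOfNorm_apply_le hd 1 hπ (y.1 - ι x)
  rw [map_sub, h2, LinearMap.extendOfNorm_eq hd ⟨1, hπ⟩, zero_sub, norm_neg, one_mul] at h3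
  have h4 : nx (res 0 q x) ≤ q * (δ / (q + 1)) := nx_le fun z hz => (pr_le_l1 _ hz).trans (by
    rw [ev_eq _ (s := range q) fun i hi =>
      mem_range.2 (in_res 0 q x i (Finsupp.mem_support_iff.1 hi)).2]
    refine (sum_le_card_nsmul _ _ (δ / (q + 1)) fun i hi => ?_).trans (by simp)
    rw [one_mul]
    exact (abs_res_le _ _ _ _).trans
      ((norm_le_pi_norm (π x) ⟨i, mem_range.1 hi⟩).trans (h3.trans hx.le)))
  have h5 : ‖y.1 - ι (x - res 0 q x)‖ ≤ δ := by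
    rw [map_sub, ← sub_add]
    refine (norm_add_le _ _).trans ?_
    have : δ / (q + 1) + q * (δ / (q + 1)) = δ := by field_simp; ring
    rw [hn]
    linarith
  refine ⟨y, x - res 0 q x, fun i hi => by simp [res_apply, hi], ?_, h5⟩
  have h6 := norm_add_le (y.1 - ι (x - res 0 q x)) (ι (x - res 0 q x))
  rw [sub_add_cancel, hn, show ‖y.1‖ = 1 from h1] at h6
  linarith

/-- the gliding hump -/
lemma hump (hd : DenseRange ι) (hn : ∀ x, ‖ι x‖ = nx x) {Y : Submodule 𝕜 X}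
    (hY : ¬ FiniteDimensional 𝕜 Y) {ε : ℝ} (hε : 0 < ε) (hε' : ε ≤ 1) :
    ∃ (U : Submodule 𝕜 (V 𝕜)) (S : V 𝕜 →ₗ[𝕜] Y), Rich U ∧
      ∀ x ∈ U, ‖(S x).1 - ι x‖ ≤ ε * nx x := by
  obtain ⟨f, -, hf⟩ := exists_rec (σ := ℕ × Submodule 𝕜 (V 𝕜 × Y))
    (fun k s => ∀ z ∈ s.2, In 0 s.1 z.1 ∧ ‖z.2.1 - ι z.1‖ ≤ (ε - ε / 2 ^ k) * nx z.1)
    (fun k s s' => s.2 ≤ s'.2 ∧ ∃ z ∈ s'.2, z.1 ≠ 0 ∧ Tl k z.1) (s₀ := (0, ⊥))
    (fun z hz => by simp [(Submodule.mem_bot 𝕜).1 hz, in_zero]) (by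
    rintro k ⟨b, W⟩ h
    have e0 : ε / 2 ^ (k + 2) ≤ 1 / 2 := by
      rw [div_le_iff₀ (by positivity), pow_add]
      have : (1 : ℝ) ≤ 2 ^ k := one_le_pow₀ one_le_two
      linarith
    obtain ⟨y, g, e1, e2, e3⟩ := exists_tail hd hn hY (max b k) (by positivity) e0
    obtain ⟨b', e4, e5⟩ := exists_in' e1
    have e6 := e1.mono (le_max_left _ _)
    refine ⟨(b', W ⊔ 𝕜 ∙ (g, y)), fun z hz => ?_, le_sup_left, (g, y),
      Submodule.mem_sup_right (Submodule.mem_span_singleton_self _),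
      fun e => by rw [show g = 0 from e, nx_zero] at e2; norm_num at e2,
      e1.mono (le_max_right _ _)⟩
    obtain ⟨⟨x, u⟩, hx, z', hz', rfl⟩ := Submodule.mem_sup.1 hz
    obtain ⟨a, rfl⟩ := Submodule.mem_span_singleton.1 hz'
    obtain ⟨f1, f2⟩ := h _ hx
    dsimp only at f1 f2
    change In 0 b' (x + a • g) ∧ ‖u.1 + a • y.1 - ι (x + a • g)‖ ≤ _ * nx (x + a • g)
    refine ⟨(f1.mono le_rfl ((le_max_left _ _).trans e4)).add
      ((e5.mono (Nat.zero_le _) le_rfl).smul a), ?_⟩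
    have g1 : u.1 + a • y.1 - ι (x + a • g) = (u.1 - ι x) + a • (y.1 - ι g) := by
      rw [map_add, map_smul, smul_sub]; abel
    have g2 := nx_le_left f1 (e6.smul a)
    have g3 := nx_le_right f1 (e6.smul a)
    rw [nx_smul] at g3
    have g4 : 0 ≤ ε - ε / 2 ^ k := sub_nonneg.2 (div_le_self hε.le (one_le_pow₀ one_le_two))
    have g5 := mul_le_mul_of_nonneg_left g2 g4
    have g6 := mul_le_mul_of_nonneg_left e3 (norm_nonneg a)
    have g7 : ‖a‖ ≤ 2 * nx (x + a • g) := by nlinarith [norm_nonneg a]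
    have g8 := mul_le_mul_of_nonneg_right g7 (by positivity : 0 ≤ ε / 2 ^ (k + 2))
    have g9 : ε - ε / 2 ^ (k + 1) = ε - ε / 2 ^ k + 2 * (ε / 2 ^ (k + 2)) := by
      field_simp; ring
    rw [g1, g9]
    refine (norm_add_le _ _).trans ?_
    rw [norm_smul]
    linarith)
  let c : ℕ →o Submodule 𝕜 (V 𝕜 × Y) := ⟨fun k => (f k).2, monotone_nat_of_le_succ fun k => (hf k).2.1⟩
  have h1 : ∀ z ∈ ⨆ k, c k, ‖z.2.1 - ι z.1‖ ≤ ε * nx z.1 := fun z hz => by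
    obtain ⟨k, hk⟩ := (Submodule.mem_iSup_of_chain c z).1 hz
    exact ((hf k).1 z hk).2.trans
      (mul_le_mul_of_nonneg_right (sub_le_self _ (by positivity)) (nx_nonneg _))
  have h2 : ∀ q, ∃ z ∈ ⨆ k, c k, z.1 ≠ 0 ∧ Tl q z.1 := fun q => by
    obtain ⟨z, e1, e2⟩ := (hf q).2.2
    exact ⟨z, (Submodule.mem_iSup_of_chain c z).2 ⟨q + 1, e1⟩, e2⟩
  generalize ⨆ k, c k = W at h1 h2
  obtain ⟨g, hg⟩ := LinearMap.exists_leftInverse_of_injective (K := 𝕜) (V := W) (V' := V 𝕜)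
    (LinearMap.fst 𝕜 (V 𝕜) Y ∘ₗ W.subtype) (LinearMap.ker_eq_bot'.2 fun z hz => by
      have e1 := h1 z.1 z.2
      have e2 : z.1.1 = 0 := hz
      rw [e2, nx_zero, map_zero, sub_zero, mul_zero, norm_le_zero_iff] at e1
      exact Subtype.ext (Prod.ext e2 (Subtype.ext e1)))
  refine ⟨W.map (LinearMap.fst 𝕜 (V 𝕜) Y), LinearMap.snd 𝕜 (V 𝕜) Y ∘ₗ W.subtype ∘ₗ g,
    fun q => ?_, ?_⟩
  · obtain ⟨z, e1, e2⟩ := h2 q
    exact ⟨z.1, ⟨z, e1, rfl⟩, e2⟩
  · rintro _ ⟨z, hz, rfl⟩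
    have e1 : g z.1 = ⟨z, hz⟩ := LinearMap.congr_fun hg ⟨z, hz⟩
    change ‖(g z.1).1.2.1 - ι z.1‖ ≤ ε * nx z.1
    rw [e1]
    exact h1 z hz

lemma two_sided (hn : ∀ x, ‖ι x‖ = nx x) {y : X} {x : V 𝕜} {ε : ℝ} (h : ‖y - ι x‖ ≤ ε * nx x) :
    (1 - ε) * nx x ≤ ‖y‖ ∧ ‖y‖ ≤ (1 + ε) * nx x := by
  have := abs_le.1 ((abs_norm_sub_norm_le y (ι x)).trans h)
  rw [hn] at this
  constructor <;> linarith

theorem no_abs (hd : DenseRange ι) (hn : ∀ x, ‖ι x‖ = nx x) {Y : Submodule 𝕜 X}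
    (hY : ¬ FiniteDimensional 𝕜 Y) (A : ℕ → Set Y) (B : ℕ → Set (StrongDual 𝕜 Y)) (δ : ℕ → ℝ)
    (h1 : ∀ n, ∀ x ∈ A n, ‖x‖ = 1) (h2 : ∀ n, ∀ f ∈ B n, ‖f‖ ≤ 1)
    (h3 : ∀ n, ∀ Z : Submodule 𝕜 Y, IsClosed (Z : Set Y) → ¬ FiniteDimensional 𝕜 Z →
      ∃ x ∈ A n, x ∈ Z)
    (h4 : ∀ n, ∀ x ∈ A n, ∃ f ∈ B n, 1 / 2 ≤ ‖f x‖) (h5 : Tendsto δ atTop (𝓝 0))
    (h6 : ∀ n m, n ≠ m → ∀ x ∈ A n, ∀ f ∈ B m, ‖f x‖ ≤ δ (min n m)) : False := by
  obtain ⟨U, S, hU, hS⟩ := hump hd hn hY (ε := 1 / 100) (by norm_num) (by norm_num)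
  have hS' : ∀ x ∈ U, (1 - 1 / 100) * nx x ≤ ‖S x‖ ∧ ‖S x‖ ≤ (1 + 1 / 100) * nx x :=
    fun x hx => two_sided hn (hS x hx)
  have key : ∀ n, ∀ U' ≤ U, Rich U' → ∃ a ∈ A n, ∃ x ∈ U', ‖a - S x‖ < 1 / 100 := by
    intro n U' e1 e2
    obtain ⟨a, e3, e4⟩ := h3 n (U'.map S).topologicalClosure
      (Submodule.isClosed_topologicalClosure _) fun _ => e2.inf (FiniteDimensional.of_injective
        ((S ∘ₗ U'.subtype).codRestrict (U'.map S).topologicalClosure fun x =>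
          (U'.map S).le_topologicalClosure ⟨x.1, x.2, rfl⟩)
        ((injective_iff_map_eq_zero _).2 fun x hx => by
          have e5 : S x.1 = 0 := congrArg Subtype.val hx
          have e6 := (hS' x.1 (e1 x.2)).1
          rw [e5, norm_zero] at e6
          exact Subtype.ext (by_contra fun e => by linarith [nx_pos e])))
    obtain ⟨_, ⟨x, e5, rfl⟩, e6⟩ := Metric.mem_closure_iff.1 e4 (1 / 100) (by norm_num)
    exact ⟨a, e3, x, e5, by rwa [dist_eq_norm] at e6⟩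
  obtain ⟨n, hδ⟩ := (h5.eventually (gt_mem_nhds (by norm_num : (0 : ℝ) < 1 / 10))).exists
  have op : ∀ f ∈ B n, ∀ y, ‖f y‖ ≤ ‖y‖ := fun f hf y =>
    (f.le_opNorm y).trans (mul_le_of_le_one_left (norm_nonneg _) (h2 n f hf))
  have le : ∀ x, ∀ f ∈ B n, ‖f (S x)‖ ≤ ⨆ f : B n, ‖f.1 (S x)‖ := fun x f hf =>
    le_ciSup (f := fun f : B n => ‖f.1 (S x)‖) ⟨_, by rintro _ ⟨f, rfl⟩; exact op _ f.2 _⟩ ⟨f, hf⟩
  have nn : ∀ x, 0 ≤ ⨆ f : B n, ‖f.1 (S x)‖ := fun x => Real.iSup_nonneg fun _ => norm_nonneg _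
  let ψ : Seminorm 𝕜 (V 𝕜) := Seminorm.ofSMulLE (fun x => ⨆ f : B n, ‖f.1 (S x)‖) (by simp)
    (fun x y => Real.iSup_le (fun f => by
      rw [map_add, map_add]
      exact (norm_add_le _ _).trans (add_le_add (le x _ f.2) (le y _ f.2)))
      (add_nonneg (nn x) (nn y)))
    (fun c x => Real.iSup_le (fun f => by
      rw [map_smul, map_smul, norm_smul]
      exact mul_le_mul_of_nonneg_left (le x _ f.2) (norm_nonneg c))
      (mul_nonneg (norm_nonneg c) (nn x)))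
  obtain ⟨U', e1, e2, e3⟩ := core hU ψ (μ := 2 / 5) (C := 1 + 1 / 100) (by norm_num)
    (fun x hx => le_trans (Real.iSup_le (fun f => op _ f.2 _) (norm_nonneg _)) (hS' x hx).2)
    (fun U' e1 e2 => by
      obtain ⟨a, f1, x, f2, f3⟩ := key n U' e1 e2
      obtain ⟨f, f4, f5⟩ := h4 n a f1
      refine ⟨x, f2, lt_of_lt_of_le ?_ (le x f f4)⟩
      have f6 := norm_sub_norm_le (f a) (f (S x))
      rw [← map_sub] at f6
      have f7 := op f f4 (a - S x)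
      have f8 := abs_le.1 (abs_norm_sub_norm_le a (S x))
      have f9 := (hS' x (e1 f2)).1
      rw [h1 n a f1] at f8
      linarith)
  obtain ⟨a, f1, x, f2, f3⟩ := key (n + 1) U' e1 e2
  have f4 : ψ x ≤ 11 / 100 := Real.iSup_le (fun f => by
    have f5 := h6 (n + 1) n (by omega) a f1 f.1 f.2
    have f6 := norm_sub_norm_le (f.1 (S x)) (f.1 a)
    rw [← map_sub] at f6
    have f7 := op _ f.2 (S x - a)
    rw [norm_sub_rev] at f7
    rw [min_eq_right n.le_succ] at f5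
    linarith) (by norm_num)
  have f8 := abs_le.1 (abs_norm_sub_norm_le a (S x))
  have f9 := (hS' x (e1 f2)).2
  have := e3 x f2
  rw [h1 _ a f1] at f8
  linarith

theorem distort (hd : DenseRange ι) (hn : ∀ x, ‖ι x‖ = nx x) : ∃ p : Seminorm 𝕜 X,
    (∀ x, 1 / 2 * ‖x‖ ≤ p x ∧ p x ≤ 1 * ‖x‖) ∧ ∀ Y : Submodule 𝕜 X, ¬ FiniteDimensional 𝕜 Y →
      ¬ ∃ a : ℝ, 0 < a ∧ ∀ y ∈ Y, a * ‖y‖ ≤ p y ∧ p y ≤ 201 / 200 * a * ‖y‖ := by
  obtain ⟨Z, _, _, _, j, -, hj⟩ := exists_compl (p2 (𝕜 := 𝕜))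
  have hb : ∀ x, ‖j x‖ ≤ 1 * ‖ι x‖ := fun x => by
    rw [hj, hn, one_mul]
    exact p2_le x
  have h1 : ∀ x, ‖j.extendOfNorm ι (ι x)‖ = p2 x := fun x => by
    rw [LinearMap.extendOfNorm_eq hd ⟨1, hb⟩, hj]
  have h2 := LinearMap.norm_extendOfNorm_apply_le hd 1 hb
  generalize j.extendOfNorm ι = J at h1 h2
  refine ⟨(normSeminorm 𝕜 Z).comp J.toLinearMap, fun x => ⟨?_, h2 x⟩, fun Y hY ⟨a, ha, h⟩ => ?_⟩
  · change 1 / 2 * ‖x‖ ≤ ‖J x‖
    refine hd.induction_on x (isClosed_le (by fun_prop) (by fun_prop)) fun x => ?_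
    rw [h1, hn]
    linarith [le_p2 x]
  obtain ⟨U, S, hU, hS⟩ := hump hd hn hY (ε := 1 / 10000) (by norm_num) (by norm_num)
  have key : ∀ x ∈ U, |‖J (S x).1‖ - p2 x| ≤ 1 / 10000 * nx x := fun x hx => by
    rw [← h1]
    refine (abs_norm_sub_norm_le _ _).trans ?_
    rw [← map_sub]
    exact (h2 _).trans (by rw [one_mul]; exact hS x hx)
  obtain ⟨x, e1, e2, e3⟩ := exists_large hU
  obtain ⟨z, f1, f2, f3⟩ := exists_small hU
  have e4 : ‖J (S x).1‖ ≤ 201 / 200 * a * ‖(S x).1‖ := (h _ (S x).2).2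
  have f4 : a * ‖(S z).1‖ ≤ ‖J (S z).1‖ := (h _ (S z).2).1
  have e5 := mul_le_mul_of_nonneg_left (two_sided hn (hS x e1)).2 ha.le
  have f5 := mul_le_mul_of_nonneg_left (two_sided hn (hS z f1)).1 ha.le
  have e6 := (abs_le.1 (key x e1)).1
  have f6 := (abs_le.1 (key z f1)).2
  have e7 : 9979 / 10000 ≤ 201 / 200 * (1 + 1 / 10000) * a :=
    le_of_mul_le_mul_right (a := nx x) (by linarith) e2
  have f7 : (1 - 1 / 10000) * a ≤ 9916 / 10000 :=
    le_of_mul_le_mul_right (a := nx z) (by linarith) f2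
  linarith

lemma not_finite (hn : ∀ x, ‖ι x‖ = nx x) : ¬ FiniteDimensional 𝕜 X := fun _ =>
  Rich.inf (U := ⊤) (fun q => ⟨Finsupp.single q (1 : 𝕜), trivial, by simp, fun i hi =>
    Finsupp.single_eq_of_ne hi.ne⟩) (FiniteDimensional.of_injective (ι ∘ₗ (⊤ : Submodule 𝕜 _).subtype)
    ((injective_iff_map_eq_zero _).2 fun x hx => Subtype.ext (by_contra fun e => by
      have e1 : ι x.1 = 0 := hx
      have e2 := nx_pos e
      rw [← hn, e1, norm_zero] at e2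
      exact lt_irrefl _ e2)))

end ban

/-- the dual Tsirelson norm as a seminorm -/
noncomputable def p1 : Seminorm 𝕜 (V 𝕜) := Seminorm.ofSMulLE nx nx_zero nx_add nx_smul_le

end Pool.Agent.Lib.MP_740c08_an.Dual
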