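import Mathlib

set_option autoImplicit false

/-! Tree functionals of the Tsirelson norm, coded by their branches. -/

namespace Pool.Agent.Lib.MP_740c08_an

open Finset

/-- A forest: `s` is the set of leaves, `d m` the depth of the leaf `m`, `p m j` the starting
point of the ancestor of depth `j` of the leaf `m`. -/
structure Fo where
  s : Finset ℕ
  d : ℕ → ℕ
  p : ℕ → ℕ → ℕ
  mono : ∀ m ∈ s, ∀ j, p m j ≤ p m (j + 1)
  top : ∀ m ∈ s, ∀ j, d m ≤ j → p m j = m
  sep : ∀ m ∈ s, ∀ m' ∈ s, m < m' → ∀ j, (j < d m ∧ j < d m' ∧ p m j = p m' j) ∨ m < p m' j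
  cnt : ∀ j v, ((s.filter fun m => j < d m ∧ p m j = v).image fun m => p m (j + 1)).card ≤ v

namespace Fo
variable (G : Fo)

theorem mono' {m : ℕ} (hm : m ∈ G.s) : Monotone (G.p m) := monotone_nat_of_le_succ (G.mono m hm)

theorem le {m : ℕ} (hm : m ∈ G.s) (j : ℕ) : G.p m j ≤ m :=
  (G.mono' hm (le_max_left j (G.d m))).trans (G.top m hm _ (le_max_right _ _)).le

theorem lt_d {m j : ℕ} (hm : m ∈ G.s) (h : G.p m j < m) : j < G.d m :=
  lt_of_not_ge fun e => h.ne (G.top m hm j e)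

theorem same {m m' j : ℕ} (hm : m ∈ G.s) (hm' : m' ∈ G.s) (h : G.p m' j ≤ m) (h' : G.p m j ≤ m') :
    G.p m j = G.p m' j := by
  rcases lt_trichotomy m m' with e | rfl | e
  · exact ((G.sep m hm m' hm' e j).resolve_right (not_lt.mpr h)).2.2
  · rfl
  · exact ((G.sep m' hm' m hm e j).resolve_right (not_lt.mpr h')).2.2.symm

theorem p_mono (j : ℕ) : MonotoneOn (fun m => G.p m j) G.s := fun m hm m' hm' h => by
  rcases h.eq_or_lt with rfl | h
  · exact le_rfl
  · rcases G.sep m hm m' hm' h j with e | e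
    · exact e.2.2.le
    · exact (G.le hm j).trans e.le

theorem eq_of_leaf {m m' j : ℕ} (hm : m ∈ G.s) (hm' : m' ∈ G.s) (h : G.d m ≤ j)
    (e : G.p m j = G.p m' j) : m' = m := by
  have h1 := G.top m hm j h
  rcases lt_trichotomy m m' with e' | rfl | e'
  · rcases G.sep m hm m' hm' e' j with e'' | e'' <;> omega
  · rfl
  · have := G.le hm' j
    omega

theorem card_le {B : Finset ℕ} (hB : B ⊆ G.s) {j v : ℕ} (h : ∀ m ∈ B, j < G.d m ∧ G.p m j = v) :
    (B.image fun m => G.p m (j + 1)).card ≤ v :=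
  (card_le_card (image_subset_image fun m hm => mem_filter.mpr ⟨hB hm, h m hm⟩)).trans (G.cnt j v)

theorem card_le' {B : Finset ℕ} (hB : B ⊆ G.s) {j t : ℕ}
    (h : ∀ m ∈ B, j < G.d m ∧ G.p m j ≤ t ∧ t ≤ m) : (B.image fun m => G.p m (j + 1)).card ≤ t := by
  rcases B.eq_empty_or_nonempty with rfl | ⟨m, hm⟩
  · simp
  · exact (G.card_le hB (v := G.p m j) fun m' hm' => ⟨(h m' hm').1, G.same (hB hm') (hB hm)
      ((h m hm).2.1.trans (h m' hm').2.2) ((h m' hm').2.1.trans (h m hm).2.2)⟩).trans (h m hm).2.1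

/-- The number of roots. -/
def nr : ℕ := (G.s.image fun m => G.p m 0).card

/-- Keep the leaves in `B` and remove the first `i m` ancestors of the leaf `m`. -/
def sub (B : Finset ℕ) (i : ℕ → ℕ) (hB : B ⊆ G.s)
    (hs : ∀ m ∈ B, ∀ m' ∈ B, m < m' → i m = i m' ∨ m < G.p m' (i m')) : Fo where
  s := B
  d m := G.d m - i m
  p m j := G.p m (j + i m)
  mono m hm j := G.mono' (hB hm) (by omega)
  top m hm j h := G.top m (hB hm) _ (by omega)
  sep m hm m' hm' h j := by
    rcases hs m hm m' hm' h with e | e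
    · rcases G.sep m (hB hm) m' (hB hm') h (j + i m) with e' | e'
      · exact Or.inl ⟨by omega, by omega, by rw [← e]; exact e'.2.2⟩
      · exact Or.inr (e ▸ e')
    · exact Or.inr (e.trans_le (G.mono' (hB hm') (by omega)))
  cnt j v := by
    rcases (B.filter fun m => j < G.d m - i m ∧ G.p m (j + i m) = v).eq_empty_or_nonempty with
      e | ⟨m, hm⟩
    · simp [e]
    have key : ∀ a ∈ B.filter fun m => j < G.d m - i m ∧ G.p m (j + i m) = v,
        ∀ b ∈ B.filter fun m => j < G.d m - i m ∧ G.p m (j + i m) = v, a < b → i a = i b := by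
      intro a ha b hb hab
      obtain ⟨ha, -, ha'⟩ := mem_filter.mp ha
      obtain ⟨hb, -, hb'⟩ := mem_filter.mp hb
      refine (hs a ha b hb hab).resolve_right fun e => ?_
      have h1 := G.le (hB ha) (j + i a)
      have h2 := G.mono' (hB hb) (Nat.le_add_left (i b) j)
      omega
    have key' : ∀ a ∈ B.filter fun m => j < G.d m - i m ∧ G.p m (j + i m) = v, i a = i m := by
      intro a ha
      rcases lt_trichotomy a m with e | rfl | e
      exacts [key a ha m hm e, rfl, (key m hm a ha e).symm]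
    refine le_trans (le_of_eq ?_) (G.card_le (j := j + i m)
      (B := B.filter fun m => j < G.d m - i m ∧ G.p m (j + i m) = v)
      ((filter_subset _ _).trans hB) fun a ha => ?_)
    · congr 1
      exact image_congr fun a ha => by rw [key' a ha, Nat.add_right_comm]
    · have h1 := key' a ha
      obtain ⟨-, h2, h3⟩ := mem_filter.mp ha
      exact ⟨by omega, h1 ▸ h3⟩

/-- Keep the leaves in `B`. -/
def res (B : Finset ℕ) (hB : B ⊆ G.s) : Fo :=
  G.sub B (fun _ => 0) hB fun _ _ _ _ _ => Or.inl rfl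

theorem nr_res (B : Finset ℕ) (hB : B ⊆ G.s) : (G.res B hB).nr ≤ G.nr :=
  card_le_card (image_subset_image hB)

/-- Move all starting points to the right of `r`. -/
def raise (r : ℕ) (h : ∀ m ∈ G.s, r ≤ m) : Fo where
  s := G.s
  d := G.d
  p m j := max (G.p m j) r
  mono m hm j := max_le_max_right _ (G.mono m hm j)
  top m hm j e := by rw [G.top m hm j e, max_eq_left (h m hm)]
  sep m hm m' hm' e j := (G.sep m hm m' hm' e j).imp (fun e => ⟨e.1, e.2.1, by rw [e.2.2]⟩)
    fun e => e.trans_le (le_max_left _ _)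
  cnt j v := by
    rw [show (fun m => max (G.p m (j + 1)) r) = (fun a => max a r) ∘ fun m => G.p m (j + 1) from rfl,
      ← image_image]
    refine card_image_le.trans ?_
    rcases le_or_gt v r with e | e
    · rcases e.eq_or_lt with rfl | e
      · exact G.card_le' (filter_subset _ _) fun m hm => by
          obtain ⟨h1, h2, h3⟩ := mem_filter.mp hm
          exact ⟨h2, by omega, h m h1⟩
      · rw [filter_false_of_mem fun m _ => by omega]
        simp
    · exact G.card_le (filter_subset _ _) fun m hm => by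
        obtain ⟨h1, h2, h3⟩ := mem_filter.mp hm
        exact ⟨h2, by omega⟩

theorem nr_raise (r : ℕ) (h : ∀ m ∈ G.s, r ≤ m) : (G.raise r h).nr ≤ G.nr := by
  change (G.s.image ((fun a => max a r) ∘ fun m => G.p m 0)).card ≤ _
  rw [← image_image]
  exact card_image_le

/-- Join all roots under a new root starting at `q`. -/
def graft (q : ℕ) (h : G.nr ≤ q) (h' : ∀ m ∈ G.s, q ≤ G.p m 0) : Fo where
  s := G.s
  d m := G.d m + 1
  p m j := Nat.casesOn j q (G.p m)
  mono m hm j := by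
    cases j
    exacts [h' m hm, G.mono m hm _]
  top m hm j e := by
    cases j
    exacts [absurd e (by omega), G.top m hm _ (by omega)]
  sep m hm m' hm' e j := by
    cases j with
    | zero => exact Or.inl ⟨by omega, by omega, rfl⟩
    | succ j => exact (G.sep m hm m' hm' e j).imp_left fun e => ⟨by omega, by omega, e.2.2⟩
  cnt j v := by
    cases j with
    | zero =>
      by_cases e : q = v
      · exact (card_le_card (image_subset_image (filter_subset _ _))).trans (e ▸ h)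
      · rw [filter_false_of_mem fun m _ e' => e e'.2]
        simp
    | succ j =>
      exact G.card_le (filter_subset _ _) fun m hm => by
        obtain ⟨-, h2, h3⟩ := mem_filter.mp hm
        exact ⟨by omega, h3⟩

theorem nr_graft (q : ℕ) (h : G.nr ≤ q) (h' : ∀ m ∈ G.s, q ≤ G.p m 0) : (G.graft q h h').nr ≤ 1 :=
  card_le_one.mpr fun a ha b hb => by
    obtain ⟨_, -, rfl⟩ := mem_image.mp ha
    obtain ⟨_, -, rfl⟩ := mem_image.mp hb
    rfl

/-- The union of successive forests. -/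
def union (V : Finset ℕ) (F : ℕ → Fo) (κ : ℕ → ℕ) (hκ : ∀ v ∈ V, ∀ m ∈ (F v).s, κ m = v)
    (hs : ∀ v ∈ V, ∀ v' ∈ V, v ≠ v' → ∀ m ∈ (F v).s, ∀ m' ∈ (F v').s, m < m' →
      m < (F v').p m' 0) : Fo where
  s := V.biUnion fun v => (F v).s
  d m := (F (κ m)).d m
  p m := (F (κ m)).p m
  mono m hm := by
    obtain ⟨v, hv, hm⟩ := mem_biUnion.mp hm
    rw [hκ v hv m hm]
    exact (F v).mono m hm
  top m hm := by
    obtain ⟨v, hv, hm⟩ := mem_biUnion.mp hm
    rw [hκ v hv m hm]
    exact (F v).top m hm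
  sep m hm m' hm' e j := by
    obtain ⟨v, hv, hm⟩ := mem_biUnion.mp hm
    obtain ⟨v', hv', hm'⟩ := mem_biUnion.mp hm'
    rw [hκ v hv m hm, hκ v' hv' m' hm']
    by_cases h : v = v'
    · subst h
      exact (F v).sep m hm m' hm' e j
    · exact Or.inr ((hs v hv v' hv' h m hm m' hm' e).trans_le ((F v').mono' hm' (Nat.zero_le j)))
  cnt j w := by
    rcases ((V.biUnion fun v => (F v).s).filter fun m => j < (F (κ m)).d m ∧
      (F (κ m)).p m j = w).eq_empty_or_nonempty with e | ⟨m, hm⟩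
    · simp [e]
    have key : ∀ a ∈ (V.biUnion fun v => (F v).s).filter fun m => j < (F (κ m)).d m ∧
        (F (κ m)).p m j = w, κ a = κ m ∧ a ∈ (F (κ m)).s := by
      intro a ha
      obtain ⟨ha, -, ha'⟩ := mem_filter.mp ha
      obtain ⟨hm, -, hm'⟩ := mem_filter.mp hm
      obtain ⟨v, hv, ha⟩ := mem_biUnion.mp ha
      obtain ⟨v', hv', hm⟩ := mem_biUnion.mp hm
      rw [hκ v hv a ha] at ha' ⊢
      rw [hκ v' hv' m hm] at hm' ⊢
      suffices v = v' from ⟨this, this ▸ ha⟩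
      by_contra h
      have h1 := (F v).le ha j
      have h2 := (F v').le hm j
      have h3 := (F v).mono' ha (Nat.zero_le j)
      have h4 := (F v').mono' hm (Nat.zero_le j)
      rcases lt_trichotomy a m with e | rfl | e
      · have := hs v hv v' hv' h a ha m hm e
        omega
      · exact h ((hκ v hv a ha).symm.trans (hκ v' hv' a hm))
      · have := hs v' hv' v hv (Ne.symm h) m hm a ha e
        omega
    refine le_trans (le_of_eq ?_) ((F (κ m)).card_le (j := j) (fun a ha => (key a ha).2)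
      fun a ha => (key a ha).1 ▸ (mem_filter.mp ha).2)
    congr 1
    exact image_congr fun a ha => by rw [(key a ha).1]

section
variable (V : Finset ℕ) (F : ℕ → Fo) (κ : ℕ → ℕ) (hκ : ∀ v ∈ V, ∀ m ∈ (F v).s, κ m = v)
  (hs : ∀ v ∈ V, ∀ v' ∈ V, v ≠ v' → ∀ m ∈ (F v).s, ∀ m' ∈ (F v').s, m < m' → m < (F v').p m' 0)

theorem nr_union : (union V F κ hκ hs).nr ≤ ∑ v ∈ V, (F v).nr := by
  refine le_trans (card_le_card fun a ha => ?_) card_biUnion_le
  obtain ⟨m, hm, rfl⟩ := mem_image.mp ha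
  obtain ⟨v, hv, hm⟩ := mem_biUnion.mp hm
  exact mem_biUnion.mpr ⟨v, hv, mem_image.mpr ⟨m, hm, by rw [← hκ v hv m hm]; rfl⟩⟩

include hκ in
theorem sum_union {M : Type*} [AddCommMonoid M] (f : ℕ → ℕ → M) :
    ∑ m ∈ V.biUnion fun v => (F v).s, f (κ m) m = ∑ v ∈ V, ∑ m ∈ (F v).s, f v m := by
  rw [sum_biUnion fun v hv v' hv' h => disjoint_left.mpr fun m hm hm' =>
    h ((hκ v hv m hm).symm.trans (hκ v' hv' m hm'))]
  exact sum_congr rfl fun v hv => sum_congr rfl fun m hm => by rw [hκ v hv m hm]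

end

/-- A single leaf. -/
def leaf (n : ℕ) : Fo where
  s := {n}
  d _ := 0
  p _ _ := n
  mono _ _ _ := le_rfl
  top _ hm _ _ := (mem_singleton.mp hm).symm
  sep m hm m' hm' h := by
    rw [mem_singleton.mp hm, mem_singleton.mp hm'] at h
    exact absurd h (lt_irrefl _)
  cnt j v := by simp

/-- The value of the forest on a sequence. -/
noncomputable def val (x : ℕ → ℝ) : ℝ := ∑ m ∈ G.s, (1 / 2) ^ G.d m * x m

theorem val_graft (q : ℕ) (h : G.nr ≤ q) (h' : ∀ m ∈ G.s, q ≤ G.p m 0) (x : ℕ → ℝ) :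
    (G.graft q h h').val x = G.val x / 2 := by
  rw [val, val, sum_div]
  exact sum_congr rfl fun m _ => by
    change (1 / 2 : ℝ) ^ (G.d m + 1) * x m = _
    ring

end Fo

/-- The Tsirelson norm of the restriction of `x` to `B`. -/
noncomputable def nu (x : ℕ → ℝ) (B : Finset ℕ) : ℝ :=
  sSup {r | ∃ G : Fo, G.nr ≤ 1 ∧ G.s ⊆ B ∧ r = G.val x}

variable {x : ℕ → ℝ}

theorem val_le_sum (hx : 0 ≤ x) (G : Fo) {B : Finset ℕ} (h : G.s ⊆ B) : G.val x ≤ ∑ m ∈ B, x m :=
  (sum_le_sum fun m _ => mul_le_of_le_one_left (hx m) (pow_le_one₀ (by norm_num) (by norm_num))).trans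
    (sum_le_sum_of_subset_of_nonneg h fun m _ _ => hx m)

theorem val_le_nu (hx : 0 ≤ x) (G : Fo) {B : Finset ℕ} (h1 : G.nr ≤ 1) (h : G.s ⊆ B) :
    G.val x ≤ nu x B :=
  le_csSup ⟨∑ m ∈ B, x m, fun _ ⟨G, _, h, e⟩ => e ▸ val_le_sum hx G h⟩ ⟨G, h1, h, rfl⟩

theorem nu_ne (x : ℕ → ℝ) (B : Finset ℕ) :
    (0 : ℝ) ∈ {r | ∃ G : Fo, G.nr ≤ 1 ∧ G.s ⊆ B ∧ r = G.val x} :=
  ⟨(Fo.leaf 0).res ∅ (empty_subset _), Nat.zero_le _, empty_subset _, rfl⟩

theorem nu_le {B : Finset ℕ} {r : ℝ} (h : ∀ G : Fo, G.nr ≤ 1 → G.s ⊆ B → G.val x ≤ r) :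
    nu x B ≤ r := csSup_le ⟨0, nu_ne x B⟩ fun _ ⟨G, h1, h2, e⟩ => e ▸ h G h1 h2

theorem nu_nonneg (hx : 0 ≤ x) (B : Finset ℕ) : 0 ≤ nu x B :=
  val_le_nu hx ((Fo.leaf 0).res ∅ (empty_subset _)) (Nat.zero_le _) (empty_subset _)

theorem nu_le_sum (hx : 0 ≤ x) (B : Finset ℕ) : nu x B ≤ ∑ m ∈ B, x m :=
  nu_le fun G _ h => val_le_sum hx G h

theorem nu_mono (hx : 0 ≤ x) {B B' : Finset ℕ} (h : B ⊆ B') : nu x B ≤ nu x B' :=
  nu_le fun G h1 h2 => val_le_nu hx G h1 (h2.trans h)

theorem le_nu (hx : 0 ≤ x) {B : Finset ℕ} {m : ℕ} (h : m ∈ B) : x m ≤ nu x B := by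
  have := val_le_nu hx (Fo.leaf m) (B := B) (by simp [Fo.nr, Fo.leaf]) (singleton_subset_iff.mpr h)
  simpa [Fo.val, Fo.leaf] using this

theorem nu_le_of_le {y : ℕ → ℝ} (hy : 0 ≤ y) {B B' : Finset ℕ} {c : ℝ} (hc : 0 ≤ c)
    (h : ∀ m ∈ B, x m ≤ c * y m) (h' : ∀ m ∈ B, m ∉ B' → x m ≤ 0) : nu x B ≤ c * nu y B' := by
  refine nu_le fun G h1 h2 => le_trans ?_ (mul_le_mul_of_nonneg_left (val_le_nu hy
    (G.res (G.s ∩ B') inter_subset_left) ((G.nr_res _ _).trans h1) inter_subset_right) hc)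
  rw [Fo.val, ← sum_inter_add_sum_sdiff G.s B', Fo.val, mul_sum]
  refine add_le_of_nonpos_right (sum_nonpos fun m hm => ?_) |>.trans (sum_le_sum fun m hm => ?_)
  · exact mul_nonpos_of_nonneg_of_nonpos (by positivity)
      (h' m (h2 (mem_sdiff.mp hm).1) (mem_sdiff.mp hm).2)
  · rw [mul_left_comm]
    exact mul_le_mul_of_nonneg_left (h m (h2 (mem_inter.mp hm).1)) (by positivity)

theorem nu_le_fib (hx : 0 ≤ x) (B V : Finset ℕ) (κ : ℕ → ℕ) (h : ∀ m ∈ B, κ m ∈ V) :
    nu x B ≤ ∑ v ∈ V, nu x (B.filter fun m => κ m = v) := by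
  refine nu_le fun G h1 h2 => ?_
  rw [Fo.val, ← sum_fiberwise_of_maps_to fun m hm => h m (h2 hm)]
  exact sum_le_sum fun v _ => val_le_nu hx (G.res _ (filter_subset _ _))
    ((G.nr_res _ _).trans h1) (filter_subset_filter _ h2)

theorem exists_tree {B : Finset ℕ} {r : ℝ} (h : r < nu x B) {t : ℕ} (ht : ∀ m ∈ B, t ≤ m) :
    ∃ G : Fo, G.nr ≤ 1 ∧ G.s ⊆ B ∧ (∀ m ∈ G.s, t ≤ G.p m 0) ∧ r < G.val x := by
  obtain ⟨_, ⟨G, h1, h2, rfl⟩, h3⟩ := exists_lt_of_lt_csSup ⟨0, nu_ne x B⟩ h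
  exact ⟨G.raise t fun m hm => ht m (h2 hm), (G.nr_raise _ _).trans h1, h2,
    fun _ _ => le_max_right _ _, h3⟩

/-- The lower estimate for admissible families. -/
theorem sum_nu_le (hx : 0 ≤ x) (B : Finset ℕ) (κ : ℕ → ℕ) (hκ : MonotoneOn κ B)
    (hc : ∀ m ∈ B, (B.image κ).card ≤ m) :
    ∑ v ∈ B.image κ, nu x (B.filter fun m => κ m = v) ≤ 2 * nu x B := by
  refine le_of_forall_pos_le_add fun ε hε => ?_
  set V := B.image κ
  have key : ∀ v, ∃ G : Fo, G.nr ≤ 1 ∧ G.s ⊆ B.filter (fun m => κ m = v) ∧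
      (∀ m ∈ G.s, sInf {m | m ∈ B ∧ κ m = v} ≤ G.p m 0) ∧
      nu x (B.filter fun m => κ m = v) - ε / (V.card + 1) < G.val x := fun v =>
    exists_tree (sub_lt_self _ (by positivity)) fun m hm => Nat.sInf_le (mem_filter.mp hm)
  choose F h1 h2 h3 h4 using key
  have h5 : ∀ v, ∀ m ∈ (F v).s, ∃ m' ∈ B, κ m' = v ∧ m' ≤ (F v).p m 0 := fun v m hm =>
    ⟨_, (Nat.sInf_mem (s := {m | m ∈ B ∧ κ m = v}) ⟨m, mem_filter.mp (h2 v hm)⟩).1,
      (Nat.sInf_mem (s := {m | m ∈ B ∧ κ m = v}) ⟨m, mem_filter.mp (h2 v hm)⟩).2, h3 v m hm⟩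
  have h6 : ∀ v ∈ V, ∀ m ∈ (F v).s, κ m = v := fun v _ m hm => (mem_filter.mp (h2 v hm)).2
  let U := Fo.union V F κ h6 fun v hv v' hv' e m hm m' hm' e' => by
    obtain ⟨a, ha, ha1, ha2⟩ := h5 v' m' hm'
    refine lt_of_lt_of_le (lt_of_not_ge fun e'' => e ?_) ha2
    have b1 := mem_filter.mp (h2 v hm)
    have b2 := mem_filter.mp (h2 v' hm')
    have c1 := hκ ha b1.1 e''
    have c2 := hκ b1.1 b2.1 e'.le
    omega
  have h7 : U.nr ≤ V.card := (Fo.nr_union ..).trans ((sum_le_sum fun v _ => h1 v).trans (by simp))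
  have h8 : ∀ m ∈ U.s, V.card ≤ U.p m 0 := fun m hm => by
    obtain ⟨v, hv, hm⟩ := mem_biUnion.mp hm
    obtain ⟨a, ha, -, ha2⟩ := h5 v m hm
    exact (hc a ha).trans (ha2.trans_eq (by rw [← h6 v hv m hm]; rfl))
  have h9 := val_le_nu hx (U.graft _ h7 h8) (B := B) (Fo.nr_graft ..) fun m hm => by
    obtain ⟨v, -, hm⟩ := mem_biUnion.mp hm
    exact (mem_filter.mp (h2 v hm)).1
  have h10 : U.val x = ∑ v ∈ V, (F v).val x :=
    Fo.sum_union V F κ h6 fun v m => (1 / 2 : ℝ) ^ (F v).d m * x m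
  rw [Fo.val_graft, h10] at h9
  have h11 := sum_le_sum fun v (_ : v ∈ V) => (h4 v).le
  rw [sum_sub_distrib, sum_const, nsmul_eq_mul] at h11
  have h12 : V.card * (ε / (V.card + 1)) ≤ ε := by
    rw [mul_div_assoc', div_le_iff₀ (by positivity)]
    nlinarith
  linarith

/-- The part of a forest below one node. -/
theorem node_le (hx : 0 ≤ x) (G : Fo) {B : Finset ℕ} (hB : B ⊆ G.s) {j : ℕ}
    (h : ∀ m ∈ B, j ≤ G.d m) (h' : ∀ m ∈ B, ∀ m' ∈ B, G.p m j = G.p m' j) :
    ∑ m ∈ B, (1 / 2 : ℝ) ^ G.d m * x m ≤ (1 / 2) ^ j * nu x B := by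
  have := val_le_nu hx (G.sub B (fun _ => j) hB fun _ _ _ _ _ => Or.inl rfl) (B := B)
    (card_le_one.mpr fun a ha b hb => by
      obtain ⟨a, ha', rfl⟩ := mem_image.mp ha
      obtain ⟨b, hb', rfl⟩ := mem_image.mp hb
      change G.p a (0 + j) = G.p b (0 + j)
      rw [zero_add, h' a ha' b hb']) subset_rfl
  refine le_trans (le_of_eq ?_) (mul_le_mul_of_nonneg_left this (by positivity))
  rw [Fo.val, mul_sum]
  refine sum_congr rfl fun m hm => ?_
  change _ = _ * ((1 / 2 : ℝ) ^ (G.d m - j) * x m)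
  rw [← mul_assoc, ← pow_add, Nat.add_sub_cancel' (h m hm)]

theorem val_le_roots (hx : 0 ≤ x) (G : Fo) :
    G.val x ≤ ∑ v ∈ G.s.image fun m => G.p m 0, nu x (G.s.filter fun m => G.p m 0 = v) := by
  rw [Fo.val, ← sum_fiberwise_of_maps_to fun m hm => mem_image_of_mem (fun m => G.p m 0) hm]
  refine sum_le_sum fun v _ => (node_le hx G (filter_subset _ _) (j := 0) (fun _ _ => Nat.zero_le _)
    fun m hm m' hm' => (mem_filter.mp hm).2.trans (mem_filter.mp hm').2.symm).trans (by simp)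

theorem val_le_two (hx : 0 ≤ x) (G : Fo) (h : ∀ m ∈ G.s, G.nr ≤ m) : G.val x ≤ 2 * nu x G.s :=
  (val_le_roots hx G).trans (sum_nu_le hx _ _ (G.p_mono 0) h)

end Pool.Agent.Lib.MP_740c08_an

/-! A potential which controls trees with more branching; hybrids of several forests. -/

namespace Pool.Agent.Lib.MP_740c08_an

open Finset

/-- The dyadic level of `m` above `b`, at most `k`. -/
def lev (k b m : ℕ) : ℕ := Nat.findGreatest (fun j => 2 ^ j * b ≤ m) k

theorem lev_le (k b m : ℕ) : lev k b m ≤ k := Nat.findGreatest_le k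

theorem lev_mono (k b : ℕ) : Monotone (lev k b) := fun _ _ h =>
  Nat.findGreatest_mono_left (fun _ e => le_trans e h) k

theorem lev_spec {k b m : ℕ} (h : b ≤ m) : 2 ^ lev k b m * b ≤ m :=
  Nat.findGreatest_spec (P := fun j => 2 ^ j * b ≤ m) (Nat.zero_le k) (by simpa using h)

theorem lev_lt {k b m : ℕ} (h : lev k b m < k) : m < 2 ^ (lev k b m + 1) * b :=
  lt_of_not_ge (Nat.findGreatest_is_greatest (P := fun j => 2 ^ j * b ≤ m) (Nat.lt_succ_self _) h)

/-- The potential. -/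
noncomputable def Phi (k : ℕ) (x : ℕ → ℝ) (B : Finset ℕ) : ℝ :=
  ∑ j ∈ range (k + 1), nu x (B.filter fun m => lev k (sInf (B : Set ℕ)) m = j)

variable {x : ℕ → ℝ}

theorem nu_le_Phi (hx : 0 ≤ x) (k : ℕ) (B : Finset ℕ) : nu x B ≤ Phi k x B :=
  nu_le_fib hx B _ _ fun _ _ => mem_range.mpr (Nat.lt_succ_of_le (lev_le _ _ _))

theorem Phi_le (hx : 0 ≤ x) (k : ℕ) (B : Finset ℕ) : Phi k x B ≤ (k + 1) * nu x B :=
  (sum_le_sum fun _ _ => nu_mono hx (filter_subset _ _)).trans (by simp)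

theorem sum_le_two_nu (hx : 0 ≤ x) (B : Finset ℕ) (h : ∀ m ∈ B, B.card ≤ m) :
    ∑ m ∈ B, x m ≤ 2 * nu x B := by
  refine le_trans ?_ (sum_nu_le hx B id (fun _ _ _ _ e => e) (by simpa using h))
  rw [image_id]
  exact sum_le_sum fun m hm => le_nu hx (mem_filter.mpr ⟨hm, rfl⟩)

theorem sum_Phi_le (hx : 0 ≤ x) {k C : ℕ} (hk : (k + 1) * C ≤ 2 ^ k) (B : Finset ℕ) (κ : ℕ → ℕ)
    (hκ : MonotoneOn κ B) (hc : ∀ m ∈ B, (B.image κ).card ≤ C * m) :
    ∑ v ∈ B.image κ, Phi k x (B.filter fun m => κ m = v) ≤ 2 * Phi k x B := by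
  set b := sInf (B : Set ℕ)
  have hb : ∀ m ∈ B, b ≤ m := fun m hm => Nat.sInf_le hm
  let l : ℕ → ℕ := fun m => lev k (sInf ((B.filter fun a => κ a = κ m : Finset ℕ) : Set ℕ)) m
  let κ' : ℕ → ℕ := fun m => κ m * (k + 1) + l m
  have hl : ∀ m, l m < k + 1 := fun m => Nat.lt_succ_of_le (lev_le _ _ _)
  have hκ' : MonotoneOn κ' B := fun m hm m' hm' h => by
    rcases (hκ hm hm' h).eq_or_lt with e | e
    · have : l m ≤ l m' := by
        simp only [l, e]
        exact lev_mono _ _ h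
      simp only [κ', e]
      omega
    · have h1 := hl m
      have h2 : (κ m + 1) * (k + 1) ≤ κ m' * (k + 1) := Nat.mul_le_mul_right _ e
      simp only [κ']
      linarith [Nat.zero_le (l m')]
  let R := B.filter fun m => lev k b m = k
  let L := B.filter fun m => ¬ lev k b m = k
  let W := (B.image κ) ×ˢ range (k + 1)
  let f : ℕ × ℕ → ℕ := fun w => w.1 * (k + 1) + w.2
  have hf : Set.InjOn f W := fun w hw w' hw' e => by
    have h1 := mem_range.mp (mem_product.mp hw).2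
    have h2 := mem_range.mp (mem_product.mp hw').2
    have h3 := congrArg (· % (k + 1)) e
    simp only [f, Nat.mul_add_mod_of_lt h1, Nat.mul_add_mod_of_lt h2] at h3
    simp only [f, h3, add_left_inj] at e
    exact Prod.ext (Nat.eq_of_mul_eq_mul_right (Nat.succ_pos k) e) h3
  have hW : ∀ m ∈ B, κ' m ∈ W.image f := fun m hm => mem_image.mpr
    ⟨(κ m, l m), mem_product.mpr ⟨mem_image_of_mem _ hm, mem_range.mpr (hl m)⟩, rfl⟩
  have h1 : ∑ v ∈ B.image κ, Phi k x (B.filter fun m => κ m = v) ≤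
      ∑ w ∈ W.image f, nu x (B.filter fun m => κ' m = w) := by
    rw [sum_image hf, sum_product]
    refine sum_le_sum fun v _ => sum_le_sum fun j _ => nu_mono hx fun m hm => ?_
    obtain ⟨h1, h2⟩ := mem_filter.mp hm
    obtain ⟨h3, rfl⟩ := mem_filter.mp h1
    exact mem_filter.mpr ⟨h3, by simp only [κ', f, l, h2]⟩
  have h2 : ∀ w, nu x (B.filter fun m => κ' m = w) ≤
      nu x (R.filter fun m => κ' m = w) + ∑ m ∈ L.filter fun m => κ' m = w, x m := fun w => by
    refine (nu_le_fib hx _ {0, 1} (fun m => if lev k b m = k then 0 else 1) fun m _ => by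
      split_ifs <;> simp).trans ?_
    rw [sum_pair (by norm_num)]
    refine add_le_add (nu_mono hx fun m hm => ?_) ((nu_mono hx fun m hm => ?_).trans
      (nu_le_sum hx _))
    · simp only [mem_filter, R] at hm ⊢
      exact ⟨⟨hm.1.1, by_contra fun e => by simp [e] at hm⟩, hm.1.2⟩
    · simp only [mem_filter, L] at hm ⊢
      exact ⟨⟨hm.1.1, fun e => by simp [e] at hm⟩, hm.1.2⟩
  have h3 : ∑ w ∈ W.image f, nu x (R.filter fun m => κ' m = w) ≤ 2 * nu x R := by
    refine le_trans (le_of_eq (sum_subset (fun w hw => ?_) fun w _ hw => ?_).symm)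
      (sum_nu_le hx R κ' (hκ'.mono (coe_subset.mpr (filter_subset _ _))) fun m hm => ?_)
    · obtain ⟨m, hm, rfl⟩ := mem_image.mp hw
      exact hW m (mem_filter.mp hm).1
    · rw [filter_false_of_mem fun m hm e => hw (mem_image.mpr ⟨m, hm, e⟩)]
      exact le_antisymm ((nu_le_sum hx _).trans (by simp)) (nu_nonneg hx _)
    · obtain ⟨hm, e⟩ := mem_filter.mp hm
      have h4 := lev_spec (k := k) (hb m hm)
      have h5 := hc b (Nat.sInf_mem (s := (B : Set ℕ)) ⟨m, hm⟩)
      have h6 : (R.image κ').card ≤ W.card := (card_le_card fun w hw => by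
        obtain ⟨m, hm, rfl⟩ := mem_image.mp hw
        exact hW m (mem_filter.mp hm).1).trans card_image_le
      rw [card_product, card_range] at h6
      rw [e] at h4
      calc _ ≤ C * b * (k + 1) := h6.trans (Nat.mul_le_mul_right _ h5)
        _ = (k + 1) * C * b := by ring
        _ ≤ m := (Nat.mul_le_mul_right _ hk).trans h4
  have h4 : ∑ m ∈ L, x m ≤ ∑ j ∈ range k, 2 * nu x (B.filter fun m => lev k b m = j) := by
    rw [← sum_fiberwise_of_maps_to (g := lev k b) (t := range k) fun m hm =>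
      mem_range.mpr (lt_of_le_of_ne (lev_le _ _ _) (mem_filter.mp hm).2)]
    refine sum_le_sum fun j hj => le_trans (sum_le_sum_of_subset_of_nonneg
      (filter_subset_filter _ (filter_subset _ _)) fun m _ _ => hx m)
      (sum_le_two_nu hx _ fun m hm => ?_)
    have h5 : ∀ m ∈ B.filter fun m => lev k b m = j, m ∈ Ico (2 ^ j * b) (2 ^ (j + 1) * b) :=
      fun m hm => by
        obtain ⟨hm', rfl⟩ := mem_filter.mp hm
        exact mem_Ico.mpr ⟨lev_spec (hb m hm'), lev_lt (mem_range.mp hj)⟩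
    have h6 := card_le_card h5
    have h7 := (mem_Ico.mp (h5 m hm)).1
    rw [Nat.card_Ico, pow_succ] at h6
    have : 2 ^ j * 2 * b - 2 ^ j * b = 2 ^ j * b := by
      rw [mul_right_comm]
      omega
    omega
  refine h1.trans ((sum_le_sum fun w _ => h2 w).trans ?_)
  rw [sum_add_distrib, sum_fiberwise_of_maps_to fun m hm => hW m (mem_filter.mp hm).1, Phi,
    sum_range_succ, mul_add, mul_sum]
  linarith

theorem sum_le_Phi (hx : 0 ≤ x) {k C : ℕ} (hk : (k + 1) * C ≤ 2 ^ k) (B : Finset ℕ) (κ : ℕ → ℕ)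
    (hκ : MonotoneOn κ B) (hc : ∀ m ∈ B, (B.image κ).card ≤ C * m) (f : ℕ → ℝ) {c : ℝ}
    (h0 : 0 ≤ c) (h : ∀ v ∈ B.image κ, ∑ m ∈ B.filter fun m => κ m = v, f m ≤
      c * Phi k x (B.filter fun m => κ m = v)) : ∑ m ∈ B, f m ≤ c * (2 * Phi k x B) := by
  rw [← sum_fiberwise_of_maps_to fun m hm => mem_image_of_mem κ hm]
  refine (sum_le_sum h).trans ?_
  rw [← mul_sum]
  exact mul_le_mul_of_nonneg_left (sum_Phi_le hx hk B κ hκ hc) h0

/-- Branches of `G` which at some time are far deeper than those of `G'` carry little mass. -/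
theorem hybrid (hx : 0 ≤ x) {k C : ℕ} (hk : (k + 1) * C ≤ 2 ^ k) (hC : 2 ≤ C) (G G' : Fo) (Δ : ℕ)
    (n : ℕ) : ∀ (j : ℕ) (B : Finset ℕ), B ⊆ G.s → B ⊆ G'.s → (∀ m ∈ B, G'.d m < j + n) →
      (∀ m ∈ B, ∃ i, j ≤ i ∧ G.p m (i + Δ) < G'.p m i) →
      (∀ m ∈ B, j ≤ G'.d m) → (∀ m ∈ B, (B.image fun m => G'.p m j).card ≤ m) →
      ∑ m ∈ B, (1 / 2 : ℝ) ^ G.d m * x m ≤ (1 / 2) ^ (j + Δ) * (2 * Phi k x B) := by
  induction n with
  | zero =>
    intro j B _ _ h1 _ h2 _
    rw [eq_empty_of_forall_notMem (s := B) fun m hm => by have := h1 m hm; have := h2 m hm; omega]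
    have := (nu_nonneg hx ∅).trans (nu_le_Phi hx k ∅)
    rw [sum_empty]
    positivity
  | succ n ih =>
    intro j B hB hB' h1 h2 h3 h4
    let κ : ℕ → ℕ := fun m => 2 * G'.p m j + if G.p m (j + Δ) < G'.p m j then 0 else 1
    refine sum_le_Phi hx hk B κ (fun m hm m' hm' h => ?_) (fun m hm => ?_) _ (by positivity)
      fun v hv => ?_
    · have h5 : G'.p m j ≤ G'.p m' j := G'.p_mono j (hB' hm) (hB' hm') h
      have h6 : G.p m (j + Δ) ≤ G.p m' (j + Δ) := G.p_mono _ (hB hm) (hB hm') h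
      simp only [κ]
      split_ifs <;> omega
    · refine le_trans (card_le_card (t := ((B.image fun m => G'.p m j) ×ˢ range 2).image
        fun w => 2 * w.1 + w.2) fun v hv => ?_) (card_image_le.trans ?_)
      · obtain ⟨a, ha, rfl⟩ := mem_image.mp hv
        refine mem_image.mpr ⟨(G'.p a j, if G.p a (j + Δ) < G'.p a j then 0 else 1),
          mem_product.mpr ⟨mem_image_of_mem _ ha, ?_⟩, rfl⟩
        split_ifs <;> simp
      · rw [card_product, card_range, mul_comm]
        exact Nat.mul_le_mul hC (h4 m hm)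
    · obtain ⟨a, ha, rfl⟩ := mem_image.mp hv
      have hS := filter_subset (fun m => κ m = κ a) B
      have h5 : ∀ m ∈ B.filter fun m => κ m = κ a, G'.p m j = G'.p a j ∧
          (G.p m (j + Δ) < G'.p m j ↔ G.p a (j + Δ) < G'.p a j) := fun m hm => by
        have := (mem_filter.mp hm).2
        simp only [κ] at this
        split_ifs at this <;> omega
      by_cases e : G.p a (j + Δ) < G'.p a j
      · have h6 : ∀ m ∈ B.filter fun m => κ m = κ a, G.p m (j + Δ) < G'.p a j ∧ G'.p a j ≤ m :=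
          fun m hm => ⟨(h5 m hm).1 ▸ (h5 m hm).2.mpr e, (h5 m hm).1 ▸ G'.le (hB' (hS hm)) j⟩
        refine (node_le hx G (hS.trans hB) (j := j + Δ) (fun m hm => (G.lt_d (hB (hS hm))
          ((h6 m hm).1.trans_le (h6 m hm).2)).le) fun m hm m' hm' => G.same (hB (hS hm))
          (hB (hS hm')) ((h6 m' hm').1.le.trans (h6 m hm).2)
          ((h6 m hm).1.le.trans (h6 m' hm').2)).trans ?_
        exact mul_le_mul_of_nonneg_left (nu_le_Phi hx k _) (by positivity)
      · have h6 : ∀ m ∈ B.filter fun m => κ m = κ a, ∃ i, j + 1 ≤ i ∧ G.p m (i + Δ) < G'.p m i :=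
          fun m hm => by
            obtain ⟨i, hi, hi'⟩ := h2 m (hS hm)
            refine ⟨i, lt_of_le_of_ne hi fun e' => e ((h5 m hm).2.mp (e' ▸ hi')), hi'⟩
        have h7 : ∀ m ∈ B.filter fun m => κ m = κ a, j < G'.d m := fun m hm => by
          obtain ⟨i, hi, hi'⟩ := h6 m hm
          have a1 := mt (h5 m hm).2.mp e
          have a2 := G'.le (hB' (hS hm)) i
          have a3 := G.mono' (hB (hS hm)) (show j + Δ ≤ i + Δ by omega)
          exact G'.lt_d (hB' (hS hm)) (by omega)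
        refine (ih (j + 1) _ (hS.trans hB) (hS.trans hB') (fun m hm => by
          have := h1 m (hS hm); omega) h6 h7 fun m hm => ?_).trans (le_of_eq (by ring))
        exact (G'.card_le (hS.trans hB') fun m hm => ⟨h7 m hm, (h5 m hm).1⟩).trans
          ((h5 m hm).1 ▸ G'.le (hB' (hS hm)) j)

/-- Disjointly supported forests. -/
theorem merge (hx : 0 ≤ x) {k S : ℕ} (hk : (k + 1) * (2 * S) ≤ 2 ^ k) (F : ℕ → Fo) (σ : ℕ → ℕ)
    (n : ℕ) : ∀ (j : ℕ) (B : Finset ℕ), (∀ m ∈ B, σ m < S ∧ m ∈ (F (σ m)).s) →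
      (∀ m ∈ B, (F (σ m)).d m < j + n) → (∀ m ∈ B, j ≤ (F (σ m)).d m) →
      (∀ s, ∀ m ∈ B, ((B.filter fun m => σ m = s).image fun m => (F s).p m j).card ≤ m) →
      ∑ m ∈ B, (1 / 2 : ℝ) ^ (F (σ m)).d m * x m ≤ (1 / 2) ^ j * (2 * Phi k x B) := by
  induction n with
  | zero =>
    intro j B _ h1 h2 _
    rw [eq_empty_of_forall_notMem (s := B) fun m hm => by have := h1 m hm; have := h2 m hm; omega]
    have := (nu_nonneg hx ∅).trans (nu_le_Phi hx k ∅)
    rw [sum_empty]
    positivity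
  | succ n ih =>
    intro j B hB h1 h2 h3
    let P := B.image fun m => (F (σ m)).p m j
    let Q := P ∪ P.image (· + 1)
    let κ : ℕ → ℕ := fun m => Nat.findGreatest (· ∈ Q) m
    have hP : ∀ m ∈ B, (F (σ m)).p m j ∈ Q := fun m hm => mem_union_left _ (mem_image_of_mem _ hm)
    have h4 : ∀ m ∈ B, (F (σ m)).p m j ≤ κ m := fun m hm =>
      Nat.le_findGreatest ((F _).le (hB m hm).2 j) (hP m hm)
    have h5 : ∀ m, κ m ≤ m := fun m => Nat.findGreatest_le m
    refine sum_le_Phi hx hk B κ (fun m _ m' _ h => Nat.findGreatest_mono_right _ h)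
      (fun m hm => ?_) _ (by positivity) fun v hv => ?_
    · have a1 : P.card ≤ S * m := by
        refine le_trans (card_le_card (t := (range S).biUnion fun s =>
          (B.filter fun m => σ m = s).image fun m => (F s).p m j) fun v hv => ?_)
          (card_biUnion_le.trans ((sum_le_sum fun s _ => h3 s m hm).trans (by simp)))
        obtain ⟨a, ha, rfl⟩ := mem_image.mp hv
        exact mem_biUnion.mpr ⟨σ a, mem_range.mpr (hB a ha).1,
          mem_image_of_mem _ (mem_filter.mpr ⟨ha, rfl⟩)⟩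
      have a2 : (B.image κ).card ≤ Q.card := card_le_card fun v hv => by
        obtain ⟨a, ha, rfl⟩ := mem_image.mp hv
        exact Nat.findGreatest_spec (P := (· ∈ Q)) ((F _).le (hB a ha).2 j) (hP a ha)
      have a3 : Q.card ≤ P.card + P.card := (card_union_le _ _).trans
        (Nat.add_le_add_left card_image_le _)
      rw [mul_assoc]
      omega
    · have hS := filter_subset (fun m => κ m = v) B
      by_cases e : ∃ a ∈ B.filter fun m => κ m = v, (F (σ a)).d a = j
      · obtain ⟨a, ha, e⟩ := e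
        have a1 := (F _).top a (hB a (hS ha)).2 j e.le
        have a2 := h4 a (hS ha)
        have a3 := h5 a
        have a4 := (mem_filter.mp ha).2
        have a5 : B.filter (fun m => κ m = v) = {a} := eq_singleton_iff_unique_mem.mpr
          ⟨ha, fun m hm => by
            have b1 := (mem_filter.mp hm).2
            have b2 := h5 m
            by_contra b3
            have : a + 1 ≤ κ m := Nat.le_findGreatest (by omega) (mem_union_right _
              (mem_image.mpr ⟨a, mem_image.mpr ⟨a, hS ha, a1⟩, rfl⟩))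
            omega⟩
        rw [a5, sum_singleton, e]
        exact mul_le_mul_of_nonneg_left ((le_nu hx (mem_singleton_self a)).trans
          (nu_le_Phi hx k _)) (by positivity)
      · have a1 : ∀ m ∈ B.filter fun m => κ m = v, j < (F (σ m)).d m := fun m hm =>
          lt_of_le_of_ne (h2 m (hS hm)) fun e' => e ⟨m, hm, e'.symm⟩
        refine (ih (j + 1) _ (fun m hm => hB m (hS hm)) (fun m hm => by
          have := h1 m (hS hm); omega) a1 fun s m hm => ?_).trans (le_of_eq (by ring))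
        refine ((F s).card_le' (t := v) (fun a ha => ?_) fun a ha => ?_).trans
          ((mem_filter.mp hm).2 ▸ h5 m)
        · obtain ⟨ha', rfl⟩ := mem_filter.mp ha
          exact (hB a (hS ha')).2
        · obtain ⟨ha', rfl⟩ := mem_filter.mp ha
          exact ⟨a1 a ha', (mem_filter.mp ha').2 ▸ h4 a (hS ha'), (mem_filter.mp ha').2 ▸ h5 a⟩

end Pool.Agent.Lib.MP_740c08_an

/-! The counter along a branch, its stability, and the window lemma. -/

namespace Pool.Agent.Lib.MP_740c08_an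

open Finset

/-- One step of the counter: it is reset when it has reached the starting point of the node. -/
def step (p c : ℕ) : ℕ := if p ≤ c then 1 else c + 1

/-- Run the counter through the nodes `p (i-1), ..., p 0`. -/
def run (p : ℕ → ℕ) : ℕ → ℕ → ℕ
  | 0, c => c
  | i + 1, c => run p i (step (p i) c)

theorem run_add (p : ℕ → ℕ) (i j c : ℕ) :
    run p (j + i) c = run p i (run (fun k => p (k + i)) j c) := by
  induction j generalizing c with
  | zero => rw [zero_add]; rfl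
  | succ j ih => rw [Nat.add_right_comm, run, ih, run]

theorem run_none {p : ℕ → ℕ} {r c : ℕ} (h : ∀ j < r, c + r ≤ j + p j) : run p r c = c + r := by
  induction r generalizing c with
  | zero => rfl
  | succ r ih =>
    have := h r (Nat.lt_succ_self r)
    rw [run, step, if_neg (by omega), ih fun j hj => by have := h j (by omega); omega]
    omega

theorem run_reset {p : ℕ → ℕ} {r c i : ℕ} (hi : i < r) (h1 : i + p i < c + r)
    (h : ∀ j, i < j → j < r → c + r ≤ j + p j) : run p r c = run p i 1 := by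
  induction r generalizing c with
  | zero => omega
  | succ r ih =>
    rcases (Nat.le_of_lt_succ hi).eq_or_lt with rfl | e
    · rw [run, step, if_pos (by omega)]
    · have := h r e (Nat.lt_succ_self r)
      rw [run, step, if_neg (by omega), ih e (by omega) fun j hj hj' => by
        have := h j hj (by omega); omega]

theorem run_cases (p : ℕ → ℕ) (i c : ℕ) : run p i c = c + i ∨ run p i c ≤ i := by
  induction i generalizing c with
  | zero => exact Or.inl rfl
  | succ i ih =>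
    rw [run, step]
    split_ifs
    · have := ih 1; omega
    · have := ih (c + 1); omega

theorem next_reset (p : ℕ → ℕ) (r : ℕ) : (∀ j < r, 1 + r ≤ j + p j) ∨
    ∃ i < r, i + p i < 1 + r ∧ ∀ j, i < j → j < r → 1 + r ≤ j + p j := by
  by_cases h : ∀ j < r, 1 + r ≤ j + p j
  · exact Or.inl h
  · push Not at h
    obtain ⟨j, hj, hj'⟩ := h
    have := Nat.findGreatest_spec (P := fun j => j < r ∧ j + p j < 1 + r) hj.le ⟨hj, hj'⟩
    exact Or.inr ⟨_, this.1, this.2, fun i hi hi' => not_lt.mp fun e =>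
      Nat.findGreatest_is_greatest hi hi'.le ⟨hi', e⟩⟩

theorem run_stable {Δ : ℕ} {p p' : ℕ → ℕ} (h : ∀ i, p' i ≤ p (i + Δ)) (h' : ∀ i, p i ≤ p' (i + Δ))
    (n : ℕ) : ∀ r r', r + r' < n → r ≤ r' + Δ → r' ≤ r + Δ →
      run p r 1 ≤ Δ ∨ run p' r' 1 ≤ Δ ∨ run p' r' 1 ≤ run p r 1 + Δ := by
  induction n with
  | zero => omega
  | succ n ih =>
    intro r r' h1 h2 h3
    have a1 := run_cases p' r' 1
    rcases next_reset p r with e | ⟨i, hi, hi1, hi2⟩
    · rcases next_reset p' r' with e' | ⟨i', hi', hi1', hi2'⟩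
      · rw [run_none e, run_none e']
        omega
      · rw [run_none e, run_reset hi' hi1' hi2']
        have := run_cases p' i' 1
        omega
    · rw [run_reset hi hi1 hi2]
      have a2 := run_cases p i 1
      by_cases b : i < Δ
      · omega
      have a3 := h (i - Δ)
      rw [Nat.sub_add_cancel (not_lt.mp b)] at a3
      rcases next_reset p' r' with e' | ⟨i', hi', hi1', hi2'⟩
      · have := e' (i - Δ) (by omega)
        omega
      · rw [run_reset hi' hi1' hi2']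
        refine ih i i' (by omega) ?_ ?_
        · by_contra c
          have := hi2' (i - Δ) (by omega) (by omega)
          omega
        · by_contra c
          have a4 := h' (i' - Δ)
          rw [Nat.sub_add_cancel (by omega)] at a4
          have := hi2 (i' - Δ) (by omega) (by omega)
          omega

/-- The counter of the branch of the leaf `m`. -/
def Fo.y (G : Fo) (m : ℕ) : ℕ := run (G.p m) (G.d m) 0

theorem run_zero (p : ℕ → ℕ) (d : ℕ) : run p (d + 1) 0 = run p d 1 := by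
  rw [run, step]
  split_ifs <;> rfl

theorem y_stable {Δ : ℕ} {G G' : Fo} {m : ℕ} (h : ∀ i, G'.p m i ≤ G.p m (i + Δ))
    (h' : ∀ i, G.p m i ≤ G'.p m (i + Δ)) (h1 : G.d m ≤ G'.d m + Δ) (h2 : G'.d m ≤ G.d m + Δ)
    (h3 : Δ < G.y m) (h4 : Δ < G'.y m) : G'.y m ≤ G.y m + Δ := by
  unfold Fo.y at *
  generalize G.d m = d at *
  generalize G'.d m = d' at *
  rcases d with _ | d
  · exact absurd h3 (Nat.not_lt_zero _)
  rcases d' with _ | d'
  · exact absurd h4 (Nat.not_lt_zero _)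
  simp only [run_zero] at *
  have := run_stable h h' _ d d' (Nat.lt_succ_self _) (by omega) (by omega)
  omega

theorem sum_union_le_of_nonneg {f : ℕ → ℝ} (h : ∀ m, 0 ≤ f m) {A B : Finset ℕ} :
    ∑ m ∈ A ∪ B, f m ≤ ∑ m ∈ A, f m + ∑ m ∈ B, f m := by
  rw [← sum_union_inter]
  exact le_add_of_nonneg_right (sum_nonneg fun m _ => h m)

theorem sum_biUnion_le_of_nonneg {f : ℕ → ℝ} (h : ∀ m, 0 ≤ f m) {V : Finset ℕ}
    {A : ℕ → Finset ℕ} : ∑ m ∈ V.biUnion A, f m ≤ ∑ v ∈ V, ∑ m ∈ A v, f m := by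
  induction V using Finset.induction_on with
  | empty => simp
  | insert a V ha ih =>
    rw [biUnion_insert, sum_insert ha]
    exact (sum_union_le_of_nonneg h).trans (by linarith)

variable {x : ℕ → ℝ}

/-- Forests whose counters lie in well separated windows are essentially disjoint. -/
theorem windows (hx : 0 ≤ x) {k S Δ : ℕ} (hk : (k + 1) * (2 * S) ≤ 2 ^ k) (F : ℕ → Fo)
    (B : Finset ℕ) (hB : ∀ s < S, (F s).s ⊆ B) (hr : ∀ s < S, ∀ m ∈ B, (F s).nr ≤ m)
    (h1 : ∀ s < S, ∀ m ∈ (F s).s, Δ < (F s).y m)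
    (h2 : ∀ s s', s < s' → s' < S → ∀ m ∈ (F s).s, m ∈ (F s').s → (F s).y m + Δ < (F s').y m) :
    ∑ s ∈ range S, (F s).val x ≤
      (2 + S ^ 2 * (1 / 2) ^ Δ * 4) * ((k + 1) * nu x B) := by
  classical
  have hn := nu_nonneg hx B
  let A : ℕ → ℕ → Finset ℕ := fun s s' => ((F s).s ∩ (F s').s).filter fun m =>
    ∃ i, (F s).p m (i + Δ) < (F s').p m i
  let A' : ℕ → ℕ → Finset ℕ := fun s s' => ((F s).s ∩ (F s').s).filter fun m =>
    (F s').d m + Δ ≤ (F s).d m
  let g : ℕ → Finset ℕ := fun s => (F s).s.filter fun m => ∀ s' < S, m ∉ A s s' ∧ m ∉ A' s s'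
  have hP : ∀ B' ⊆ B, Phi k x B' ≤ (k + 1) * nu x B := fun B' h =>
    (Phi_le hx k B').trans (mul_le_mul_of_nonneg_left (nu_mono hx h) (by positivity))
  have a1 : ∀ s < S, ∀ s' < S, ∑ m ∈ A s s', (1 / 2 : ℝ) ^ (F s).d m * x m ≤
      (1 / 2) ^ Δ * (2 * ((k + 1) * nu x B)) := fun s hs s' hs' => by
    have b1 : A s s' ⊆ (F s).s := (filter_subset _ _).trans inter_subset_left
    have b2 : A s s' ⊆ (F s').s := (filter_subset _ _).trans inter_subset_right
    refine (hybrid hx hk (by omega) (F s) (F s') Δ ((A s s').sup (F s').d + 1) 0 _ b1 b2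
      (fun m hm => by have := le_sup (f := (F s').d) hm; omega)
      (fun m hm => (mem_filter.mp hm).2.imp fun i hi => ⟨Nat.zero_le _, hi⟩)
      (fun _ _ => Nat.zero_le _) fun m hm => (card_le_card (image_subset_image b2)).trans
        (hr s' hs' m (hB s hs (b1 hm)))).trans ?_
    rw [zero_add]
    have := hP _ (b1.trans (hB s hs))
    gcongr
  have a2 : ∀ s < S, ∀ s' < S, ∑ m ∈ A' s s', (1 / 2 : ℝ) ^ (F s).d m * x m ≤
      (1 / 2) ^ Δ * (2 * ((k + 1) * nu x B)) := fun s hs s' hs' => by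
    have b1 := (val_le_two hx (F s') fun m hm => hr s' hs' m (hB s' hs' hm)).trans
      (mul_le_mul_of_nonneg_left (nu_mono hx (hB s' hs')) (by norm_num))
    have b2 : nu x B ≤ (k + 1) * nu x B := le_mul_of_one_le_left hn (by simp)
    refine le_trans ?_ (mul_le_mul_of_nonneg_left (b1.trans (by linarith)) (by positivity))
    rw [Fo.val, mul_sum]
    refine le_trans (sum_le_sum fun m hm => ?_) (sum_le_sum_of_subset_of_nonneg
      ((filter_subset _ _).trans inter_subset_right) fun m _ _ =>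
        mul_nonneg (by positivity) (mul_nonneg (by positivity) (hx m)))
    rw [← mul_assoc, ← pow_add]
    exact mul_le_mul_of_nonneg_right (pow_le_pow_of_le_one (by norm_num) (by norm_num)
      (by have := (mem_filter.mp hm).2; omega)) (hx m)
  have a3 : ∀ s < S, (F s).val x ≤ ∑ m ∈ g s, (1 / 2 : ℝ) ^ (F s).d m * x m +
      S * ((1 / 2) ^ Δ * (4 * ((k + 1) * nu x B))) := fun s hs => by
    have b1 : (F s).s ⊆ g s ∪ (range S).biUnion fun s' => A s s' ∪ A' s s' := fun m hm => by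
      by_contra e
      simp only [mem_union, mem_biUnion, mem_range, not_or, not_exists, not_and] at e
      exact e.1 (mem_filter.mpr ⟨hm, e.2⟩)
    have b2 : ∀ m, 0 ≤ (1 / 2 : ℝ) ^ (F s).d m * x m := fun m => mul_nonneg (by positivity) (hx m)
    refine (sum_le_sum_of_subset_of_nonneg b1 fun m _ _ => b2 m).trans
      ((sum_union_le_of_nonneg b2).trans (add_le_add le_rfl
      ((sum_biUnion_le_of_nonneg b2).trans ((sum_le_sum fun s' hs' => ?_).trans
        (le_of_eq (by rw [sum_const, card_range, nsmul_eq_mul]))))))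
    have := a1 s hs s' (mem_range.mp hs')
    have := a2 s hs s' (mem_range.mp hs')
    refine (sum_union_le_of_nonneg b2).trans (by linarith)
  have a4 : ∀ s s', s < s' → s' < S → ∀ m ∈ g s, m ∉ g s' := fun s s' e hs' m hm hm' => by
    obtain ⟨c1, c2⟩ := mem_filter.mp hm
    obtain ⟨c3, c4⟩ := mem_filter.mp hm'
    have c5 := c2 s' hs'
    have c6 := c4 s (e.trans hs')
    simp only [A, A', mem_filter, mem_inter, c1, c3, true_and, not_exists, not_lt, not_le] at c5 c6
    have := y_stable c5.1 c6.1 c5.2.le c6.2.le (h1 s (e.trans hs') m c1) (h1 s' hs' m c3)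
    have := h2 s s' e hs' m c1 c3
    omega
  let σ : ℕ → ℕ := fun m => if h : ∃ s < S, m ∈ g s then h.choose else 0
  have a5 : ∀ s ∈ range S, ∀ m ∈ ((F s).res (g s) (filter_subset _ _)).s, σ m = s :=
    fun s hs m hm => by
      have h : ∃ s < S, m ∈ g s := ⟨s, mem_range.mp hs, hm⟩
      simp only [σ, dif_pos h]
      rcases lt_trichotomy h.choose s with e | e | e
      · exact absurd hm (a4 _ _ e (mem_range.mp hs) m h.choose_spec.2)
      · exact e
      · exact absurd h.choose_spec.2 (a4 _ _ e h.choose_spec.1 m hm)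
  have a6 : ∀ m ∈ (range S).biUnion g, σ m < S ∧ m ∈ (F (σ m)).s := fun m hm => by
    obtain ⟨s, hs, hm⟩ := mem_biUnion.mp hm
    rw [a5 s hs m hm]
    exact ⟨mem_range.mp hs, (mem_filter.mp hm).1⟩
  have a7 : (range S).biUnion g ⊆ B := fun m hm => hB _ (a6 m hm).1 (a6 m hm).2
  have a8 := merge hx hk F σ (((range S).biUnion g).sup (fun m => (F (σ m)).d m) + 1) 0 _ a6
    (fun m hm => by have := le_sup (f := fun m => (F (σ m)).d m) hm; omega)
    (fun _ _ => Nat.zero_le _) fun s m hm => by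
      rcases lt_or_ge s S with e | e
      · refine (card_le_card (image_subset_image fun a ha => ?_)).trans (hr s e m (a7 hm))
        obtain ⟨ha', rfl⟩ := mem_filter.mp ha
        exact (a6 a ha').2
      · rw [filter_false_of_mem fun a ha e' => by have := (a6 a ha).1; omega]
        simp
  have a9 := Fo.sum_union (range S) _ σ a5 fun s m => (1 / 2 : ℝ) ^ (F s).d m * x m
  have a10 := hP _ a7
  refine (sum_le_sum fun s hs => a3 s (mem_range.mp hs)).trans ?_
  rw [sum_add_distrib, sum_const, card_range, nsmul_eq_mul]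
  have a11 := a9.symm.trans_le a8
  change ∑ s ∈ range S, ∑ m ∈ g s, _ ≤ _ at a11
  rw [pow_zero] at a11
  nlinarith

end Pool.Agent.Lib.MP_740c08_an

/-! Splitting a forest at a time. -/

namespace Pool.Agent.Lib.MP_740c08_an

open Finset

/-- The number of ancestors of `m` which start before time `t`. -/
noncomputable def Fo.ell (G : Fo) (t m : ℕ) : ℕ := sInf {i | t < G.p m i}

namespace Fo
variable (G : Fo) {t m : ℕ}

theorem ell_le {i : ℕ} (h : t < G.p m i) : G.ell t m ≤ i := Nat.sInf_le h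

theorem lt_ell (hm : m ∈ G.s) (h : t < m) : t < G.p m (G.ell t m) :=
  Nat.sInf_mem (s := {i | t < G.p m i}) ⟨G.d m, h.trans_eq (G.top m hm _ le_rfl).symm⟩

theorem ell_le_d (hm : m ∈ G.s) (h : t < m) : G.ell t m ≤ G.d m :=
  G.ell_le (h.trans_eq (G.top m hm _ le_rfl).symm)

theorem le_of_lt_ell {i : ℕ} (h : i < G.ell t m) : G.p m i ≤ t :=
  not_lt.mp fun e => h.not_ge (G.ell_le e)

theorem card_ell (t i : ℕ) : ((G.s.filter fun m => t < m ∧ G.ell t m = i).image
    fun m => G.p m i).card ≤ max G.nr t := by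
  cases i with
  | zero => exact le_max_of_le_left (card_le_card (image_subset_image (filter_subset _ _)))
  | succ i =>
    refine le_max_of_le_right (G.card_le' (filter_subset _ _) fun m hm => ?_)
    obtain ⟨h1, h2, h3⟩ := mem_filter.mp hm
    have := G.ell_le_d h1 h2
    exact ⟨by omega, G.le_of_lt_ell (by omega), h2.le⟩

theorem ell_sep {m' : ℕ} (hm : m ∈ G.s) (hm' : m' ∈ G.s) (h : t < m) (e : m < m') :
    G.ell t m = G.ell t m' ∨ m < G.p m' (G.ell t m') := by
  refine (G.sep m hm m' hm' e (G.ell t m')).imp_left fun e' => le_antisymm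
    (G.ell_le ((G.lt_ell hm' (h.trans e)).trans_eq e'.2.2.symm)) (not_lt.mp fun c => ?_)
  have h1 := G.le_of_lt_ell c
  have h2 := G.lt_ell hm h
  rcases G.sep m hm m' hm' e (G.ell t m) with c' | c' <;> omega

theorem y_eq {i : ℕ} (h : i ≤ G.d m) :
    G.y m = run (G.p m) i (run (fun k => G.p m (k + i)) (G.d m - i) 0) := by
  rw [← run_add, Nat.sub_add_cancel h, y]

end Fo

/-- The invariant of a node. -/
def Inv (x : ℕ → ℝ) (t : ℕ) (u : ℕ → ℕ) (β : ℝ) : Prop :=
  ∀ G : Fo, G.nr ≤ t ^ 2 → (∀ m ∈ G.s, t < G.p m 0) →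
    ∑ m ∈ G.s, (1 / 2 : ℝ) ^ G.d m * 2 ^ u (G.y m) * x m ≤ β

variable {x : ℕ → ℝ} {t : ℕ} {u : ℕ → ℕ} {β : ℝ}

theorem Inv.nu_le (h : Inv x t u β) (hx : 0 ≤ x) (h0 : ∀ m ≤ t, x m = 0) (ht : 1 ≤ t)
    (B : Finset ℕ) : nu x B ≤ β := by
  refine le_trans (nu_le_of_le hx zero_le_one (B' := B.filter fun m => t < m)
    (fun m _ => (one_mul _).ge) fun m hm hm' => (h0 m (by simpa [hm] using hm')).le) ?_
  rw [one_mul]
  refine le_of_forall_lt_imp_le_of_dense fun r hr => ?_
  obtain ⟨G, h1, -, h3, h4⟩ := exists_tree hr (t := t + 1) fun m hm => (mem_filter.mp hm).2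
  refine h4.le.trans (le_trans (sum_le_sum fun m _ => ?_)
    (h G (h1.trans (Nat.one_le_pow _ _ ht)) h3))
  exact mul_le_mul_of_nonneg_right (le_mul_of_one_le_right (by positivity)
    (one_le_pow₀ (by norm_num))) (hx m)

theorem Inv.split (h : Inv x t u β) (hx : 0 ≤ x) (h0 : ∀ m ≤ t, x m = 0) (ht : 1 ≤ t) (G : Fo)
    (hG : G.nr ≤ t) (v : ℕ → ℕ) (κ Δ : ℕ) (hv : ∀ m ∈ G.s, v m ≤ Δ)
    (hv' : ∀ m ∈ G.s, t < m → v m + κ ≤
      u (run (fun k => G.p m (k + G.ell t m)) (G.d m - G.ell t m) 0) + G.ell t m) :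
    ∑ m ∈ G.s, (1 / 2 : ℝ) ^ G.d m * 2 ^ v m * x m ≤
      (1 / 2) ^ κ * β + 2 ^ Δ * (1 / 2) ^ (t - 1) * β := by
  let B := G.s.filter fun m => t < m ∧ G.ell t m < t
  let B' := G.s.filter fun m => t < m ∧ t ≤ G.ell t m
  let H := G.sub B (G.ell t) (filter_subset _ _) fun m hm m' hm' e =>
    G.ell_sep (mem_filter.mp hm).1 (mem_filter.mp hm').1 (mem_filter.mp hm).2.1 e
  have h1 : H.nr ≤ t ^ 2 := by
    refine le_trans (card_le_card (t := (range t).biUnion fun i =>
      (G.s.filter fun m => t < m ∧ G.ell t m = i).image fun m => G.p m i) fun a ha => ?_)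
      (card_biUnion_le.trans ((sum_le_sum fun i _ => (G.card_ell t i).trans
        (max_le hG le_rfl)).trans (by simp [sq])))
    obtain ⟨m, hm, rfl⟩ := mem_image.mp ha
    obtain ⟨a1, a2, a3⟩ := mem_filter.mp hm
    exact mem_biUnion.mpr ⟨_, mem_range.mpr a3, mem_image.mpr
      ⟨m, mem_filter.mpr ⟨a1, a2, rfl⟩, congrArg _ (zero_add _).symm⟩⟩
  have h2 := h H h1 fun m hm => by
    change t < G.p m (0 + _)
    rw [zero_add]
    exact G.lt_ell (mem_filter.mp hm).1 (mem_filter.mp hm).2.1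
  have h3 := (node_le hx G (B := B') (j := t - 1) (filter_subset _ _) (fun m hm => by
    obtain ⟨a1, a2, a3⟩ := mem_filter.mp hm
    have := G.ell_le_d a1 a2
    omega) fun m hm m' hm' => by
      obtain ⟨a1, a2, a3⟩ := mem_filter.mp hm
      obtain ⟨b1, b2, b3⟩ := mem_filter.mp hm'
      exact G.same a1 b1 ((G.le_of_lt_ell (by omega)).trans a2.le)
        ((G.le_of_lt_ell (by omega)).trans b2.le)).trans
    (mul_le_mul_of_nonneg_left (h.nu_le hx h0 ht B') (by positivity))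
  rw [← sum_subset (s₁ := B ∪ B') (union_subset (filter_subset _ _) (filter_subset _ _))
    fun m hm hm' => by
      rw [h0 m (not_lt.mp fun e => hm' ?_), mul_zero]
      simp only [B, B', mem_union, mem_filter, hm, e, true_and]
      omega]
  refine (sum_union_le_of_nonneg fun m => mul_nonneg (by positivity) (hx m)).trans
    (add_le_add (le_trans ?_ (mul_le_mul_of_nonneg_left h2 (by positivity))) ?_)
  · rw [mul_sum]
    refine sum_le_sum fun m hm => ?_
    obtain ⟨a1, a2, -⟩ := mem_filter.mp hm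
    rw [← mul_assoc]
    refine mul_le_mul_of_nonneg_right ?_ (hx m)
    have a3 := hv' m a1 a2
    have a4 := G.ell_le_d a1 a2
    change _ ≤ _ * ((1 / 2 : ℝ) ^ (G.d m - G.ell t m) *
      2 ^ u (run (fun k => G.p m (k + G.ell t m)) (G.d m - G.ell t m) 0))
    generalize u _ = U at *
    obtain ⟨e, he⟩ := Nat.exists_eq_add_of_le a4
    rw [he, Nat.add_sub_cancel_left]
    have := pow_le_pow_right₀ (one_le_two (α := ℝ)) a3
    simp only [one_div, inv_pow, pow_add] at this ⊢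
    field_simp
    exact this.trans_eq (mul_comm _ _)
  · rw [mul_assoc]
    refine le_trans ?_ (mul_le_mul_of_nonneg_left h3 (by positivity))
    rw [mul_sum]
    refine sum_le_sum fun m hm => ?_
    rw [← mul_assoc, mul_comm ((2 : ℝ) ^ Δ)]
    exact mul_le_mul_of_nonneg_right (mul_le_mul_of_nonneg_left
      (pow_le_pow_right₀ one_le_two (hv m (mem_filter.mp hm).1)) (by positivity)) (hx m)

theorem sum_le_of_one {n : ℕ} {f : ℕ → ℝ} {c : ℝ} (hc : 0 ≤ c) (h : ∀ l < n, f l ≤ c)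
    (h' : ∀ l l', l < l' → f l ≤ 0 ∨ f l' ≤ 0) : ∑ l ∈ range n, f l ≤ c := by
  by_cases e : ∀ l ∈ range n, f l ≤ 0
  · exact (sum_nonpos e).trans hc
  · push Not at e
    obtain ⟨l, hl, e⟩ := e
    rw [← add_sum_erase _ _ hl]
    refine (add_le_of_nonpos_right (sum_nonpos fun l' hl' => ?_)).trans (h l (mem_range.mp hl))
    rcases lt_or_gt_of_ne (ne_of_mem_erase hl') with c | c
    · exact (h' _ _ c).resolve_right e.not_ge
    · exact (h' _ _ c).resolve_left e.not_ge

/-- Children which are not separated by a node that started late carry little mass. -/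
theorem bad_le (G : Fo) (w n : ℕ) (τ : ℕ → ℕ) (hτ : Monotone τ) (hw : w ≤ τ 0) (z : ℕ → ℕ → ℝ)
    (hz : ∀ l, 0 ≤ z l) (hz' : ∀ l m, τ (l + 1) < m → z l m = 0) (hβ : ∀ l B, nu (z l) B ≤ β) :
    ∑ l ∈ range n, ∑ m ∈ G.s.filter fun m => τ l < G.p m (G.ell w m),
      (1 / 2 : ℝ) ^ G.d m * z l m ≤ 2 * (max G.nr w : ℕ) * β := by
  have hβ0 := (nu_nonneg (hz 0) ∅).trans (hβ 0 ∅)
  let M := G.s.sup G.d + 1
  let V : ℕ → Finset ℕ := fun i => (G.s.filter fun m => w < m ∧ G.ell w m = i).image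
    fun m => G.p m i
  let A : ℕ → ℕ → ℕ → Finset ℕ := fun l i v => ((G.s.filter fun m =>
    τ l < G.p m (G.ell w m)).filter fun m => G.ell w m = i).filter fun m => G.p m i = v
  have h0 : ∀ l, ∀ m ∈ G.s.filter fun m => τ l < G.p m (G.ell w m), w < m := fun l m hm =>
    (hw.trans (hτ (Nat.zero_le l))).trans_lt
      ((mem_filter.mp hm).2.trans_le (G.le (mem_filter.mp hm).1 _))
  have h1 : ∀ l, ∑ m ∈ G.s.filter fun m => τ l < G.p m (G.ell w m),
      (1 / 2 : ℝ) ^ G.d m * z l m = ∑ i ∈ range M, ∑ v ∈ V i, ∑ m ∈ A l i v,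
        (1 / 2 : ℝ) ^ G.d m * z l m := fun l => by
    rw [← sum_fiberwise_of_maps_to (g := G.ell w) (t := range M) fun m hm => mem_range.mpr
      (Nat.lt_succ_of_le ((G.ell_le_d (mem_filter.mp hm).1 (h0 l m hm)).trans
        (le_sup (f := G.d) (mem_filter.mp hm).1)))]
    refine sum_congr rfl fun i _ => (sum_fiberwise_of_maps_to (fun m hm => ?_) _).symm
    obtain ⟨a1, a2⟩ := mem_filter.mp hm
    exact mem_image_of_mem _ (mem_filter.mpr ⟨(mem_filter.mp a1).1, h0 l m a1, a2⟩)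
  have h2 : ∀ l i v, ∀ m ∈ A l i v, m ∈ G.s ∧ τ l < v ∧ v ≤ m ∧ i ≤ G.d m ∧ G.p m i = v :=
    fun l i v m hm => by
      obtain ⟨a1, a2⟩ := mem_filter.mp hm
      obtain ⟨a3, a4⟩ := mem_filter.mp a1
      obtain ⟨a5, a6⟩ := mem_filter.mp a3
      exact ⟨a5, a2 ▸ a4 ▸ a6, a2 ▸ G.le a5 i, a4 ▸ G.ell_le_d a5 (h0 l m a3), a2⟩
  simp only [h1]
  rw [sum_comm]
  refine le_trans (sum_le_sum (g := fun i => (1 / 2 : ℝ) ^ i * ((max G.nr w : ℕ) * β))
    fun i _ => ?_) ?_
  · rw [sum_comm]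
    refine (sum_le_card_nsmul _ _ ((1 / 2) ^ i * β) fun v _ => sum_le_of_one (by positivity)
      (fun l _ => (node_le (hz l) G (fun m hm => (h2 l i v m hm).1)
        (fun m hm => (h2 l i v m hm).2.2.2.1) fun m hm m' hm' =>
          (h2 l i v m hm).2.2.2.2.trans (h2 l i v m' hm').2.2.2.2.symm).trans
        (mul_le_mul_of_nonneg_left (hβ l _) (by positivity))) fun l l' e => ?_).trans ?_
    · rcases lt_or_ge (τ l') v with c | c
      · refine Or.inl (sum_nonpos fun m hm => ?_)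
        rw [hz' l m ((hτ e).trans_lt (c.trans_le (h2 l i v m hm).2.2.1)), mul_zero]
      · exact Or.inr (sum_nonpos fun m hm => absurd (h2 l' i v m hm).2.1 c.not_gt)
    · rw [nsmul_eq_mul, mul_left_comm]
      have : ((V i).card : ℝ) ≤ (max G.nr w : ℕ) := Nat.cast_le.mpr (G.card_ell w i)
      gcongr
  · rw [← sum_mul, mul_assoc]
    exact mul_le_mul_of_nonneg_right (sum_geometric_two_le M) (by positivity)

end Pool.Agent.Lib.MP_740c08_an
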