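import Mathlib

set_option autoImplicit false

namespace Pool.Agent.Lib.MP_740c08_an

open Filter Topology

variable (𝕜 : Type*) [RCLike 𝕜] {X : Type*} [NormedAddCommGroup X] [NormedSpace 𝕜 X]

/-- `k < E 1 < ... < E k` for nonempty finite sets of positive integers. -/
def Admissible (k : ℕ) (E : Fin k → Finset ℕ+) : Prop :=
  (∀ i, (E i).Nonempty) ∧ (∀ i, ∀ m ∈ E i, k < (m : ℕ)) ∧
    ∀ i j, i < j → ∀ a ∈ E i, ∀ b ∈ E j, a < b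

/-- `X` is the completion of `c₀₀` (embedded by `ι`) for the norm of Tsirelson: the norm of `a` is
the supremum of the numbers `|a n|` and `(1/2) ∑ ‖E i a‖`, `k < E 1 < ... < E k`. -/
def IsTsirelson (ι : (ℕ+ →₀ 𝕜) →ₗ[𝕜] X) : Prop :=
  DenseRange ι ∧ ∀ a : ℕ+ →₀ 𝕜,
    IsLUB ({r | ∃ n, r = ‖a n‖} ∪ {r | ∃ (k : ℕ) (E : Fin k → Finset ℕ+), Admissible k E ∧
      r = 1 / 2 * ∑ i, ‖ι (a.filter (· ∈ E i))‖}) ‖ι a‖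

/-- `A` meets every closed infinite-dimensional subspace. -/
def IsAsymptotic (A : Set X) : Prop :=
  ∀ Y : Submodule 𝕜 X, IsClosed (Y : Set X) → ¬ FiniteDimensional 𝕜 Y → (A ∩ Y).Nonempty

/-- An asymptotic biorthogonal system on `X`. -/
def IsABS (A : ℕ → Set X) (A' : ℕ → Set (StrongDual 𝕜 X)) : Prop :=
  (∀ n, ∀ x ∈ A n, ‖x‖ = 1) ∧ (∀ n, ∀ f ∈ A' n, ‖f‖ ≤ 1) ∧ (∀ n, IsAsymptotic 𝕜 (A n)) ∧
    (∀ n, ∀ x ∈ A n, ∃ f ∈ A' n, 1 / 2 ≤ ‖f x‖) ∧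
    ∃ δ : ℕ → ℝ, Tendsto δ atTop (𝓝 0) ∧
      ∀ n m, n ≠ m → ∀ x ∈ A n, ∀ f ∈ A' m, ‖f x‖ ≤ δ (min n m)

end Pool.Agent.Lib.MP_740c08_an
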