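import Pool.Agent.Lib.MP_740c08_an.TsCore
import Pool.Agent.Lib.MP_740c08_an.TsDefs

set_option autoImplicit false

/-! Averaging good vectors. -/

namespace Pool.Agent.Lib.MP_740c08_an

open Finset

variable {𝕜 : Type*} [RCLike 𝕜]

/-- The absolute values of the coordinates. -/
noncomputable def ab (a : ℕ →₀ 𝕜) : ℕ → ℝ := fun m => ‖a m‖

theorem ab_nonneg (a : ℕ →₀ 𝕜) : 0 ≤ ab a := fun _ => norm_nonneg _

theorem ab_zero {a : ℕ →₀ 𝕜} {t : ℕ} (h : ∀ m ∈ a.support, t < m) : ∀ m ≤ t, ab a m = 0 :=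
  fun m hm => norm_eq_zero.mpr (Finsupp.notMem_support_iff.mp fun e => (h m e).not_ge hm)

theorem exists_chain (P : ℕ → (ℕ →₀ 𝕜) → Prop) (t₀ : ℕ) (h : ∀ t, t₀ ≤ t → ∃ a, P t a) :
    ∃ (τ : ℕ → ℕ) (Z : ℕ → ℕ →₀ 𝕜), τ 0 = t₀ ∧ Monotone τ ∧ (∀ l, P (τ l) (Z l)) ∧
      ∀ l, ∀ m ∈ (Z l).support, m ≤ τ (l + 1) := by
  choose! f hf using h
  let τ : ℕ → ℕ := fun l => Nat.rec t₀ (fun _ t => max t ((f t).support.sup id)) l
  have hτ : Monotone τ := monotone_nat_of_le_succ fun l => le_max_left _ _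
  exact ⟨τ, fun l => f (τ l), rfl, hτ, fun l => hf _ (hτ (Nat.zero_le l)),
    fun l m hm => le_max_of_le_right (le_sup (f := id) hm)⟩

theorem exists_union (n : ℕ) (τ : ℕ → ℕ) (hτ : Monotone τ) (F : ℕ → Fo)
    (h1 : ∀ l, ∀ m ∈ (F l).s, τ l < (F l).p m 0 ∧ m ≤ τ (l + 1)) :
    ∃ U : Fo, U.nr ≤ ∑ l ∈ range n, (F l).nr ∧
      (∀ m ∈ U.s, ∃ l < n, m ∈ (F l).s ∧ U.d m = (F l).d m ∧ U.p m = (F l).p m) ∧
      ∀ (x : ℕ → ℝ) (z : ℕ → ℕ → ℝ), (∀ l < n, ∀ m ∈ (F l).s, x m = z l m) →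
        U.val x = ∑ l ∈ range n, (F l).val (z l) := by
  let κ : ℕ → ℕ := fun m => sInf {l | m ≤ τ (l + 1)}
  have hκ : ∀ l ∈ range n, ∀ m ∈ (F l).s, κ m = l := fun l _ m hm =>
    le_antisymm (Nat.sInf_le (h1 l m hm).2) (not_lt.mp fun e => by
      have a1 : m ≤ τ (κ m + 1) := Nat.sInf_mem (s := {l | m ≤ τ (l + 1)}) ⟨l, (h1 l m hm).2⟩
      have a2 := hτ (show κ m + 1 ≤ l from e)
      have a3 := (h1 l m hm).1
      have a4 := (F l).le hm 0
      omega)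
  refine ⟨Fo.union (range n) F κ hκ fun l _ l' _ e m hm m' hm' e' => ?_, Fo.nr_union .., ?_, ?_⟩
  · have a1 := h1 l m hm
    have a2 := h1 l' m' hm'
    have a3 := (F l).le hm 0
    rcases lt_or_gt_of_ne e with c | c
    · have := hτ (show l + 1 ≤ l' from c)
      omega
    · have := hτ (show l' + 1 ≤ l from c)
      omega
  · intro m hm
    obtain ⟨l, hl, hm'⟩ := mem_biUnion.mp hm
    exact ⟨l, mem_range.mp hl, hm', by rw [← hκ l hl m hm']; rfl, by rw [← hκ l hl m hm']; rfl⟩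
  · intro x z h
    refine (Fo.sum_union _ F κ hκ fun l m => (1 / 2 : ℝ) ^ (F l).d m * x m).trans
      (sum_congr rfl fun l hl => sum_congr rfl fun m hm => ?_)
    rw [h l (mem_range.mp hl) m hm]

theorem sum_apply_eq {n : ℕ} {τ : ℕ → ℕ} (hτ : Monotone τ) {Z : ℕ → ℕ →₀ 𝕜}
    (h1 : ∀ l, ∀ m ∈ (Z l).support, τ l < m) (h2 : ∀ l, ∀ m ∈ (Z l).support, m ≤ τ (l + 1))
    {l m : ℕ} (hl : l < n) (h3 : τ l < m) (h4 : m ≤ τ (l + 1)) :
    (∑ l ∈ range n, Z l) m = Z l m := by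
  rw [Finsupp.finsetSum_apply]
  refine sum_eq_single_of_mem l (mem_range.mpr hl) fun l' _ e => by_contra fun c => ?_
  have a1 := h1 l' m (Finsupp.mem_support_iff.mpr c)
  have a2 := h2 l' m (Finsupp.mem_support_iff.mpr c)
  rcases lt_or_gt_of_ne e with c | c
  · have := hτ (show l' + 1 ≤ l from c)
    omega
  · have := hτ (show l + 1 ≤ l' from c)
    omega

theorem lt_of_mem_sum {n t : ℕ} {τ : ℕ → ℕ} (hτ : Monotone τ) {Z : ℕ → ℕ →₀ 𝕜} (ht : t ≤ τ 0)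
    (h1 : ∀ l, ∀ m ∈ (Z l).support, τ l < m) (c : 𝕜) :
    ∀ m ∈ (c • ∑ l ∈ range n, Z l).support, t < m := fun m hm => by
  obtain ⟨l, -, hl⟩ := mem_biUnion.mp (Finsupp.support_finsetSum (Finsupp.support_smul hm))
  exact (ht.trans (hτ (Nat.zero_le l))).trans_lt (h1 l m hl)

/-- A good vector. -/
structure Good (D : Seminorm 𝕜 (ℕ →₀ 𝕜)) (t : ℕ) (u : ℕ → ℕ) (β γ ε : ℝ) (a : ℕ →₀ 𝕜) : Prop where
  supp : ∀ m ∈ a.support, t < m
  inv : Inv (ab a) t u β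
  hon : ∃ G : Fo, G.nr ≤ 1 ∧ (∀ m ∈ G.s, t < G.p m 0 ∧ m ∈ a.support ∧ u (G.y m) = 0) ∧
    γ ≤ G.val (ab a)
  cl : D a ≤ ε

/-- The transition condition. -/
def TC (t w : ℕ) (u : ℕ → ℕ → ℕ) (u' : ℕ → ℕ) : Prop :=
  ∀ t' i p y, w ≤ t' → (∀ j ≤ i, t < p j ∧ p j ≤ t') → w < p i →
    u' (run p (i + 1) y) ≤ u t' y + i

theorem exists_small (Δ w : ℕ) (β : ℝ) {η : ℝ} (hη : 0 < η) : ∃ n : ℕ, 1 ≤ n ∧
    2 * (2 ^ Δ * (1 / 2) ^ n * β) + 2 / n * (2 ^ Δ * (2 * w * β)) ≤ η := by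
  have h1 := ((tendsto_pow_atTop_nhds_zero_of_lt_one (r := (1 / 2 : ℝ)) (by norm_num)
    (by norm_num)).const_mul (2 ^ Δ)).mul_const β |>.const_mul 2
  have h2 := (tendsto_const_div_atTop_nhds_zero_nat (2 : ℝ)).mul_const (2 ^ Δ * (2 * w * β))
  have h3 := h1.add h2
  simp only [mul_zero, zero_mul, add_zero] at h3
  exact (((h3.eventually (ge_mem_nhds hη)).and (Filter.eventually_ge_atTop 1)).exists).imp
    fun n h => ⟨h.2, h.1⟩

theorem transition {D : Seminorm 𝕜 (ℕ →₀ 𝕜)} {u : ℕ → ℕ → ℕ} {u' : ℕ → ℕ} {β γ : ℝ} {t w Δ : ℕ}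
    (h : ∀ t', w ≤ t' → ∀ ε > 0, ∃ a, Good D t' (u t') β γ ε a) (htw : t ≤ w) (hu : ∀ y, u' y ≤ Δ)
    (hT : TC t w u u') {η ε : ℝ} (hη : 0 < η) (hε : 0 < ε) : ∃ a, Good D t u' (β + η) γ ε a := by
  obtain ⟨n, hn, hη'⟩ := exists_small Δ (max (t ^ 2) w) β hη
  have hn' : (0 : ℝ) < n := Nat.cast_pos.mpr hn
  obtain ⟨τ, Z, h0, hτ, hZ, hs⟩ := exists_chain (fun t' a => Good D t' (u t') β γ (ε / 2) a)
    (max n w + 1) fun t' ht' => h t' (by omega) _ (half_pos hε)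
  have hq : ∀ l, max n w + 1 ≤ τ l := fun l => h0 ▸ hτ (Nat.zero_le l)
  have hc : ‖((2 / n : ℝ) : 𝕜)‖ = 2 / n := by rw [RCLike.norm_ofReal, abs_of_pos (by positivity)]
  have hν : ∀ l B, nu (ab (Z l)) B ≤ β := fun l => (hZ l).inv.nu_le (ab_nonneg _)
    (ab_zero (hZ l).supp) (by have := hq l; omega)
  have hβ := (nu_nonneg (ab_nonneg _) ∅).trans (hν 0 ∅)
  refine ⟨((2 / n : ℝ) : 𝕜) • ∑ l ∈ range n, Z l, lt_of_mem_sum hτ (by omega)
    (fun l => (hZ l).supp) _, fun G hG hG' => ?_, ?_, ?_⟩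
  · have a1 : ∀ l, ∑ m ∈ G.s, (1 / 2 : ℝ) ^ G.d m * 2 ^ u' (G.y m) * ab (Z l) m ≤
        (β / 2 + 2 ^ Δ * (1 / 2) ^ n * β) + 2 ^ Δ * ∑ m ∈ G.s.filter fun m =>
          τ l < G.p m (G.ell w m), (1 / 2 : ℝ) ^ G.d m * ab (Z l) m := fun l => by
      have b0 := hq l
      rw [← sum_filter_add_sum_filter_not G.s fun m => τ l < G.p m (G.ell w m), add_comm]
      refine add_le_add ?_ ?_
      · let B := G.s.filter fun m => ¬ τ l < G.p m (G.ell w m) ∧ τ l < m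
        rw [← sum_subset (s₁ := B) (fun m hm => mem_filter.mpr
          ⟨(mem_filter.mp hm).1, (mem_filter.mp hm).2.1⟩) fun m hm hm' => by
            rw [ab_zero (hZ l).supp m (not_lt.mp fun e => hm' (mem_filter.mpr
              ⟨(mem_filter.mp hm).1, (mem_filter.mp hm).2, e⟩)), mul_zero]]
        have b1 : ∀ m ∈ B, G.p m 0 ≤ τ l ∧ τ l < m := fun m hm => by
          obtain ⟨c1, c2, c3⟩ := mem_filter.mp hm
          exact ⟨(G.mono' c1 (Nat.zero_le _)).trans (not_lt.mp c2), c3⟩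
        refine ((hZ l).inv.split (ab_nonneg _) (ab_zero (hZ l).supp) (by omega)
          (G.res B (filter_subset _ _)) (le_trans (card_le_one.mpr fun a ha b hb => ?_) (by omega))
          (fun m => u' (G.y m)) 1 Δ (fun _ _ => hu _) fun m hm _ => ?_).trans ?_
        · obtain ⟨a, ha', rfl⟩ := mem_image.mp ha
          obtain ⟨b, hb', rfl⟩ := mem_image.mp hb
          exact G.same (mem_filter.mp ha').1 (mem_filter.mp hb').1
            ((b1 b hb').1.trans (b1 a ha').2.le) ((b1 a ha').1.trans (b1 b hb').2.le)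
        · obtain ⟨c1, c2, c3⟩ := mem_filter.mp hm
          change u' (G.y m) + 1 ≤ u (τ l) (run (fun k => G.p m (k + G.ell (τ l) m))
            (G.d m - G.ell (τ l) m) 0) + G.ell (τ l) m
          have c4 := G.lt_ell c1 c3
          have c5 : G.ell w m < G.ell (τ l) m := not_le.mp fun e => c2 (c4.trans_le (G.mono' c1 e))
          have c6 := G.ell_le_d c1 c3
          have c7 := G.lt_ell (t := w) c1 (by omega)
          have c8 := fun j => G.le_of_lt_ell (t := τ l) (m := m) (i := j)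
          rw [G.y_eq c6]
          obtain ⟨i, hi⟩ : ∃ i, G.ell (τ l) m = i + 1 := ⟨G.ell (τ l) m - 1, by omega⟩
          rw [hi] at c5 c8 ⊢
          exact Nat.succ_le_succ (hT (τ l) i _ _ (by omega) (fun j hj =>
            ⟨(hG' m c1).trans_le (G.mono' c1 (Nat.zero_le j)), c8 j (by omega)⟩)
            (c7.trans_le (G.mono' c1 (by omega))))
        · have : (1 / 2 : ℝ) ^ (τ l - 1) ≤ (1 / 2) ^ n :=
            pow_le_pow_of_le_one (by norm_num) (by norm_num) (by omega)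
          refine add_le_add (le_of_eq (by ring)) (by gcongr)
      · rw [mul_sum]
        refine sum_le_sum fun m _ => ?_
        rw [← mul_assoc, mul_comm ((2 : ℝ) ^ Δ)]
        exact mul_le_mul_of_nonneg_right (mul_le_mul_of_nonneg_left
          (pow_le_pow_right₀ one_le_two (hu _)) (by positivity)) (ab_nonneg _ m)
    have a2 := bad_le G w n τ hτ (by omega) (fun l => ab (Z l)) (fun l => ab_nonneg _)
      (fun l m e => norm_eq_zero.mpr (Finsupp.notMem_support_iff.mp fun c =>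
        (hs l m c).not_gt e)) hν
    have a3 : (2 : ℝ) * (max G.nr w : ℕ) * β ≤ 2 * (max (t ^ 2) w : ℕ) * β := by gcongr
    have a4 := sum_le_sum fun l (_ : l ∈ range n) => a1 l
    rw [sum_add_distrib, sum_const, card_range, nsmul_eq_mul, ← mul_sum, sum_comm] at a4
    refine le_trans (sum_le_sum fun m _ => ?_) (le_trans (le_of_eq (mul_sum _ _ (2 / n : ℝ)).symm)
      ((mul_le_mul_of_nonneg_left (a4.trans (add_le_add le_rfl (mul_le_mul_of_nonneg_left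
        (a2.trans a3) (by positivity)))) (by positivity)).trans ?_))
    · rw [← mul_sum, mul_left_comm, ab, Finsupp.smul_apply, norm_smul, hc, Finsupp.finsetSum_apply]
      gcongr
      exact norm_sum_le _ _
    · rw [mul_add, ← mul_assoc, div_mul_cancel₀ _ hn'.ne']
      linarith
  · choose F b1 b2 b3 using fun l => (hZ l).hon
    obtain ⟨U, c1, c2, c3⟩ := exists_union n τ hτ F fun l m hm =>
      ⟨(b2 l m hm).1, hs l m (b2 l m hm).2.1⟩
    have c4 : U.nr ≤ max n w + 1 := c1.trans ((sum_le_sum fun l _ => b1 l).trans (by simp; omega))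
    have c5 : ∀ m ∈ U.s, max n w + 1 ≤ U.p m 0 := fun m hm => by
      obtain ⟨l, -, d1, -, d2⟩ := c2 m hm
      rw [d2]
      exact (hq l).trans (b2 l m d1).1.le
    have c6 : ∀ l < n, ∀ m ∈ (F l).s, (((2 / n : ℝ) : 𝕜) • ∑ l ∈ range n, Z l) m =
        ((2 / n : ℝ) : 𝕜) * Z l m := fun l hl m hm => by
      rw [Finsupp.smul_apply, sum_apply_eq hτ (fun l => (hZ l).supp) hs hl
        ((hZ l).supp m (b2 l m hm).2.1) (hs l m (b2 l m hm).2.1), smul_eq_mul]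
    refine ⟨U.graft _ c4 c5, Fo.nr_graft .., fun m hm => ⟨by change t < max n w + 1; omega, ?_⟩, ?_⟩
    · obtain ⟨l, hl, d1, d2, d3⟩ := c2 m hm
      refine ⟨Finsupp.mem_support_iff.mpr ?_, ?_⟩
      · rw [c6 l hl m d1]
        exact mul_ne_zero (norm_pos_iff.mp (by rw [hc]; positivity))
          (Finsupp.mem_support_iff.mp (b2 l m d1).2.1)
      · have d4 := hT (τ l) 0 (fun _ => max n w + 1) ((F l).y m) (by have := hq l; omega)
          (fun _ _ => ⟨by omega, hq l⟩) (by omega)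
        rw [(b2 l m d1).2.2] at d4
        refine Nat.le_zero.mp (le_trans (le_of_eq (congrArg u' ?_)) d4)
        change run _ (U.d m + 1) 0 = _
        rw [run_add, Fo.y, ← d2, ← d3]
        rfl
    · rw [Fo.val_graft, c3 _ (fun l m => 2 / n * ab (Z l) m) fun l hl m hm => by
        rw [ab, c6 l hl m hm, norm_mul, hc, ab]]
      have d1 : ∀ l ∈ range n, 2 / n * γ ≤ (F l).val fun m => 2 / n * ab (Z l) m := fun l _ => by
        refine (mul_le_mul_of_nonneg_left (b3 l) (by positivity)).trans (le_of_eq ?_)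
        rw [Fo.val, Fo.val, mul_sum]
        exact sum_congr rfl fun m _ => mul_left_comm _ _ _
      have d2 := sum_le_sum d1
      rw [sum_const, card_range, nsmul_eq_mul, ← mul_assoc, mul_div_cancel₀ _ hn'.ne'] at d2
      linarith
  · rw [map_smul_eq_mul, hc]
    have : D (∑ l ∈ range n, Z l) ≤ n * (ε / 2) :=
      (le_sum_of_subadditive D (map_zero D).le (map_add_le_add D) _ _).trans
        ((sum_le_sum fun l _ => (hZ l).cl).trans (by simp))
    refine (mul_le_mul_of_nonneg_left this (by positivity)).trans (le_of_eq ?_)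
    field_simp

end Pool.Agent.Lib.MP_740c08_an

/-! Flat vectors with little mass in a window, and the towers built over them. -/

namespace Pool.Agent.Lib.MP_740c08_an

open Finset

variable {𝕜 : Type*} [RCLike 𝕜]

/-- The norm of a finitely supported vector. -/
noncomputable def tn (a : ℕ →₀ 𝕜) : ℝ := nu (ab a) a.support

theorem nu_le_tn (a : ℕ →₀ 𝕜) (B : Finset ℕ) : nu (ab a) B ≤ tn a :=
  (nu_le_of_le (ab_nonneg a) zero_le_one (fun _ _ => (one_mul _).ge) fun _ _ h =>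
    (norm_eq_zero.mpr (Finsupp.notMem_support_iff.mp h)).le).trans_eq (one_mul _)

theorem tn_smul_le (c : 𝕜) (a : ℕ →₀ 𝕜) : tn (c • a) ≤ ‖c‖ * tn a :=
  nu_le_of_le (ab_nonneg a) (norm_nonneg c) (fun _ _ => (norm_smul _ _).le) fun _ h h' =>
    absurd (Finsupp.support_smul h) h'

theorem tn_smul (c : 𝕜) (a : ℕ →₀ 𝕜) : tn (c • a) = ‖c‖ * tn a := by
  refine le_antisymm (tn_smul_le c a) ?_
  rcases eq_or_ne c 0 with rfl | h
  · rw [norm_zero, zero_mul]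
    exact nu_nonneg (ab_nonneg _) _
  · have := tn_smul_le c⁻¹ (c • a)
    rw [inv_smul_smul₀ h, norm_inv] at this
    exact (le_inv_mul_iff₀ (norm_pos_iff.mpr h)).mp this

theorem val_le_nr {x : ℕ → ℝ} (hx : 0 ≤ x) {β : ℝ} (h : ∀ B, nu x B ≤ β) (G : Fo) :
    G.val x ≤ G.nr * β :=
  (val_le_roots hx G).trans ((sum_le_card_nsmul _ _ β fun _ _ => h _).trans_eq (nsmul_eq_mul _ _))

theorem val_sum_le {n : ℕ} {τ : ℕ → ℕ} (hτ : Monotone τ) {Z : ℕ → ℕ →₀ 𝕜}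
    (h1 : ∀ l, ∀ m ∈ (Z l).support, τ l < m) (h2 : ∀ l, ∀ m ∈ (Z l).support, m ≤ τ (l + 1))
    (h3 : ∀ l, tn (Z l) = 1) (G : Fo) : G.val (ab (∑ l ∈ range n, Z l)) ≤ n + G.nr := by
  let B : ℕ → Finset ℕ := fun l => G.s.filter fun m => m ∈ (Z l).support
  let κ : ℕ → ℕ := fun v => sInf {l | v ≤ τ (l + 1)}
  have a1 : ∀ l, (G.res (B l) (filter_subset _ _)).nr ≤
      1 + ((G.s.image fun m => G.p m 0).filter fun v => κ v = l).card := fun l => by
    rw [Fo.nr, ← card_filter_add_card_filter_not (p := fun v => v ≤ τ l)]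
    refine add_le_add (card_le_one.mpr fun a ha b hb => ?_) (card_le_card fun v hv => ?_)
    · obtain ⟨b1, b2⟩ := mem_filter.mp ha
      obtain ⟨b3, b4⟩ := mem_filter.mp hb
      obtain ⟨a, ha', rfl⟩ := mem_image.mp b1
      obtain ⟨b, hb', rfl⟩ := mem_image.mp b3
      exact G.same (mem_filter.mp ha').1 (mem_filter.mp hb').1
        (le_trans b4 (h1 l a (mem_filter.mp ha').2).le)
        (le_trans b2 (h1 l b (mem_filter.mp hb').2).le)
    · obtain ⟨b1, b2⟩ := mem_filter.mp hv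
      obtain ⟨a, ha, rfl⟩ := mem_image.mp b1
      obtain ⟨b3, b4⟩ := mem_filter.mp ha
      have b5 : G.p a 0 ≤ τ (l + 1) := (G.le b3 0).trans (h2 l a b4)
      refine mem_filter.mpr ⟨mem_image_of_mem _ b3,
        le_antisymm (Nat.sInf_le b5) (not_lt.mp fun e => b2 ?_)⟩
      exact le_trans (Nat.sInf_mem (s := {l | G.p a 0 ≤ τ (l + 1)}) ⟨l, b5⟩) (hτ e)
  have a2 : ∑ l ∈ range n, (G.res (B l) (filter_subset _ _)).nr ≤ n + G.nr := by
    refine (sum_le_sum fun l _ => a1 l).trans ?_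
    rw [sum_add_distrib, sum_card_fiberwise_eq_card_filter, sum_const, card_range, smul_eq_mul,
      mul_one]
    exact Nat.add_le_add_left (card_filter_le _ _) _
  refine le_trans ?_ (by exact_mod_cast a2 :
    ∑ l ∈ range n, ((G.res (B l) (filter_subset _ _)).nr : ℝ) ≤ _)
  refine le_trans ?_ (sum_le_sum fun l _ => (val_le_nr (ab_nonneg (Z l))
    (fun B => (nu_le_tn _ B).trans_eq (h3 l)) _).trans_eq (mul_one _))
  have a3 : ∀ l, (G.res (B l) (filter_subset _ _)).val (ab (Z l)) = G.val (ab (Z l)) := fun l =>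
    sum_subset (filter_subset _ _) fun m hm hm' => by
      rw [ab, Finsupp.notMem_support_iff.mp fun e => hm' (mem_filter.mpr ⟨hm, e⟩), norm_zero,
        mul_zero]
  simp only [a3]
  simp only [Fo.val]
  rw [sum_comm]
  refine sum_le_sum fun m _ => ?_
  rw [← mul_sum, ab, Finsupp.finsetSum_apply]
  gcongr
  exact norm_sum_le _ _

variable {D : Seminorm 𝕜 (ℕ →₀ 𝕜)}

/-- There are normalized vectors arbitrarily far out on which `D` is small. -/
def Supply (D : Seminorm 𝕜 (ℕ →₀ 𝕜)) : Prop :=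
  ∀ t, ∀ ε > 0, ∃ a : ℕ →₀ 𝕜, (∀ m ∈ a.support, t < m) ∧ tn a = 1 ∧ D a ≤ ε

theorem exists_flat (h : Supply D) (R t : ℕ) {ε : ℝ} (hε : 0 < ε) : ∃ a : ℕ →₀ 𝕜,
    (∀ m ∈ a.support, t < m) ∧ tn a = 1 ∧ D a ≤ ε ∧ ∀ G : Fo, G.nr ≤ R → G.val (ab a) ≤ 3 / 2 := by
  by_contra hc
  push Not at hc
  set n := 8 * R + 1 with hn
  have hn' : (0 : ℝ) < n := by positivity
  have key : ∀ j : ℕ, ∀ t', t ≤ t' → ∀ ε', 0 < ε' → ε' ≤ ε → ∃ a : ℕ →₀ 𝕜,
      (∀ m ∈ a.support, t' < m) ∧ tn a = 1 ∧ D a ≤ ε' ∧ ∃ G : Fo, G.nr ≤ n ^ j ∧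
        (∀ m ∈ G.s, t' < G.p m 0 ∧ m ∈ a.support) ∧ (4 / 3) ^ j * (9 / 10) ≤ G.val (ab a) := by
    intro j
    induction j with
    | zero =>
      intro t' _ ε' h1 _
      obtain ⟨a, a1, a2, a3⟩ := h t' ε' h1
      obtain ⟨G, b1, b2, b3, b4⟩ := exists_tree (x := ab a) (B := a.support) (r := 9 / 10)
        (t := t' + 1) (by rw [← tn, a2]; norm_num) a1
      exact ⟨a, a1, a2, a3, G, b1, fun m hm => ⟨b3 m hm, b2 hm⟩, by simpa using b4.le⟩
    | succ j ih =>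
      intro t' h0 ε' h1 h2
      obtain ⟨τ, Z, a0, hτ, hZ, hs⟩ := exists_chain _ t' fun t'' h3 => ih t'' (h0.trans h3) (ε' / n)
        (by positivity) ((div_le_self h1.le (by exact_mod_cast Nat.le_add_left 1 _)).trans h2)
      choose a1 a2 a3 F a4 a5 a6 using hZ
      set s := ∑ l ∈ range n, Z l
      have b1 : 1 ≤ tn s := by
        rw [← a2 0, ← one_mul (tn s)]
        refine nu_le_of_le (ab_nonneg s) zero_le_one (fun m hm => ?_) fun m hm hm' => ?_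
        · rw [one_mul, ab, ab, sum_apply_eq hτ a1 hs (Nat.succ_pos _) (a1 0 m hm) (hs 0 m hm)]
        · rw [ab, ← sum_apply_eq hτ a1 hs (Nat.succ_pos (8 * R)) (a1 0 m hm) (hs 0 m hm),
            Finsupp.notMem_support_iff.mp hm', norm_zero]
      have b2 : 0 < (tn s)⁻¹ := by positivity
      have b3 : ‖(((tn s)⁻¹ : ℝ) : 𝕜)‖ = (tn s)⁻¹ := by rw [RCLike.norm_ofReal, abs_of_pos b2]
      have b4 := lt_of_mem_sum (n := n) hτ a0.ge a1 (((tn s)⁻¹ : ℝ) : 𝕜)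
      have b5 : tn ((((tn s)⁻¹ : ℝ) : 𝕜) • s) = 1 := by
        rw [tn_smul, b3, inv_mul_cancel₀ (by linarith)]
      have b6 : D ((((tn s)⁻¹ : ℝ) : 𝕜) • s) ≤ ε' := by
        have : D s ≤ ε' := (le_sum_of_subadditive D (map_zero D).le (map_add_le_add D) _ _).trans
          ((sum_le_sum fun l _ => a3 l).trans (by
            rw [sum_const, card_range, nsmul_eq_mul, mul_div_cancel₀ _ hn'.ne']))
        rw [map_smul_eq_mul, b3]
        exact (mul_le_of_le_one_left (apply_nonneg _ _) (inv_le_one_of_one_le₀ b1)).trans this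
      have b7 : ∀ G : Fo, G.val (ab ((((tn s)⁻¹ : ℝ) : 𝕜) • s)) = (tn s)⁻¹ * G.val (ab s) :=
        fun G => by
          rw [Fo.val, Fo.val, mul_sum]
          exact sum_congr rfl fun m _ => by
            rw [ab, Finsupp.smul_apply, norm_smul, b3, mul_left_comm, ab]
      obtain ⟨G, c1, c2⟩ := hc _ (fun m hm => h0.trans_lt (b4 m hm)) b5 (b6.trans h2)
      have c3 := val_sum_le (n := n) hτ a1 hs a2 G
      have c4 : (G.nr : ℝ) ≤ R := Nat.cast_le.mpr c1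
      have c5 : (n : ℝ) = 8 * R + 1 := by rw [hn]; push_cast; ring
      rw [b7, lt_inv_mul_iff₀ (by linarith)] at c2
      obtain ⟨U, d1, d2, d3⟩ := exists_union n τ hτ F fun l m hm =>
        ⟨(a5 l m hm).1, hs l m (a5 l m hm).2⟩
      have d4 : ∀ l < n, ∀ m ∈ (F l).s, s m = Z l m := fun l hl m hm =>
        sum_apply_eq hτ a1 hs hl (a1 l m (a5 l m hm).2) (hs l m (a5 l m hm).2)
      refine ⟨_, b4, b5, b6, U, d1.trans ((sum_le_sum fun l _ => a4 l).trans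
        (by simp [pow_succ'])), fun m hm => ?_, ?_⟩
      · obtain ⟨l, hl, e1, -, e2⟩ := d2 m hm
        refine ⟨e2 ▸ (a0 ▸ hτ (Nat.zero_le l)).trans_lt (a5 l m e1).1, Finsupp.mem_support_iff.mpr ?_⟩
        rw [Finsupp.smul_apply, d4 l hl m e1]
        exact smul_ne_zero (norm_pos_iff.mp (b3.symm ▸ b2))
          (Finsupp.mem_support_iff.mp (a5 l m e1).2)
      · rw [b7, d3 _ (fun l => ab (Z l)) fun l hl m hm => by rw [ab, d4 l hl m hm, ab],
          le_inv_mul_iff₀ (by linarith)]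
        refine le_trans ?_ (sum_le_sum fun l _ => a6 l)
        rw [sum_const, card_range, nsmul_eq_mul, pow_succ]
        have : tn s * (4 / 3) ≤ n := by linarith
        calc _ = tn s * (4 / 3) * ((4 / 3) ^ j * (9 / 10)) := by ring
          _ ≤ _ := by gcongr
  obtain ⟨a, a1, a2, -, G, a3, a4, a5⟩ := key 3 (max t (n ^ 3)) (le_max_left _ _) ε hε le_rfl
  have := val_le_two (ab_nonneg a) G fun m hm =>
    a3.trans ((le_max_right _ _).trans (a1 m (a4 m hm).2).le)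
  have := nu_le_tn a G.s
  linarith

theorem exists_pos_le (S : ℕ) (f : ℕ → ℝ) (h : ∀ s, 0 < f s) : ∃ ε > 0, ∀ s < S, ε ≤ f s := by
  induction S with
  | zero => exact ⟨1, one_pos, by simp⟩
  | succ S ih =>
    obtain ⟨ε, h1, h2⟩ := ih
    refine ⟨min ε (f S), lt_min h1 (h S), fun s hs => ?_⟩
    rcases (Nat.le_of_lt_succ hs).eq_or_lt with rfl | e
    exacts [min_le_right _ _, (min_le_left _ _).trans (h2 s e)]

theorem exists_window (h : Supply D) {c : ℝ} (hc : 0 < c) : ∃ a₀ : ℕ, ∀ t, ∀ ε > 0,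
    ∃ a : ℕ →₀ 𝕜, (∀ m ∈ a.support, t < m) ∧ tn a = 1 ∧ D a ≤ ε ∧
      (∀ G : Fo, G.nr ≤ t ^ 2 → G.val (ab a) ≤ 3 / 2) ∧
      ∀ G : Fo, G.nr ≤ t ^ 2 → (∀ m ∈ G.s, a₀ < G.y m ∧ G.y m ≤ t) → G.val (ab a) ≤ c := by
  by_contra hn
  push Not at hn
  choose T E hE hn using hn
  obtain ⟨r, hr⟩ : ∃ r : ℕ, (12 * (r ^ 1 / 2 ^ r) + 24 * (r ^ 0 / 2 ^ r) : ℝ) < c := by
    have := ((tendsto_pow_const_div_const_pow_of_one_lt 1 (one_lt_two (α := ℝ))).const_mul 12).add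
      ((tendsto_pow_const_div_const_pow_of_one_lt 0 (one_lt_two (α := ℝ))).const_mul 24)
    simp only [mul_zero, add_zero] at this
    exact (this.eventually (gt_mem_nhds hc)).exists
  let α : ℕ → ℕ := fun s => Nat.rec (2 * r) (fun _ a => max a (T a) + 2 * r) s
  have hα : ∀ s, α (s + 1) = max (α s) (T (α s)) + 2 * r := fun _ => rfl
  have hα' : Monotone α := monotone_nat_of_le_succ fun s => by rw [hα]; omega
  obtain ⟨ε, h1, h2⟩ := exists_pos_le (2 ^ r) (fun s => E (α s)) fun s => hE _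
  obtain ⟨a, a1, a2, a3, a4⟩ := exists_flat h (α (2 ^ r) ^ 2) (α (2 ^ r) ^ 2) h1
  have h3 : ∀ s < 2 ^ r, T (α s) ^ 2 ≤ α (2 ^ r) ^ 2 := fun s hs => Nat.pow_le_pow_left
    (by have := hα' (show s + 1 ≤ 2 ^ r from hs); rw [hα] at this; omega) 2
  have h4 := fun s (hs : s < 2 ^ r) => hn (α s) a (fun m hm => ((Nat.le_self_pow two_ne_zero _).trans
    (h3 s hs)).trans_lt (a1 m hm)) a2 (a3.trans (h2 s hs)) fun G hG => a4 G (hG.trans (h3 s hs))
  have : Nonempty Fo := ⟨Fo.leaf 0⟩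
  choose! F b1 b2 b3 using h4
  have h5 := windows (ab_nonneg a) (k := 2 * r + 3) (S := 2 ^ r) (Δ := 2 * r) (by
    have : r + 1 < 2 ^ (r + 1) := Nat.lt_two_pow_self
    calc _ = (r + 2) * 2 ^ (r + 2) := by ring
      _ ≤ 2 ^ (r + 1) * 2 ^ (r + 2) := Nat.mul_le_mul_right _ this
      _ = _ := by ring)
    (fun s => (F s).res ((F s).s ∩ a.support) inter_subset_left) a.support
    (fun _ _ => inter_subset_right) (fun s hs m hm => (((F s).nr_res _ _).trans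
      ((b1 s hs).trans (h3 s hs))).trans (a1 m hm).le)
    (fun s hs m hm => (hα' (Nat.zero_le s)).trans_lt (b2 s hs m (mem_inter.mp hm).1).1)
    fun s s' e hs m hm hm' => by
      have c1 := (b2 s (e.trans hs) m (mem_inter.mp hm).1).2
      have c2 := (b2 s' hs m (mem_inter.mp hm').1).1
      have c3 := hα' (show s + 1 ≤ s' from e)
      rw [hα] at c3
      change (F s).y m + _ < (F s').y m
      omega
  have h6 : ∀ s ∈ range (2 ^ r), c ≤ ((F s).res ((F s).s ∩ a.support) inter_subset_left).val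
      (ab a) := fun s hs => (b3 s (mem_range.mp hs)).le.trans_eq
        (sum_subset inter_subset_left fun m hm hm' => by
          rw [ab, Finsupp.notMem_support_iff.mp fun e => hm' (mem_inter.mpr ⟨hm, e⟩), norm_zero,
            mul_zero]).symm
  have h7 := (sum_le_sum h6).trans h5
  rw [sum_const, card_range, nsmul_eq_mul, ← tn, a2] at h7
  push_cast at h7
  rw [← pow_mul, mul_comm r 2, ← mul_pow] at h7
  rw [← mul_div_assoc, ← mul_div_assoc, ← add_div, div_lt_iff₀ (by positivity)] at hr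
  norm_num at h7 hr
  linarith

/-- The cost function of a node at which the counter is about to be reset. -/
def uR (Δ a t y : ℕ) : ℕ := if t < y then 0 else min Δ (y - a)

/-- The cost function of a node whose counter should be about `h`. -/
def uS (Δ a h y : ℕ) : ℕ := if y < h then Δ else min Δ (y - h - a)

theorem uR_le (Δ a t y : ℕ) : uR Δ a t y ≤ Δ := by unfold uR; split_ifs <;> omega
theorem uS_le (Δ a h y : ℕ) : uS Δ a h y ≤ Δ := by unfold uS; split_ifs <;> omega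

theorem tc1 {Δ a t : ℕ} (w : ℕ) (h : a + 1 + Δ ≤ t) : TC t w (uR Δ a) (uS Δ a 1) := by
  intro t' i p y _ h1 _
  by_cases e : Δ ≤ uR Δ a t' y + i
  · exact (uS_le ..).trans e
  unfold uR at e ⊢
  split_ifs at e ⊢ with c
  · rw [run, step, if_pos ((h1 i le_rfl).2.trans c.le), run_none fun j hj => by
      have := h1 j hj.le; omega, uS]
    split_ifs <;> omega
  · rw [run_none fun j hj => by have := h1 j (by omega); omega, uS]
    split_ifs <;> omega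

theorem tc2 {Δ a h t : ℕ} (w : ℕ) (ht : a + (h + 1) + Δ ≤ t) :
    TC t w (fun _ => uS Δ a h) (uS Δ a (h + 1)) := by
  intro t' i p y _ h1 _
  by_cases e : Δ ≤ uS Δ a h y + i
  · exact (uS_le ..).trans e
  have e' : h ≤ y ∧ y - h - a + i < Δ := by
    unfold uS at e
    split_ifs at e <;> omega
  rw [run_none fun j hj => by have := h1 j (by omega); omega]
  simp only [uS]
  split_ifs <;> omega

theorem tc3 {Δ a t w : ℕ} (h : a + t + Δ ≤ w) : TC t w (fun _ => uS Δ a t) (uR Δ 0 t) := by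
  intro t' i p y _ _ h1
  by_cases e : Δ ≤ uS Δ a t y + i
  · exact (uR_le ..).trans e
  have e' : t ≤ y ∧ y - t - a + i < Δ := by
    unfold uS at e
    split_ifs at e <;> omega
  rw [run, step, if_neg (by omega), uR]
  have := run_cases p i (y + 1)
  split_ifs <;> omega

theorem tower {u : ℕ → ℕ → ℕ} {β γ : ℝ} {Δ a t₀ : ℕ} (hu : u = uR Δ a)
    (h : ∀ η > 0, ∀ t, t₀ ≤ t → ∀ ε > 0, ∃ x, Good D t (u t) (β + η) γ ε x) (j : ℕ) :
    ∀ η > 0, ∀ t, a + (j + 1) + Δ ≤ t → ∀ ε > 0,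
      ∃ x, Good D t (uS Δ a (j + 1)) (β + η) γ ε x := by
  induction j with
  | zero =>
    intro η hη t ht ε hε
    have := transition (w := max t t₀) (fun t' ht' => h _ (half_pos hη) t' (le_of_max_le_right ht'))
      (le_max_left _ _) (uS_le Δ a 1) (hu ▸ tc1 _ ht) (half_pos hη) hε
    rwa [add_assoc _ (η / 2), add_halves] at this
  | succ j ih =>
    intro η hη t ht ε hε
    have := transition (u := fun _ => uS Δ a (j + 1)) (w := t)
      (fun t' ht' => ih _ (half_pos hη) t' (by omega)) le_rfl (uS_le Δ a _) (tc2 _ ht)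
      (half_pos hη) hε
    rwa [add_assoc _ (η / 2), add_halves] at this

theorem exists_good (h : Supply D) (Δ L t : ℕ) (ht : L + 1 + Δ ≤ t) {ε : ℝ} (hε : 0 < ε) :
    ∃ x, Good D t (uS Δ 0 (L + 1)) (17 / 10) (9 / 10) ε x := by
  have hc : (0 : ℝ) < 1 / 20 / 2 ^ Δ := by positivity
  have hc' : (1 : ℝ) / 20 / 2 ^ Δ ≤ 1 / 20 := div_le_self (by norm_num) (one_le_pow₀ one_le_two)
  obtain ⟨a₀, ha⟩ := exists_window h hc
  have h1 : ∀ η > 0, ∀ t, 1 ≤ t → ∀ ε > 0,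
      ∃ x, Good D t (uR Δ a₀ t) (31 / 20 + η) (9 / 10) ε x := fun η hη t ht ε hε => by
    obtain ⟨x, a1, a2, a3, a4, a5⟩ := ha t ε hε
    have a6 : ∀ G : Fo, G.nr ≤ t ^ 2 → ∑ m ∈ G.s.filter fun m => ¬ uR Δ a₀ t (G.y m) = 0,
        (1 / 2 : ℝ) ^ G.d m * ab x m ≤ 1 / 20 / 2 ^ Δ := fun G hG =>
      a5 (G.res _ (filter_subset _ _)) ((G.nr_res _ _).trans hG) fun m hm => by
        have := (mem_filter.mp hm).2
        change a₀ < G.y m ∧ G.y m ≤ t
        unfold uR at this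
        split_ifs at this <;> omega
    refine ⟨x, a1, fun G hG _ => ?_, ?_, a3⟩
    · have b1 := a4 (G.res _ (filter_subset (fun m => uR Δ a₀ t (G.y m) = 0) _))
        ((G.nr_res _ _).trans hG)
      have b2 := (le_div_iff₀' (by positivity)).mp (a6 G hG)
      rw [← sum_filter_add_sum_filter_not G.s fun m => uR Δ a₀ t (G.y m) = 0]
      refine (add_le_add (le_trans (le_of_eq (sum_congr rfl fun m hm => ?_)) b1)
        (le_trans ?_ b2)).trans (by linarith)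
      · rw [(mem_filter.mp hm).2, pow_zero, mul_one]
        rfl
      · rw [mul_sum]
        refine sum_le_sum fun m _ => ?_
        rw [← mul_assoc, mul_comm ((2 : ℝ) ^ Δ)]
        exact mul_le_mul_of_nonneg_right (mul_le_mul_of_nonneg_left
          (pow_le_pow_right₀ one_le_two (uR_le ..)) (by positivity)) (ab_nonneg _ m)
    · obtain ⟨G, b1, b2, b3, b4⟩ := exists_tree (x := ab x) (B := x.support) (r := 19 / 20)
        (t := t + 1) (by rw [← tn, a2]; norm_num) a1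
      refine ⟨G.res _ (filter_subset (fun m => uR Δ a₀ t (G.y m) = 0) _), (G.nr_res _ _).trans b1,
        fun m hm => ⟨b3 m (mem_filter.mp hm).1, b2 (mem_filter.mp hm).1, (mem_filter.mp hm).2⟩, ?_⟩
      have b5 := a6 G (b1.trans (Nat.one_le_pow _ _ ht))
      rw [Fo.val, ← sum_filter_add_sum_filter_not G.s fun m => uR Δ a₀ t (G.y m) = 0] at b4
      change _ ≤ ∑ m ∈ G.s.filter fun m => uR Δ a₀ t (G.y m) = 0, (1 / 2 : ℝ) ^ G.d m * ab x m
      linarith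
  have h2 : ∀ η > 0, ∀ t, 1 ≤ t → ∀ ε > 0,
      ∃ x, Good D t (uR Δ 0 t) (31 / 20 + η) (9 / 10) ε x := fun η hη t ht ε hε => by
    obtain ⟨j, rfl⟩ := Nat.exists_eq_add_of_le' ht
    have := transition (u := fun _ => uS Δ a₀ (j + 1)) (w := max (j + 1) (a₀ + (j + 1) + Δ))
      (fun t' ht' => tower rfl h1 j _ (half_pos hη) t' (le_of_max_le_right ht'))
      (le_max_left _ _) (uR_le Δ 0 _) (tc3 (le_max_right _ _)) (half_pos hη) hε
    rwa [add_assoc _ (η / 2), add_halves] at this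
  have := tower rfl h2 L (3 / 20) (by norm_num) t (by omega) ε hε
  rwa [show (31 / 20 + 3 / 20 : ℝ) = 17 / 10 by norm_num] at this

/-- The vectors of type `L + 1`. -/
theorem exists_type (h : Supply D) (Δ L : ℕ) (hΔ : 1 ≤ Δ) {ε : ℝ} (hε : 0 < ε) : ∃ x : ℕ →₀ 𝕜,
    tn x ≤ 17 / 10 ∧ D x ≤ ε ∧
    (∃ G : Fo, G.nr ≤ 1 ∧ (∀ m ∈ G.s, G.y m = L + 1) ∧ 9 / 10 ≤ G.val (ab x)) ∧
    ∀ (G : Fo) (L' μ : ℕ), G.nr ≤ 1 → (∀ m ∈ G.s, G.y m = L') → μ ≤ Δ → μ ≤ L' →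
      (L' ≤ L ∨ L + 1 + μ ≤ L') → G.val (ab x) ≤ 4 * (1 / 2) ^ μ := by
  obtain ⟨x, h1, h2, ⟨G, h3, h4, h5⟩, h6⟩ := exists_good h Δ L (L + 1 + Δ) le_rfl hε
  refine ⟨x, h2.nu_le (ab_nonneg x) (ab_zero h1) (by omega) _, h6, ⟨G, h3, fun m hm => ?_, h5⟩,
    fun G L' μ a1 a2 a3 a4 a5 => ?_⟩
  · have := (h4 m hm).2.2
    unfold uS at this
    split_ifs at this <;> omega
  · have b1 := h2.split (ab_nonneg x) (ab_zero h1) (by omega) G (by omega) (fun _ => μ) 0 μ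
      (fun _ _ => le_rfl) fun m hm hm' => by
        have c1 := a2 m hm
        rw [G.y_eq (G.ell_le_d hm hm')] at c1
        generalize run _ (G.d m - _) 0 = c at *
        have c2 := run_cases (G.p m) (G.ell (L + 1 + Δ) m) c
        unfold uS
        split_ifs <;> omega
    have b2 : (2 : ℝ) ^ μ * (1 / 2) ^ (L + 1 + Δ - 1) ≤ 1 := by
      rw [one_div, inv_pow, ← div_eq_mul_inv, div_le_one (by positivity)]
      exact pow_le_pow_right₀ one_le_two (by omega)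
    have b3 : ∑ m ∈ G.s, (1 / 2 : ℝ) ^ G.d m * 2 ^ μ * ab x m = 2 ^ μ * G.val (ab x) := by
      rw [Fo.val, mul_sum]
      exact sum_congr rfl fun m _ => by ring
    rw [one_div, inv_pow, ← div_eq_mul_inv, le_div_iff₀' (by positivity), ← b3]
    rw [pow_zero] at b1
    linarith

end Pool.Agent.Lib.MP_740c08_an

/-! The implicit equation determines the norm; existence of the space. -/

namespace Pool.Agent.Lib.MP_740c08_an

open Finset

variable {𝕜 : Type*} [RCLike 𝕜] {X : Type*} [NormedAddCommGroup X] [NormedSpace 𝕜 X]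

/-- Admissible families, coordinates counted from zero. -/
def Adm (k : ℕ) (E : Fin k → Finset ℕ) : Prop :=
  (∀ i, (E i).Nonempty) ∧ (∀ i, ∀ m ∈ E i, k ≤ m) ∧ ∀ i j, i < j → ∀ a ∈ E i, ∀ b ∈ E j, a < b

/-- The implicit equation. -/
def Eqn (N : (ℕ →₀ 𝕜) → ℝ) : Prop := ∀ a : ℕ →₀ 𝕜,
  IsLUB ({r | ∃ n, r = ‖a n‖} ∪ {r | ∃ (k : ℕ) (E : Fin k → Finset ℕ), Adm k E ∧
    r = 1 / 2 * ∑ i, N (a.filter (· ∈ E i))}) (N a)

theorem adm_of_key (B : Finset ℕ) (κ : ℕ → ℕ) (hκ : MonotoneOn κ B)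
    (hc : ∀ m ∈ B, (B.image κ).card ≤ m) (f : Finset ℕ → ℝ) : ∃ (k : ℕ) (E : Fin k → Finset ℕ),
    Adm k E ∧ ∑ i, f (E i) = ∑ v ∈ B.image κ, f (B.filter fun m => κ m = v) := by
  let e := (B.image κ).orderEmbOfFin rfl
  refine ⟨_, fun i => B.filter fun m => κ m = e i, ⟨fun i => ?_,
    fun i m hm => hc m (mem_filter.mp hm).1, fun i j h a ha b hb => not_le.mp fun c => ?_⟩, ?_⟩
  · obtain ⟨m, hm, e'⟩ := mem_image.mp ((B.image κ).orderEmbOfFin_mem rfl i)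
    exact ⟨m, mem_filter.mpr ⟨hm, e'⟩⟩
  · have := hκ (mem_filter.mp hb).1 (mem_filter.mp ha).1 c
    rw [(mem_filter.mp ha).2, (mem_filter.mp hb).2] at this
    exact (e.strictMono h).not_ge this
  · conv_rhs => rw [← (B.image κ).map_orderEmbOfFin_univ rfl, sum_map]
    rfl

theorem tree_cases (G : Fo) (hG : G.nr ≤ 1) (a : ℕ →₀ 𝕜) (N : (ℕ →₀ 𝕜) → ℝ)
    (hN : ∀ (G' : Fo) (b : ℕ →₀ 𝕜), G'.nr ≤ 1 → (∀ m ∈ G'.s, ∃ m' ∈ G.s, G'.d m < G.d m') →
      G'.val (ab b) ≤ N b) {r : ℝ} (h1 : ∀ n, ‖a n‖ ≤ r) (h2 : ∀ (k : ℕ) (E : Fin k → Finset ℕ),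
      Adm k E → 1 / 2 * ∑ i, N (a.filter (· ∈ E i)) ≤ r) : G.val (ab a) ≤ r := by
  have h0 : ∀ m ∈ G.s, ∀ m' ∈ G.s, G.p m 0 = G.p m' 0 := fun m hm m' hm' =>
    card_le_one.mp hG _ (mem_image_of_mem _ hm) _ (mem_image_of_mem _ hm')
  by_cases e : ∃ m ∈ G.s, G.d m = 0
  · obtain ⟨m, hm, e⟩ := e
    rw [Fo.val, eq_singleton_iff_unique_mem.mpr ⟨hm, fun m' hm' =>
      G.eq_of_leaf hm hm' e.le (h0 m hm m' hm')⟩, sum_singleton, e, pow_zero, one_mul]
    exact h1 m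
  · push Not at e
    obtain ⟨k, E, a1, a2⟩ := adm_of_key G.s (fun m => G.p m 1) (G.p_mono 1) (fun m hm =>
      (G.card_le subset_rfl fun m' hm' => ⟨Nat.pos_of_ne_zero (e m' hm'), h0 m' hm' m hm⟩).trans
        (G.le hm 0)) fun B => N (a.filter (· ∈ B))
    refine le_trans ?_ (h2 k E a1)
    rw [a2, Fo.val, ← sum_fiberwise_of_maps_to fun m hm => mem_image_of_mem (fun m => G.p m 1) hm,
      mul_sum]
    refine sum_le_sum fun v _ => le_trans (le_of_eq ?_) (mul_le_mul_of_nonneg_left (hN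
      (G.sub (G.s.filter fun m => G.p m 1 = v) (fun _ => 1) (filter_subset _ _)
        fun _ _ _ _ _ => Or.inl rfl) _ (card_le_one.mpr fun x hx y hy => ?_) fun m hm => ?_)
      (by norm_num))
    · rw [Fo.val, mul_sum]
      refine sum_congr rfl fun m hm => ?_
      change _ = _ * ((1 / 2 : ℝ) ^ (G.d m - 1) * _)
      rw [← mul_assoc, ← pow_succ', Nat.sub_add_cancel (Nat.pos_of_ne_zero
        (e m (mem_filter.mp hm).1)), ab, ab,
        Finsupp.filter_apply_pos (· ∈ G.s.filter fun m => G.p m 1 = v) _ hm]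
    · obtain ⟨x, hx', rfl⟩ := mem_image.mp hx
      obtain ⟨y, hy', rfl⟩ := mem_image.mp hy
      exact (mem_filter.mp hx').2.trans (mem_filter.mp hy').2.symm
    · exact ⟨m, (mem_filter.mp hm).1, Nat.sub_one_lt (e m (mem_filter.mp hm).1)⟩

theorem val_le_tn (G : Fo) (h : G.nr ≤ 1) (a : ℕ →₀ 𝕜) : G.val (ab a) ≤ tn a :=
  (val_le_nu (ab_nonneg a) G h subset_rfl).trans (nu_le_tn a _)

theorem norm_le_tn (a : ℕ →₀ 𝕜) (n : ℕ) : ‖a n‖ ≤ tn a :=
  (le_nu (ab_nonneg a) (mem_singleton_self n)).trans (nu_le_tn a _)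

theorem sum_tn_le (a : ℕ →₀ 𝕜) {k : ℕ} {E : Fin k → Finset ℕ} (h : Adm k E) :
    1 / 2 * ∑ i, tn (a.filter (· ∈ E i)) ≤ tn a := by
  classical
  let B := univ.biUnion E
  let κ : ℕ → ℕ := fun m => if h : ∃ i, m ∈ E i then h.choose else 0
  have h1 : ∀ i, ∀ m ∈ E i, κ m = i := fun i m hm => by
    have e : ∃ i, m ∈ E i := ⟨i, hm⟩
    simp only [κ, dif_pos e]
    rcases lt_trichotomy e.choose i with c | c | c
    · exact absurd (h.2.2 _ _ c m e.choose_spec m hm) (lt_irrefl _)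
    · rw [c]
    · exact absurd (h.2.2 _ _ c m hm m e.choose_spec) (lt_irrefl _)
  have h2 : B.image κ = (univ : Finset (Fin k)).image Fin.val := by
    ext v
    simp only [B, mem_image, mem_biUnion, mem_univ, true_and]
    exact ⟨fun ⟨m, ⟨i, hi⟩, e⟩ => ⟨i, (h1 i m hi).symm.trans e⟩,
      fun ⟨i, e⟩ => (h.1 i).imp fun m hm => ⟨⟨i, hm⟩, (h1 i m hm).trans e⟩⟩
  have h3 := (sum_nu_le (ab_nonneg a) B κ (fun m hm m' hm' e => by
    obtain ⟨i, -, hi⟩ := mem_biUnion.mp hm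
    obtain ⟨j, -, hj⟩ := mem_biUnion.mp hm'
    rw [h1 i m hi, h1 j m' hj]
    exact not_lt.mp fun c => (h.2.2 j i c m' hj m hi).not_ge e) fun m hm => by
      obtain ⟨i, -, hi⟩ := mem_biUnion.mp hm
      rw [h2]
      exact card_image_le.trans (by simpa using h.2.1 i m hi)).trans
    (mul_le_mul_of_nonneg_left (nu_le_tn a B) zero_le_two)
  rw [h2, sum_image Fin.val_injective.injOn] at h3
  have h4 : ∀ i, tn (a.filter (· ∈ E i)) ≤ nu (ab a) (B.filter fun m => κ m = i) := fun i => by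
    refine (nu_le_of_le (ab_nonneg a) zero_le_one (fun m hm => ?_) fun m hm hm' => ?_).trans_eq
      (one_mul _)
    · rw [Finsupp.support_filter] at hm
      rw [one_mul, ab, ab, Finsupp.filter_apply_pos _ _ (mem_filter.mp hm).2]
    · rw [Finsupp.support_filter] at hm
      exact absurd (mem_filter.mpr ⟨mem_biUnion.mpr ⟨i, mem_univ _, (mem_filter.mp hm).2⟩,
        h1 i m (mem_filter.mp hm).2⟩) hm'
  have := sum_le_sum fun i (_ : i ∈ univ) => h4 i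
  linarith

theorem eqn_tn : Eqn (tn (𝕜 := 𝕜)) := fun a =>
  ⟨by
    rintro _ (⟨n, rfl⟩ | ⟨k, E, h, rfl⟩)
    exacts [norm_le_tn a n, sum_tn_le a h],
  fun _ hr => nu_le fun G h _ => tree_cases G h a tn (fun G' b h' _ => val_le_tn G' h' b)
    (fun n => hr (Or.inl ⟨n, rfl⟩)) fun k E h => hr (Or.inr ⟨k, E, h, rfl⟩)⟩

theorem Eqn.eq {N : (ℕ →₀ 𝕜) → ℝ} (h : Eqn N) (h0 : N 0 = 0) (a : ℕ →₀ 𝕜) : N a = tn a := by
  have h1 : ∀ (M : ℕ) (G : Fo) (a : ℕ →₀ 𝕜), G.nr ≤ 1 → (∀ m ∈ G.s, G.d m < M) →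
      G.val (ab a) ≤ N a := by
    intro M
    induction M with
    | zero =>
      intro G a _ e
      rw [Fo.val, eq_empty_of_forall_notMem fun m hm => Nat.not_lt_zero _ (e m hm), sum_empty]
      exact (norm_nonneg _).trans ((h a).1 (Or.inl ⟨0, rfl⟩))
    | succ M ih =>
      exact fun G a hG e => tree_cases G hG a N (fun G' b h' e' => ih G' b h' fun m hm => by
          obtain ⟨m', a1, a2⟩ := e' m hm
          have := e m' a1
          omega)
        (fun n => (h a).1 (Or.inl ⟨n, rfl⟩)) fun k E hE => (h a).1 (Or.inr ⟨k, E, hE, rfl⟩)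
  refine le_antisymm ?_ (nu_le fun G hG _ => h1 _ G a hG fun m hm =>
    Nat.lt_succ_of_le (le_sup (f := G.d) hm))
  induction e : a.support.card using Nat.strong_induction_on generalizing a with
  | _ n ih =>
    have h2 : N a ≤ max (tn a) (N a / 2) := (h a).2 (by
      rintro _ (⟨n, rfl⟩ | ⟨k, E, hE, rfl⟩)
      · exact le_max_of_le_left (norm_le_tn a n)
      · by_cases c : ∃ i, a.support ⊆ E i
        · obtain ⟨i, hi⟩ := c
          rw [sum_eq_single_of_mem i (mem_univ _) fun j _ hj => ?_,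
            (Finsupp.filter_eq_self_iff _ _).mpr fun m hm => hi (Finsupp.mem_support_iff.mpr hm)]
          · exact le_max_of_le_right (le_of_eq (by ring))
          · rw [(Finsupp.filter_eq_zero_iff _ _).mpr fun m hm => by_contra fun c => ?_, h0]
            have hm' := hi (Finsupp.mem_support_iff.mpr c)
            rcases lt_or_gt_of_ne hj with c' | c'
            exacts [lt_irrefl _ (hE.2.2 _ _ c' m hm m hm'), lt_irrefl _ (hE.2.2 _ _ c' m hm' m hm)]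
        · refine le_max_of_le_left (le_trans (mul_le_mul_of_nonneg_left (sum_le_sum fun i _ =>
            ih _ ?_ _ rfl) (by norm_num)) (sum_tn_le a hE))
          rw [← e, Finsupp.support_filter]
          exact card_lt_card (filter_ssubset.mpr (by
            by_contra c'
            push Not at c'
            exact c ⟨i, c'⟩)))
    have h3 := (norm_nonneg _).trans (norm_le_tn a 0)
    rcases le_max_iff.mp h2 with c | c <;> linarith

/-- Renumbering the coordinates. -/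
noncomputable def ren : (ℕ →₀ 𝕜) ≃ₗ[𝕜] (ℕ+ →₀ 𝕜) := Finsupp.domLCongr Equiv.pnatEquivNat.symm

theorem ren_apply (a : ℕ →₀ 𝕜) (n : ℕ+) : ren a n = a n.natPred := rfl

theorem isTsirelson_iff (ι : (ℕ+ →₀ 𝕜) →ₗ[𝕜] X) :
    IsTsirelson 𝕜 ι ↔ DenseRange (ι ∘ₗ ren.toLinearMap) ∧ Eqn fun a => ‖ι (ren a)‖ := by
  refine and_congr (by
    rw [DenseRange, DenseRange, LinearMap.coe_comp, LinearEquiv.coe_coe,
      ren.surjective.range_comp]) (ren.surjective.forall.trans (forall_congr' fun a => ?_))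
  congr! 4 with r r
  · exact ⟨fun ⟨n, h⟩ => ⟨_, h⟩, fun ⟨n, h⟩ => ⟨n.succPNat, h⟩⟩
  · have key : ∀ E : Finset ℕ, (ren a).filter (· ∈ E.map Equiv.pnatEquivNat.symm.toEmbedding) =
        ren (a.filter (· ∈ E)) := fun E => Finsupp.ext fun n => by
      simp [ren_apply, Finsupp.filter_apply, mem_map_equiv]
    constructor
    · rintro ⟨k, E, h, rfl⟩
      refine ⟨k, fun i => (E i).map Equiv.pnatEquivNat.toEmbedding, ⟨fun i => (h.1 i).map,
        fun i m hm => ?_, fun i j e a ha b hb => ?_⟩, ?_⟩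
      · exact Nat.le_of_lt_succ (h.2.1 i _ (mem_map_equiv.mp hm))
      · exact Nat.succPNat_lt_succPNat.mp
          (h.2.2 i j e _ (mem_map_equiv.mp ha) _ (mem_map_equiv.mp hb))
      · simp only [← key, map_map]
        simp
    · rintro ⟨k, E, h, rfl⟩
      refine ⟨k, fun i => (E i).map Equiv.pnatEquivNat.symm.toEmbedding, ⟨fun i => (h.1 i).map,
        fun i m hm => ?_, fun i j e a ha b hb => ?_⟩, by simp only [key]⟩
      · obtain ⟨m, hm', rfl⟩ := mem_map.mp hm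
        exact Nat.lt_succ_of_le (h.2.1 i m hm')
      · obtain ⟨a, ha', rfl⟩ := mem_map.mp ha
        obtain ⟨b, hb', rfl⟩ := mem_map.mp hb
        exact Nat.succPNat_lt_succPNat.mpr (h.2.2 i j e a ha' b hb')

theorem tn_add_le (a b : ℕ →₀ 𝕜) : tn (a + b) ≤ tn a + tn b := by
  refine nu_le fun G h _ => le_trans ?_ (add_le_add (val_le_tn G h a) (val_le_tn G h b))
  rw [Fo.val, Fo.val, Fo.val, ← sum_add_distrib]
  refine sum_le_sum fun m _ => ?_
  rw [← mul_add]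
  exact mul_le_mul_of_nonneg_left (norm_add_le _ _) (by positivity)

/-- Finitely supported sequences with the Tsirelson norm. -/
def C00 (𝕜 : Type) [RCLike 𝕜] : Type := ℕ →₀ 𝕜

namespace C00
variable (𝕜 : Type) [RCLike 𝕜]

noncomputable instance : AddCommGroup (C00 𝕜) := inferInstanceAs (AddCommGroup (ℕ →₀ 𝕜))
noncomputable instance : Module 𝕜 (C00 𝕜) := inferInstanceAs (Module 𝕜 (ℕ →₀ 𝕜))
noncomputable instance : Norm (C00 𝕜) := ⟨tn (𝕜 := 𝕜)⟩

theorem core : SeminormedSpace.Core 𝕜 (C00 𝕜) :=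
  ⟨fun a => nu_nonneg (ab_nonneg (𝕜 := 𝕜) a) _, tn_smul (𝕜 := 𝕜), tn_add_le (𝕜 := 𝕜)⟩

noncomputable instance : SeminormedAddCommGroup (C00 𝕜) := SeminormedAddCommGroup.ofCore (core 𝕜)
noncomputable instance : NormedSpace 𝕜 (C00 𝕜) := ⟨tn_smul_le (𝕜 := 𝕜)⟩

end C00

theorem exists_tsirelson (𝕜 : Type) [RCLike 𝕜] : ∃ (X : Type) (_ : NormedAddCommGroup X)
    (_ : NormedSpace 𝕜 X) (_ : CompleteSpace X) (ι : (ℕ+ →₀ 𝕜) →ₗ[𝕜] X), IsTsirelson 𝕜 ι := by
  let j : (ℕ →₀ 𝕜) →ₗ[𝕜] UniformSpace.Completion (C00 𝕜) :=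
    (UniformSpace.Completion.toComplₗᵢ (𝕜 := 𝕜) (E := C00 𝕜)).toLinearMap
  refine ⟨UniformSpace.Completion (C00 𝕜), inferInstance, inferInstance, inferInstance,
    j ∘ₗ ren.symm.toLinearMap, (isTsirelson_iff _).mpr ⟨?_, ?_⟩⟩
  · rw [LinearMap.comp_assoc, LinearEquiv.symm_comp, LinearMap.comp_id]
    exact UniformSpace.Completion.denseRange_coe (α := C00 𝕜)
  · convert eqn_tn using 2 with a
    rw [LinearMap.comp_apply, LinearEquiv.coe_coe, LinearEquiv.symm_apply_apply]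
    exact UniformSpace.Completion.norm_coe (E := C00 𝕜) a

end Pool.Agent.Lib.MP_740c08_an

/-! The asymptotic biorthogonal system of the Tsirelson space. -/

namespace Pool.Agent.Lib.MP_740c08_an

open Finset Filter Topology

variable {𝕜 : Type*} [RCLike 𝕜] {X : Type*} [NormedAddCommGroup X] [NormedSpace 𝕜 X]
  {ι : (ℕ →₀ 𝕜) →ₗ[𝕜] X}

theorem exists_fun (hd : DenseRange ι) (hn : ∀ a, ‖ι a‖ = tn a) (φ : (ℕ →₀ 𝕜) →ₗ[𝕜] 𝕜)
    (h : ∀ a, ‖φ a‖ ≤ tn a) : ∃ f : StrongDual 𝕜 X, ‖f‖ ≤ 1 ∧ ∀ a, f (ι a) = φ a :=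
  have h' : ∀ a, ‖φ a‖ ≤ 1 * ‖ι a‖ := fun a => by rw [one_mul, hn]; exact h a
  ⟨φ.extendOfNorm ι, LinearMap.opNorm_extendOfNorm_le hd zero_le_one h',
    LinearMap.extendOfNorm_eq hd ⟨1, h'⟩⟩

/-- The functional of a tree with signs. -/
noncomputable def Fo.fn (G : Fo) (θ : ℕ → 𝕜) : (ℕ →₀ 𝕜) →ₗ[𝕜] 𝕜 :=
  ∑ m ∈ G.s, ((((1 / 2 : ℝ) ^ G.d m : ℝ) : 𝕜) * θ m) • Finsupp.lapply m

theorem fn_apply (G : Fo) (θ : ℕ → 𝕜) (a : ℕ →₀ 𝕜) :
    G.fn θ a = ∑ m ∈ G.s, (((1 / 2 : ℝ) ^ G.d m : ℝ) : 𝕜) * (θ m * a m) := by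
  simp [Fo.fn, mul_assoc]

theorem fn_le (G : Fo) {θ : ℕ → 𝕜} (h : ∀ m, ‖θ m‖ = 1) (a : ℕ →₀ 𝕜) :
    ‖G.fn θ a‖ ≤ G.val (ab a) := by
  rw [fn_apply]
  refine (norm_sum_le _ _).trans (le_of_eq (sum_congr rfl fun m _ => ?_))
  rw [norm_mul, norm_mul, h, one_mul, RCLike.norm_ofReal, abs_of_nonneg (by positivity), ab]

theorem exists_fn (G : Fo) (a : ℕ →₀ 𝕜) :
    ∃ θ : ℕ → 𝕜, (∀ m, ‖θ m‖ = 1) ∧ G.val (ab a) ≤ ‖G.fn θ a‖ := by
  choose θ h1 h2 using fun m => RCLike.exists_norm_eq_mul_self (a m)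
  refine ⟨θ, h1, (le_abs_self _).trans (le_of_eq ?_)⟩
  rw [← RCLike.norm_ofReal (K := 𝕜), fn_apply, Fo.val, RCLike.ofReal_sum]
  congr 1
  exact sum_congr rfl fun m _ => by rw [← h2, ab, RCLike.ofReal_mul]

theorem supply (hd : DenseRange ι) (hn : ∀ a, ‖ι a‖ = tn a) (Y : Submodule 𝕜 X)
    (hY : ¬ FiniteDimensional 𝕜 Y) :
    Supply ((normSeminorm 𝕜 (X ⧸ Y)).comp (Y.mkQ ∘ₗ ι)) := by
  intro t ε hε
  choose f f1 f2 using fun m => exists_fun hd hn (Finsupp.lapply m) fun a => norm_le_tn a m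
  obtain ⟨y, y1, y2⟩ : ∃ y : Y, ‖(y : X)‖ = 1 ∧ ∀ m ≤ t, f m y = 0 := by
    let Φ : Y →ₗ[𝕜] (Fin (t + 1) → 𝕜) := LinearMap.pi fun m => (f m).toLinearMap ∘ₗ Y.subtype
    obtain ⟨y, y1, y2⟩ := (LinearMap.ker Φ).exists_mem_ne_zero_of_ne_bot fun e =>
      hY (FiniteDimensional.of_injective Φ (LinearMap.ker_eq_bot.mp e))
    refine ⟨((‖y‖⁻¹ : ℝ) : 𝕜) • y, ?_, fun m hm => ?_⟩
    · rw [Submodule.coe_smul, norm_smul, RCLike.norm_ofReal, abs_of_nonneg (by positivity)]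
      exact inv_mul_cancel₀ (norm_ne_zero_iff.mpr y2)
    · have : f m y = 0 := congrFun y1 ⟨m, Nat.lt_succ_of_le hm⟩
      rw [Submodule.coe_smul, map_smul, this, smul_zero]
  have h0 : 0 < min ε 1 / 2 / (t + 2) := by positivity
  obtain ⟨a, ha⟩ := hd.exists_dist_lt y h0
  rw [dist_comm, dist_eq_norm] at ha
  let b := a.filter (t < ·)
  have h1 : ‖ι b - y‖ ≤ min ε 1 / 2 := by
    have e1 : tn (b - a) ≤ ∑ _m ∈ range (t + 1), min ε 1 / 2 / (t + 2) := by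
      refine (nu_le_sum (ab_nonneg _) _).trans ((sum_le_sum_of_subset_of_nonneg (fun m hm => ?_)
        fun m _ _ => ab_nonneg _ m).trans (sum_le_sum fun m hm => ?_))
      · refine mem_range.mpr (Nat.lt_succ_of_le (not_lt.mp fun c => Finsupp.mem_support_iff.mp hm ?_))
        rw [Finsupp.sub_apply, Finsupp.filter_apply_pos _ _ c, sub_self]
      · have hm' := Nat.le_of_lt_succ (mem_range.mp hm)
        have e2 : f m (ι a - y) = a m := by rw [map_sub, y2 m hm', f2, sub_zero]; rfl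
        rw [ab, Finsupp.sub_apply, Finsupp.filter_apply_neg _ _ (not_lt.mpr hm'), zero_sub,
          norm_neg, ← e2]
        exact ((f m).le_of_opNorm_le (f1 m) _).trans (by rw [one_mul]; exact ha.le)
    rw [← hn, map_sub, sum_const, card_range, nsmul_eq_mul] at e1
    refine (norm_sub_le_norm_sub_add_norm_sub _ (ι a) _).trans
      ((add_le_add e1 ha.le).trans (le_of_eq ?_))
    push_cast
    field_simp
    ring
  have h2 : 1 / 2 ≤ tn b := by
    have := norm_sub_norm_le (y : X) (ι b)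
    rw [norm_sub_rev, y1, hn] at this
    linarith [min_le_right ε 1]
  have h3 : ‖(((tn b)⁻¹ : ℝ) : 𝕜)‖ = (tn b)⁻¹ := by
    rw [RCLike.norm_ofReal, abs_of_nonneg (by positivity)]
  refine ⟨(((tn b)⁻¹ : ℝ) : 𝕜) • b, fun m hm => ?_, ?_, ?_⟩
  · have := Finsupp.support_smul hm
    rw [Finsupp.support_filter] at this
    exact (mem_filter.mp this).2
  · rw [tn_smul, h3, inv_mul_cancel₀ (by positivity)]
  · have h4 : ‖Y.mkQ (ι b)‖ ≤ ε / 2 := by
      rw [← sub_zero (Y.mkQ _), ← (Submodule.Quotient.mk_eq_zero Y).mpr y.2, ← Submodule.mkQ_apply,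
        ← map_sub]
      exact (Submodule.Quotient.norm_mk_le Y _).trans (h1.trans (by gcongr; exact min_le_left _ _))
    rw [map_smul_eq_mul, h3, inv_mul_le_iff₀ (by positivity)]
    exact h4.trans (by nlinarith)

theorem exists_abs (hd : DenseRange ι) (hn : ∀ a, ‖ι a‖ = tn a) :
    ∃ (A : ℕ → Set X) (A' : ℕ → Set (StrongDual 𝕜 X)), IsABS 𝕜 A A' := by
  let A' : ℕ → Set (StrongDual 𝕜 X) := fun n => {f | ‖f‖ ≤ 1 ∧ ∃ (G : Fo) (θ : ℕ → 𝕜), G.nr ≤ 1 ∧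
    (∀ m ∈ G.s, G.y m = 2 ^ n) ∧ (∀ m, ‖θ m‖ = 1) ∧ ∀ a, f (ι a) = G.fn θ a}
  refine ⟨fun n => {x | ‖x‖ = 1 ∧ (∃ f ∈ A' n, 1 / 2 ≤ ‖f x‖) ∧
    ∀ m, n ≠ m → ∀ f ∈ A' m, ‖f x‖ ≤ 8 * (1 / 2) ^ min n m}, A', fun n x h => h.1, fun n f h => h.1,
    fun n Y _ hY => ?_, fun n x h => h.2.1, fun j => 8 * (1 / 2) ^ j, ?_,
    fun n m e x h => h.2.2 m e⟩
  swap
  · simpa using (tendsto_pow_atTop_nhds_zero_of_lt_one (r := (1 / 2 : ℝ)) (by norm_num)
      (by norm_num)).const_mul 8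
  have h0 : (0 : ℝ) < (1 / 2) ^ n / 100 := by positivity
  have h1 : (1 / 2 : ℝ) ^ n ≤ 1 := pow_le_one₀ (by norm_num) (by norm_num)
  have h2 : 2 ^ n - 1 + 1 = 2 ^ n := Nat.sub_add_cancel Nat.one_le_two_pow
  obtain ⟨x, x1, x2, ⟨G, g1, g2, g3⟩, x3⟩ :=
    exists_type (supply hd hn Y hY) (n + 1) (2 ^ n - 1) (by omega) h0
  obtain ⟨z, z1, z2⟩ := Submodule.Quotient.norm_mk_lt (Y.mkQ (ι x)) h0
  have z3 : ‖z‖ ≤ (1 / 2) ^ n / 50 := by
    change ‖Y.mkQ (ι x)‖ ≤ _ at x2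
    linarith
  obtain ⟨θ, t1, t2⟩ := exists_fn G x
  obtain ⟨f, f1, f2⟩ := exists_fun hd hn (G.fn θ) fun a => (fn_le G t1 a).trans (val_le_tn G g1 a)
  have k1 : ∀ g : StrongDual 𝕜 X, ‖g‖ ≤ 1 → ∀ v, ‖g v‖ ≤ ‖v‖ := fun g h v =>
    (g.le_of_opNorm_le h v).trans_eq (one_mul _)
  have k2 : 22 / 25 ≤ ‖f (ι x - z)‖ := by
    have := norm_sub_norm_le (f (ι x)) (f z)
    rw [← map_sub, f2] at this
    linarith [k1 f f1 z]
  have k3 := k1 f f1 (ι x - z)
  have k4 : ‖ι x - z‖ ≤ 43 / 25 := by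
    have := norm_sub_le (ι x) z
    rw [hn] at this
    linarith
  have k5 : 0 < ‖ι x - z‖ := by linarith
  have k6 : ‖((‖ι x - z‖⁻¹ : ℝ) : 𝕜)‖ = ‖ι x - z‖⁻¹ := by
    rw [RCLike.norm_ofReal, abs_of_nonneg (by positivity)]
  refine ⟨((‖ι x - z‖⁻¹ : ℝ) : 𝕜) • (ι x - z), ⟨?_, ⟨f, ⟨f1, G, θ, g1, h2 ▸ g2, t1, f2⟩, ?_⟩, ?_⟩,
    Y.smul_mem _ ((Submodule.Quotient.eq Y).mp z1.symm)⟩
  · rw [norm_smul, k6, inv_mul_cancel₀ k5.ne']
  · rw [map_smul, norm_smul, k6, le_inv_mul_iff₀ k5]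
    linarith
  · rintro m e g ⟨a1, G', θ', a2, a3, a4, a5⟩
    have b1 := Nat.lt_two_pow_self (n := n)
    have b2 := Nat.lt_two_pow_self (n := m)
    have b3 := x3 G' _ (min n m) a2 a3 (by omega) (by omega) (by
      rcases lt_or_gt_of_ne e with c | c
      · have := Nat.pow_le_pow_right two_pos (Nat.succ_le_of_lt c)
        rw [pow_succ] at this
        omega
      · have := Nat.pow_lt_pow_right one_lt_two c
        omega)
    have b4 := norm_sub_le (g (ι x)) (g z)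
    have b5 : (1 / 2 : ℝ) ^ n ≤ (1 / 2) ^ min n m :=
      pow_le_pow_of_le_one (by norm_num) (by norm_num) (min_le_left _ _)
    rw [← map_sub, a5] at b4
    rw [map_smul, norm_smul, k6, inv_mul_le_iff₀ k5]
    nlinarith [k1 g a1 z, fn_le G' a4 x]

theorem abs_of_tsirelson {ι : (ℕ+ →₀ 𝕜) →ₗ[𝕜] X} (h : IsTsirelson 𝕜 ι) :
    ∃ (A : ℕ → Set X) (A' : ℕ → Set (StrongDual 𝕜 X)), IsABS 𝕜 A A' :=
  have h' := (isTsirelson_iff ι).mp h
  exists_abs h'.1 fun a => h'.2.eq (by rw [map_zero, map_zero, norm_zero]) a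

/-- A space with an asymptotic biorthogonal system is arbitrarily distortable. -/
theorem distortable_of_abs {A : ℕ → Set X} {A' : ℕ → Set (StrongDual 𝕜 X)} (h : IsABS 𝕜 A A')
    {C : ℝ} (hC : 1 < C) : ∃ N : Seminorm 𝕜 X,
      (∃ a > 0, ∃ b, ∀ x, a * ‖x‖ ≤ N x ∧ N x ≤ b * ‖x‖) ∧ ∀ Y : Submodule 𝕜 X,
        IsClosed (Y : Set X) → ¬ FiniteDimensional 𝕜 Y →
          ¬ ∃ a > 0, ∀ y ∈ Y, a * ‖y‖ ≤ N y ∧ N y ≤ C * a * ‖y‖ := by
  obtain ⟨h1, h2, h3, h4, δ, h5, h6⟩ := h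
  have h0 : 0 < 1 / (8 * C) := by positivity
  obtain ⟨n, hn⟩ := (h5.eventually (gt_mem_nhds h0)).exists
  let q : A' n → Seminorm 𝕜 X := fun f => (normSeminorm 𝕜 𝕜).comp f.1.toLinearMap
  have b1 : ∀ f x, q f x ≤ ‖x‖ := fun f x =>
    (f.1.le_of_opNorm_le (h2 n f f.2) x).trans_eq (one_mul _)
  have b2 : BddAbove (Set.range q) := ⟨normSeminorm 𝕜 X, by rintro _ ⟨f, rfl⟩ x; exact b1 f x⟩
  have b3 : ∀ x r, 0 ≤ r → (∀ f, q f x ≤ r) → (⨆ f, q f) x ≤ r := fun x r hr h => by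
    rw [Seminorm.iSup_apply b2]
    exact Real.iSup_le h hr
  let c : NNReal := ⟨_, h0.le⟩
  let N : Seminorm 𝕜 X := c • normSeminorm 𝕜 X + ⨆ f, q f
  have b4 : ∀ x, N x = 1 / (8 * C) * ‖x‖ + (⨆ f, q f) x := fun x => rfl
  refine ⟨N, ⟨_, h0, 1 / (8 * C) + 1, fun x => ⟨?_, ?_⟩⟩, fun Y y1 y2 ⟨a, a0, ha⟩ => ?_⟩
  · exact b4 x ▸ le_add_of_nonneg_right (apply_nonneg _ _)
  · rw [b4, add_mul, one_mul]
    exact add_le_add_right (b3 x _ (norm_nonneg _) fun f => b1 f x) _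
  obtain ⟨x, x1, x2⟩ := h3 n Y y1 y2
  obtain ⟨y, y3, y4⟩ := h3 (n + 1) Y y1 y2
  obtain ⟨f, f1, f2⟩ := h4 n x x1
  have c1 := (ha x x2).2
  have c2 := (ha y y4).1
  have c3 : q ⟨f, f1⟩ x ≤ (⨆ f, q f) x := le_ciSup b2 ⟨f, f1⟩ x
  have c4 := b3 y _ h0.le fun f => (h6 _ n n.succ_ne_self y y3 f f.2).trans (by simpa using hn.le)
  rw [b4, h1 _ _ x1] at c1
  rw [b4, h1 _ _ y3] at c2
  have c5 : C * (1 / (8 * C)) = 1 / 8 := by field_simp
  change ‖f x‖ ≤ _ at c3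
  nlinarith

end Pool.Agent.Lib.MP_740c08_an
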